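import Mathlib

set_option autoImplicit false

/-!
Self-interacting walks driven by a field of arrow stacks.

`ξ z i` is the direction taken at the `(i+1)`-st departure from the site `z`.
-/

namespace Pool.H543.ERW

/-- Geometric data: steps `u e`, a norm `N` with finite balls, a level function `L` with
`|L x| ≤ N x`, a step going up by one level, and connectedness of the levels. -/
structure Geo (V E : Type) [AddCommGroup V] where
  /-- the step in direction `e` -/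
  u : E → V
  /-- the norm -/
  N : V → ℕ
  N_zero : N 0 = 0
  N_neg : ∀ x, N (-x) = N x
  N_add : ∀ x y, N (x + y) ≤ N x + N y
  N_fin : ∀ R, {x | N x ≤ R}.Finite
  N_u : ∀ e, N (u e) ≤ 1
  /-- the level -/
  L : V →+ ℤ
  L_le : ∀ x, |L x| ≤ N x
  /-- a direction going up -/
  up : E
  L_up : L (u up) = 1
  travel : ∀ v, L v = 0 → ∃ δ : List E, (∀ e ∈ δ, L (u e) = 0) ∧ (δ.map u).sum = v

variable {V E : Type} [AddCommGroup V] [DecidableEq V] (g : Geo V E)

/-- One step of the walk: from position `s.1`, with `s.2 z` previous departures from `z`. -/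
def stp (ξ : V → ℕ → E) (s : V × (V → ℕ)) : V × (V → ℕ) :=
  (s.1 + g.u (ξ s.1 (s.2 s.1)), Function.update s.2 s.1 (s.2 s.1 + 1))

/-- State after `n` steps. -/
def ev (ξ : V → ℕ → E) (s : V × (V → ℕ)) (n : ℕ) : V × (V → ℕ) := (stp g ξ)^[n] s

@[simp] lemma ev_zero (ξ : V → ℕ → E) (s : V × (V → ℕ)) : ev g ξ s 0 = s := rfl

lemma ev_succ (ξ : V → ℕ → E) (s : V × (V → ℕ)) (n : ℕ) :
    ev g ξ s (n + 1) = stp g ξ (ev g ξ s n) := by
  simp only [ev, Function.iterate_succ_apply']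

lemma ev_add (ξ : V → ℕ → E) (s : V × (V → ℕ)) (m n : ℕ) :
    ev g ξ s (m + n) = ev g ξ (ev g ξ s m) n := by
  simp only [ev, Nat.add_comm m n, Function.iterate_add_apply]

lemma ev_succ' (ξ : V → ℕ → E) (s : V × (V → ℕ)) (n : ℕ) :
    ev g ξ s (n + 1) = ev g ξ (stp g ξ s) n := by
  simp only [ev, Function.iterate_succ_apply]

lemma N_sub_comm (x y : V) : g.N (x - y) = g.N (y - x) := by
  rw [← g.N_neg, neg_sub]

lemma N_tri (x y z : V) : g.N (x - z) ≤ g.N (x - y) + g.N (y - z) := by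
  have := g.N_add (x - y) (y - z)
  simpa using this

lemma N_step (ξ : V → ℕ → E) (s : V × (V → ℕ)) (y : V) :
    g.N ((stp g ξ s).1 - y) ≤ g.N (s.1 - y) + 1 := by
  have h1 := g.N_add (s.1 - y) (g.u (ξ s.1 (s.2 s.1)))
  have h2 := g.N_u (ξ s.1 (s.2 s.1))
  have h3 : (stp g ξ s).1 - y = (s.1 - y) + g.u (ξ s.1 (s.2 s.1)) := by
    simp only [stp]; abel
  rw [h3]; omega

lemma N_ev_le (ξ : V → ℕ → E) (y : V) (c : V → ℕ) (n : ℕ) :
    g.N ((ev g ξ (y, c) n).1 - y) ≤ n := by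
  induction n with
  | zero => simp [g.N_zero]
  | succ n ih =>
    rw [ev_succ]
    have := N_step g ξ (ev g ξ (y, c) n) y
    omega

lemma L_u (e : E) : |g.L (g.u e)| ≤ 1 := by
  have h1 := g.L_le (g.u e)
  have h2 := g.N_u e
  have : (g.N (g.u e) : ℤ) ≤ 1 := by exact_mod_cast h2
  linarith

lemma L_step (ξ : V → ℕ → E) (s : V × (V → ℕ)) :
    |g.L (stp g ξ s).1 - g.L s.1| ≤ 1 := by
  have : g.L (stp g ξ s).1 - g.L s.1 = g.L (g.u (ξ s.1 (s.2 s.1))) := by
    simp [stp, map_add]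
  rw [this]; exact L_u g _

lemma L_step_ev (ξ : V → ℕ → E) (s : V × (V → ℕ)) (n : ℕ) :
    |g.L (ev g ξ s (n + 1)).1 - g.L (ev g ξ s n).1| ≤ 1 := by
  rw [ev_succ]; exact L_step g ξ _

/-- Locality. -/
theorem loc {ξ ξ' : V → ℕ → E} {S : Set V} (hξ : ∀ z ∈ S, ξ z = ξ' z) {y : V} {c c' : V → ℕ}
    (hc : ∀ z ∈ S, c z = c' z) (n : ℕ) (h : ∀ i < n, (ev g ξ (y, c) i).1 ∈ S) :
    ∀ i ≤ n, (ev g ξ' (y, c') i).1 = (ev g ξ (y, c) i).1 ∧
      (∀ z ∈ S, (ev g ξ' (y, c') i).2 z = (ev g ξ (y, c) i).2 z) ∧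
      (∀ z ∉ S, (ev g ξ' (y, c') i).2 z = c' z) := by
  intro i
  induction i with
  | zero => intro _; exact ⟨rfl, fun z hz => (hc z hz).symm, fun z _ => rfl⟩
  | succ i ih =>
    intro hi
    obtain ⟨h1, h2, h3⟩ := ih (by omega)
    have hS := h i (by omega)
    rw [ev_succ, ev_succ]
    simp only [stp]
    rw [h1, h2 _ hS, hξ _ hS]
    refine ⟨rfl, ?_, ?_⟩
    · intro z hz
      by_cases hzz : z = (ev g ξ (y, c) i).1
      · subst hzz; simp
      · simp [Function.update_of_ne hzz, h2 z hz]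
    · intro z hz
      have hzz : z ≠ (ev g ξ (y, c) i).1 := fun h => hz (h ▸ hS)
      simp [Function.update_of_ne hzz, h3 z hz]

lemma cnt_eq {ξ ξ' : V → ℕ → E} {s : V × (V → ℕ)} {n : ℕ}
    (h : ∀ i < n, (ev g ξ s i).1 = (ev g ξ' s i).1) : (ev g ξ s n).2 = (ev g ξ' s n).2 := by
  induction n with
  | zero => rfl
  | succ n ih =>
    have h1 := ih (fun i hi => h i (by omega))
    rw [ev_succ, ev_succ]
    simp only [stp]
    rw [h1, h n (by omega)]

/-- counts do not change off the visited sites -/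
lemma cnt_unvisited (ξ : V → ℕ → E) (s : V × (V → ℕ)) (n : ℕ) (z : V)
    (h : ∀ i < n, (ev g ξ s i).1 ≠ z) : (ev g ξ s n).2 z = s.2 z := by
  induction n with
  | zero => rfl
  | succ n ih =>
    have h1 := ih (fun i hi => h i (by omega))
    rw [ev_succ]
    simp only [stp]
    rw [Function.update_of_ne (h n (by omega)).symm, h1]

/-- Translation of the field. -/
def tr (v : V) (ξ : V → ℕ → E) : V → ℕ → E := fun z => ξ (z + v)

lemma ev_tr (v : V) (ξ : V → ℕ → E) (x : V) (c : V → ℕ) (n : ℕ) :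
    ev g (tr v ξ) (x, fun z => c (z + v)) n =
      ((ev g ξ (x + v, c) n).1 - v, fun z => (ev g ξ (x + v, c) n).2 (z + v)) := by
  induction n with
  | zero => simp
  | succ n ih =>
    rw [ev_succ, ev_succ, ih]
    simp only [stp, tr, sub_add_cancel, Prod.mk.injEq]
    refine ⟨by abel, ?_⟩
    funext z
    by_cases hz : z = (ev g ξ (x + v, c) n).1 - v
    · subst hz; simp
    · have hz' : z + v ≠ (ev g ξ (x + v, c) n).1 := fun h => hz (by rw [← h]; abel)
      rw [Function.update_of_ne hz, Function.update_of_ne hz']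

/-- The walk started at the origin. -/
def W (ξ : V → ℕ → E) (n : ℕ) : V := (ev g ξ (0, 0) n).1

/-- The departure counts of the walk started at the origin. -/
def C (ξ : V → ℕ → E) (n : ℕ) : V → ℕ := (ev g ξ (0, 0) n).2

lemma W_zero (ξ : V → ℕ → E) : W g ξ 0 = 0 := rfl
lemma C_zero (ξ : V → ℕ → E) : C g ξ 0 = 0 := rfl

lemma ev_WC (ξ : V → ℕ → E) (n : ℕ) : ev g ξ (0, 0) n = (W g ξ n, C g ξ n) := rfl

lemma W_succ (ξ : V → ℕ → E) (n : ℕ) :
    W g ξ (n + 1) = W g ξ n + g.u (ξ (W g ξ n) (C g ξ n (W g ξ n))) := by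
  simp only [W, C, ev_succ, stp]

lemma C_succ (ξ : V → ℕ → E) (n : ℕ) :
    C g ξ (n + 1) = Function.update (C g ξ n) (W g ξ n) (C g ξ n (W g ξ n) + 1) := by
  simp only [W, C, ev_succ, stp]

lemma LW_step (ξ : V → ℕ → E) (n : ℕ) : |g.L (W g ξ (n + 1)) - g.L (W g ξ n)| ≤ 1 :=
  L_step_ev g ξ _ n

/-- The set of fields whose walk has the same first `n` steps as that of `ξ₀`. -/
def Cy (ξ₀ : V → ℕ → E) (n : ℕ) : Set (V → ℕ → E) := {ξ | ∀ i ≤ n, W g ξ i = W g ξ₀ i}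

lemma mem_Cy_self (ξ₀ : V → ℕ → E) (n : ℕ) : ξ₀ ∈ Cy g ξ₀ n := fun _ _ => rfl

lemma Cy_C {ξ ξ₀ : V → ℕ → E} {n : ℕ} (h : ξ ∈ Cy g ξ₀ n) {i : ℕ} (hi : i ≤ n + 1) :
    C g ξ i = C g ξ₀ i :=
  cnt_eq g (fun j hj => h j (by omega))

lemma Cy_succ (ξ₀ : V → ℕ → E) (n : ℕ) :
    Cy g ξ₀ (n + 1) = Cy g ξ₀ n ∩
      {ξ | W g ξ₀ n + g.u (ξ (W g ξ₀ n) (C g ξ₀ n (W g ξ₀ n))) = W g ξ₀ (n + 1)} := by
  ext ξ
  constructor
  · intro h
    have h0 : ξ ∈ Cy g ξ₀ n := fun i hi => h i (by omega)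
    refine ⟨h0, ?_⟩
    have h1 := h (n + 1) le_rfl
    rw [W_succ g ξ, h n (by omega), Cy_C g h0 (by omega)] at h1
    exact h1
  · rintro ⟨h0, h1⟩ i hi
    rcases Nat.lt_or_ge i (n + 1) with h | h
    · exact h0 i (by omega)
    · have : i = n + 1 := by omega
      subst this
      rw [W_succ g ξ, h0 n le_rfl, Cy_C g h0 (by omega)]
      exact h1

end Pool.H543.ERW
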