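import Mathlib
import Pool.Agent.H543R3.Basic

set_option autoImplicit false
set_option linter.unusedSectionVars false

/-!
Measure theory on the space of arrow fields.
-/

namespace Pool.H543.ERW

open MeasureTheory ProbabilityTheory Set

variable {V E : Type} [AddCommGroup V] [DecidableEq V] (g : Geo V E)

/-- `P` is a finite-window property. -/
def WO (P : (V → ℕ → E) → Prop) : Prop :=
  ∀ ξ, P ξ → ∃ F : Finset (V × ℕ), ∀ ξ' : V → ℕ → E, (∀ p ∈ F, ξ' p.1 p.2 = ξ p.1 p.2) → P ξ'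

lemma WO.and {P Q : (V → ℕ → E) → Prop} (hP : WO P) (hQ : WO Q) : WO (fun ξ => P ξ ∧ Q ξ) := by
  rintro ξ ⟨h1, h2⟩
  obtain ⟨F1, hF1⟩ := hP ξ h1
  obtain ⟨F2, hF2⟩ := hQ ξ h2
  refine ⟨F1 ∪ F2, fun ξ' h => ⟨hF1 ξ' fun p hp => h p ?_, hF2 ξ' fun p hp => h p ?_⟩⟩
  · exact Finset.mem_union_left _ hp
  · exact Finset.mem_union_right _ hp

lemma WO.ex {ι : Sort*} {P : ι → (V → ℕ → E) → Prop} (hP : ∀ i, WO (P i)) :
    WO (fun ξ => ∃ i, P i ξ) := by
  rintro ξ ⟨i, h⟩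
  obtain ⟨F, hF⟩ := hP i ξ h
  exact ⟨F, fun ξ' h' => ⟨i, hF ξ' h'⟩⟩

lemma WO.const (p : Prop) : WO (fun _ : V → ℕ → E => p) :=
  fun _ h => ⟨∅, fun _ _ => h⟩

/-- window for the first `n` steps -/
lemma window_ev (ξ : V → ℕ → E) (s : V × (V → ℕ)) (n : ℕ) :
    ∃ F : Finset (V × ℕ), ∀ ξ' : V → ℕ → E, (∀ p ∈ F, ξ' p.1 p.2 = ξ p.1 p.2) →
      ∀ i ≤ n, ev g ξ' s i = ev g ξ s i := by
  refine ⟨(Finset.range n).image (fun i => ((ev g ξ s i).1, (ev g ξ s i).2 (ev g ξ s i).1)), ?_⟩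
  intro ξ' h i
  induction i with
  | zero => intro _; rfl
  | succ i ih =>
    intro hi
    have h1 := ih (by omega)
    rw [ev_succ, ev_succ, h1]
    have h2 := h _ (Finset.mem_image_of_mem _ (Finset.mem_range.2 (show i < n by omega)))
    simp only at h2
    simp only [stp]
    rw [h2]

/-- a property of the first `n` steps is a finite-window property -/
lemma WO_ev (s : V × (V → ℕ)) (n : ℕ) (Q : (ℕ → V × (V → ℕ)) → Prop)
    (hQ : ∀ f f' : ℕ → V × (V → ℕ), (∀ i ≤ n, f i = f' i) → Q f → Q f') :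
    WO (fun ξ => Q (ev g ξ s)) := by
  intro ξ h
  obtain ⟨F, hF⟩ := window_ev g ξ s n
  exact ⟨F, fun ξ' h' => hQ _ _ (fun i hi => (hF ξ' h' i hi).symm) h⟩

variable [Countable V] [Finite E] [MeasurableSpace E] [DiscreteMeasurableSpace E]

lemma WO.meas {P : (V → ℕ → E) → Prop} (hP : WO P) : MeasurableSet {ξ | P ξ} := by
  have hcnt : ∀ F : Finset (V × ℕ), Countable (F → E) := fun F => inferInstance
  have : {ξ | P ξ} = ⋃ (F : Finset (V × ℕ)), ⋃ (a : F → E),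
      ⋃ (_ : ∀ ξ' : V → ℕ → E, (∀ p : F, ξ' p.1.1 p.1.2 = a p) → P ξ'),
        {ξ | ∀ p : F, ξ p.1.1 p.1.2 = a p} := by
    ext ξ
    simp only [mem_setOf_eq, mem_iUnion]
    constructor
    · intro h
      obtain ⟨F, hF⟩ := hP ξ h
      refine ⟨F, fun p => ξ p.1.1 p.1.2, ?_, fun p => rfl⟩
      intro ξ' h'
      exact hF ξ' (fun p hp => h' ⟨p, hp⟩)
    · rintro ⟨F, a, h1, h2⟩
      exact h1 ξ h2
  rw [this]
  refine MeasurableSet.iUnion fun F => MeasurableSet.iUnion fun a => MeasurableSet.iUnion fun _ => ?_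
  have : {ξ : V → ℕ → E | ∀ p : F, ξ p.1.1 p.1.2 = a p} =
      ⋂ p : F, (fun ξ : V → ℕ → E => ξ p.1.1 p.1.2) ⁻¹' {a p} := by
    ext ξ; simp
  rw [this]
  refine MeasurableSet.iInter fun p => ?_
  have hm : Measurable (fun ξ : V → ℕ → E => ξ p.1.1 p.1.2) :=
    (measurable_pi_apply p.1.2).comp (measurable_pi_apply p.1.1)
  exact hm (MeasurableSet.of_discrete)

variable (ρ : Measure (ℕ → E)) [IsProbabilityMeasure ρ]

/-- The law of the arrow field. -/
noncomputable abbrev mu (V : Type) {E : Type} [MeasurableSpace E] (ρ : Measure (ℕ → E)) :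
    Measure (V → ℕ → E) :=
  Measure.infinitePi (fun _ : V => ρ)

/-- `B` depends only on the stacks at the sites in `S`. -/
def Dep (B : Set (V → ℕ → E)) (S : Set V) : Prop :=
  ∀ ξ ξ' : V → ℕ → E, (∀ z ∈ S, ξ z = ξ' z) → ξ ∈ B → ξ' ∈ B

lemma Dep.mono {B : Set (V → ℕ → E)} {S T : Set V} (h : Dep B S) (hST : S ⊆ T) : Dep B T :=
  fun ξ ξ' h' hB => h ξ ξ' (fun z hz => h' z (hST hz)) hB

lemma Dep.measurable {B : Set (V → ℕ → E)} {S : Set V} (hB : MeasurableSet B) (h : Dep B S)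
    [Nonempty (V → ℕ → E)] :
    MeasurableSet[⨆ z ∈ S, MeasurableSpace.comap (fun ξ : V → ℕ → E => ξ z) inferInstance] B := by
  classical
  obtain ⟨ξ₀⟩ := ‹Nonempty (V → ℕ → E)›
  set f : (V → ℕ → E) → (V → ℕ → E) := fun ξ z => if z ∈ S then ξ z else ξ₀ z with hf
  have hm : @Measurable _ _
      (⨆ z ∈ S, MeasurableSpace.comap (fun ξ : V → ℕ → E => ξ z) inferInstance) _ f := by
    refine @measurable_pi_lambda _ _ _ (_) _ f fun z => ?_
    by_cases hz : z ∈ S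
    · have : (fun ξ : V → ℕ → E => f ξ z) = fun ξ => ξ z := by
        funext ξ; simp [hf, hz]
      rw [this]
      have h1 : @Measurable _ _ (MeasurableSpace.comap (fun ξ : V → ℕ → E => ξ z) inferInstance) _
          (fun ξ : V → ℕ → E => ξ z) := comap_measurable _
      refine h1.mono ?_ le_rfl
      exact le_iSup₂_of_le z hz le_rfl
    · have : (fun ξ : V → ℕ → E => f ξ z) = fun ξ => ξ₀ z := by
        funext ξ; simp [hf, hz]
      rw [this]
      exact @measurable_const _ _ _ (_) _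
  have h2 : B = f ⁻¹' B := by
    ext ξ
    constructor
    · intro hξ
      exact h ξ _ (fun z hz => by simp [hf, hz]) hξ
    · intro hξ
      exact h _ ξ (fun z hz => by simp [hf, hz]) hξ
  rw [h2]
  exact hm hB

theorem indep_dep {B C : Set (V → ℕ → E)} {S T : Set V} (hB : MeasurableSet B)
    (hC : MeasurableSet C) (hBS : Dep B S) (hCT : Dep C T) (hST : Disjoint S T) :
    mu V ρ (B ∩ C) = mu V ρ B * mu V ρ C := by
  haveI : Nonempty (V → ℕ → E) := (mu V ρ).nonempty_of_neZero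
  have h1 : iIndepFun (fun (z : V) (ξ : V → ℕ → E) => ξ z) (mu V ρ) :=
    iIndepFun_infinitePi (X := fun _ x => x) (fun _ => measurable_id)
  have h2 : iIndep (fun z : V => MeasurableSpace.comap (fun ξ : V → ℕ → E => ξ z) inferInstance)
      (mu V ρ) := h1.iIndep
  have h3 := indep_iSup_of_disjoint (fun z => (measurable_pi_apply z).comap_le) h2 hST
  exact (Indep_iff _ _ _).1 h3 B C (hBS.measurable hB) (hCT.measurable hC)

lemma WO_Cy (ξ₀ : V → ℕ → E) (n : ℕ) : WO (fun ξ => ξ ∈ Cy g ξ₀ n) := by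
  refine WO_ev g (0, 0) n (fun f => ∀ i ≤ n, (f i).1 = W g ξ₀ i) ?_
  intro f f' hff h i hi
  rw [← hff i hi]; exact h i hi

lemma meas_Cy (ξ₀ : V → ℕ → E) (n : ℕ) : MeasurableSet (Cy g ξ₀ n) := (WO_Cy g ξ₀ n).meas

lemma dep_Cy (ξ₀ : V → ℕ → E) (n : ℕ) : Dep (Cy g ξ₀ n) {z | ∃ i < n, W g ξ₀ i = z} := by
  intro ξ ξ' h hξ
  have h1 := loc g h (y := 0) (c := 0) (c' := 0) (fun _ _ => rfl) n
    (fun i hi => ⟨i, hi, (hξ i (by omega)).symm⟩)
  intro i hi
  rw [← hξ i hi]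
  exact (h1 i hi).1

/-- Independence of the past and of the unvisited sites. -/
theorem T2 (ξ₀ : V → ℕ → E) (n : ℕ) {D : Set (V → ℕ → E)} {S : Set V} (hD : MeasurableSet D)
    (hDS : Dep D S) (hS : ∀ i < n, W g ξ₀ i ∉ S) :
    mu V ρ (Cy g ξ₀ n ∩ D) = mu V ρ (Cy g ξ₀ n) * mu V ρ D := by
  refine indep_dep ρ (meas_Cy g ξ₀ n) hD (dep_Cy g ξ₀ n) hDS ?_
  rw [Set.disjoint_left]
  rintro z ⟨i, hi, rfl⟩ hz
  exact hS i hi hz

/-- Decomposition over the history at a stopping time. -/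
theorem T1 (A : ℕ → Set (V → ℕ → E)) (hA : ∀ n, ∀ ξ₀ ∈ A n, Cy g ξ₀ n ⊆ A n)
    (hd : Pairwise (Function.onFun Disjoint A)) (B : Set (V → ℕ → E)) (ε : ENNReal)
    (h : ∀ n, ∀ ξ₀ ∈ A n, mu V ρ (B ∩ Cy g ξ₀ n) ≤ ε * mu V ρ (Cy g ξ₀ n)) :
    mu V ρ (B ∩ ⋃ n, A n) ≤ ε * mu V ρ (⋃ n, A n) := by
  classical
  set cyl : (n : ℕ) → (Fin (n + 1) → V) → Set (V → ℕ → E) :=
    fun n p => {ξ | ∀ i : Fin (n + 1), W g ξ i = p i} with hcyl
  have hcyl_eq : ∀ n p ξ₀, ξ₀ ∈ cyl n p → cyl n p = Cy g ξ₀ n := by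
    intro n p ξ₀ h0
    ext ξ
    constructor
    · intro hξ i hi
      have := hξ ⟨i, by omega⟩
      have h1 := h0 ⟨i, by omega⟩
      simp only at this h1
      rw [this, h1]
    · intro hξ i
      rw [hξ i (by omega)]
      exact h0 i
  have hcase : ∀ n p, A n ∩ cyl n p = ∅ ∨ ∃ ξ₀ ∈ A n, A n ∩ cyl n p = Cy g ξ₀ n := by
    intro n p
    by_cases hne : (A n ∩ cyl n p).Nonempty
    · obtain ⟨ξ₀, h0, h1⟩ := hne
      right
      refine ⟨ξ₀, h0, ?_⟩
      rw [hcyl_eq n p ξ₀ h1]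
      exact inter_eq_right.2 (hA n ξ₀ h0)
    · left
      exact not_nonempty_iff_eq_empty.1 hne
  have hmeas : ∀ n p, MeasurableSet (A n ∩ cyl n p) := by
    intro n p
    rcases hcase n p with h1 | ⟨ξ₀, _, h1⟩
    · rw [h1]; exact MeasurableSet.empty
    · rw [h1]; exact meas_Cy g ξ₀ n
  have hun : ∀ n, A n = ⋃ p, A n ∩ cyl n p := by
    intro n
    ext ξ
    simp only [mem_iUnion, mem_inter_iff]
    constructor
    · intro hξ
      exact ⟨fun i => W g ξ i, hξ, fun i => rfl⟩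
    · rintro ⟨_, h1, _⟩
      exact h1
  have hAm : ∀ n, MeasurableSet (A n) := by
    intro n
    rw [hun n]
    exact MeasurableSet.iUnion fun p => hmeas n p
  have hdp : ∀ n, Pairwise (Function.onFun Disjoint fun p => A n ∩ cyl n p) := by
    intro n p q hpq
    rw [Function.onFun, Set.disjoint_left]
    rintro ξ ⟨_, h1⟩ ⟨_, h2⟩
    apply hpq
    funext i
    rw [← h1 i, ← h2 i]
  have hn : ∀ n, mu V ρ (B ∩ A n) ≤ ε * mu V ρ (A n) := by
    intro n
    have e1 : B ∩ A n = ⋃ p, B ∩ (A n ∩ cyl n p) := by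
      rw [← inter_iUnion, ← hun n]
    have e2 : mu V ρ (A n) = ∑' p, mu V ρ (A n ∩ cyl n p) := by
      conv_lhs => rw [hun n]
      exact measure_iUnion (hdp n) (hmeas n)
    rw [e1, e2, ← ENNReal.tsum_mul_left]
    refine (measure_iUnion_le _).trans (ENNReal.tsum_le_tsum fun p => ?_)
    rcases hcase n p with h1 | ⟨ξ₀, h0, h1⟩
    · rw [h1]; simp
    · rw [h1]; exact h n ξ₀ h0
  rw [inter_iUnion, measure_iUnion hd hAm, ← ENNReal.tsum_mul_left]
  exact (measure_iUnion_le _).trans (ENNReal.tsum_le_tsum hn)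

/-- Translation invariance. -/
theorem mp_tr (v : V) : MeasurePreserving (tr (E := E) v) (mu V ρ) (mu V ρ) where
  measurable := by
    refine measurable_pi_lambda _ fun z => ?_
    exact measurable_pi_apply (z + v)
  map_eq := by
    have := Measure.map_infinitePi_infinitePi_of_inj (P := fun _ : V => ρ)
      (f := fun z : V => z + v) (add_left_injective v)
    exact this

/-- Full support on cylinders. -/
def Full (ρ : Measure (ℕ → E)) : Prop :=
  ∀ (w : ℕ → E) (n : ℕ), 0 < ρ {a | ∀ i < n, a i = w i}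

/-- A nonempty finite-window property has positive probability. -/
theorem WO.pos {P : (V → ℕ → E) → Prop} (hP : WO P) (hρ : Full ρ) {ξ₀ : V → ℕ → E}
    (h₀ : P ξ₀) : 0 < mu V ρ {ξ | P ξ} := by
  classical
  obtain ⟨F, hF⟩ := hP ξ₀ h₀
  set Z : Finset V := F.image Prod.fst with hZ
  set M : ℕ := F.sup Prod.snd + 1 with hM
  have hsub : Set.pi (Z : Set V) (fun z => {a : ℕ → E | ∀ i < M, a i = ξ₀ z i}) ⊆ {ξ | P ξ} := by
    intro ξ hξ
    refine hF ξ fun p hp => ?_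
    have h1 : p.1 ∈ (Z : Set V) := Finset.mem_coe.2 (Finset.mem_image_of_mem _ hp)
    have h2 := hξ p.1 h1
    refine h2 p.2 ?_
    have : p.2 ≤ F.sup Prod.snd := Finset.le_sup (f := Prod.snd) hp
    omega
  refine lt_of_lt_of_le ?_ (measure_mono hsub)
  rw [mu, Measure.infinitePi_pi]
  · refine pos_iff_ne_zero.2 (Finset.prod_ne_zero_iff.2 fun z _ => ?_)
    exact (hρ (ξ₀ z) M).ne'
  · intro z _
    have : {a : ℕ → E | ∀ i < M, a i = ξ₀ z i} = ⋂ i ∈ Finset.range M, (fun a => a i) ⁻¹' {ξ₀ z i} := by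
      ext a; simp
    rw [this]
    exact Finset.measurableSet_biInter _ fun i _ =>
      (measurable_pi_apply i) (MeasurableSet.of_discrete)

end Pool.H543.ERW
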