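import Mathlib
import Pool.Agent.H543R3.Meas

set_option autoImplicit false
set_option linter.unusedSectionVars false

/-!
Excursions in a half-space started from a list of points, and the surgery lemma.
-/

namespace Pool.H543.ERW

open MeasureTheory ProbabilityTheory Set

variable {V E : Type} [AddCommGroup V] [DecidableEq V] (g : Geo V E)

/-- An excursion in `H` from `y`, with counts `c`, confined to distance `< r` from `y`, which
leaves `H` at step `n`, at the point `w`, with counts `c1`. -/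
def Exc (ξ : V → ℕ → E) (H : Set V) (r : ℕ) (y : V) (c : V → ℕ) (n : ℕ) (w : V) (c1 : V → ℕ) :
    Prop :=
  (∀ i < n, (ev g ξ (y, c) i).1 ∈ H ∧ g.N ((ev g ξ (y, c) i).1 - y) < r) ∧
    ev g ξ (y, c) n = (w, c1) ∧ w ∉ H

/-- Successive excursions with prescribed starting points and exit points. -/
def Run (ξ : V → ℕ → E) (H : Set V) (r : ℕ) : List (V × V) → (V → ℕ) → (V → ℕ) → Prop
  | [], c, c' => c' = c
  | p :: l, c, c' => ∃ n c1, Exc g ξ H r p.1 c n p.2 c1 ∧ Run ξ H r l c1 c'

/-- The walk from `y` with counts `c` reaches distance `R` from `y` before leaving `H`. -/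
def Far (ξ : V → ℕ → E) (H : Set V) (R : ℕ) (y : V) (c : V → ℕ) : Prop :=
  ∃ n, (∀ i ≤ n, (ev g ξ (y, c) i).1 ∈ H) ∧ R ≤ g.N ((ev g ξ (y, c) n).1 - y)

lemma WO_Exc (H : Set V) (r : ℕ) (y : V) (c : V → ℕ) (n : ℕ) (w : V) (c1 : V → ℕ) :
    WO (fun ξ : V → ℕ → E => Exc g ξ H r y c n w c1) := by
  refine WO_ev g (y, c) n (fun f => (∀ i < n, (f i).1 ∈ H ∧ g.N ((f i).1 - y) < r) ∧
    f n = (w, c1) ∧ w ∉ H) ?_
  rintro f f' hff ⟨h1, h2, h3⟩
  refine ⟨fun i hi => ?_, ?_, h3⟩
  · rw [← hff i hi.le]; exact h1 i hi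
  · rw [← hff n le_rfl]; exact h2

lemma WO_Run (H : Set V) (r : ℕ) (p : List (V × V)) : ∀ (c c' : V → ℕ),
    WO (fun ξ : V → ℕ → E => Run g ξ H r p c c') := by
  induction p with
  | nil => intro c c'; exact WO.const _
  | cons q p ih =>
    intro c c'
    exact WO.ex fun n => WO.ex fun c1 => (WO_Exc g H r q.1 c n q.2 c1).and (ih c1 c')

lemma WO_Far (H : Set V) (R : ℕ) (y : V) (c : V → ℕ) :
    WO (fun ξ : V → ℕ → E => Far g ξ H R y c) := by
  refine WO.ex fun n => ?_
  refine WO_ev g (y, c) n (fun f => (∀ i ≤ n, (f i).1 ∈ H) ∧ R ≤ g.N ((f n).1 - y)) ?_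
  rintro f f' hff ⟨h1, h2⟩
  refine ⟨fun i hi => ?_, ?_⟩
  · rw [← hff i hi]; exact h1 i hi
  · rw [← hff n le_rfl]; exact h2

lemma Exc_det {ξ : V → ℕ → E} {H : Set V} {r : ℕ} {y : V} {c : V → ℕ} {n n' : ℕ} {w w' : V}
    {c1 c1' : V → ℕ} (h : Exc g ξ H r y c n w c1) (h' : Exc g ξ H r y c n' w' c1') :
    w = w' ∧ c1 = c1' := by
  obtain ⟨h1, h2, h3⟩ := h
  obtain ⟨h1', h2', h3'⟩ := h'
  have hn : n = n' := by
    rcases lt_trichotomy n n' with hlt | heq | hlt
    · exact absurd (h1' n hlt).1 (by rw [h2]; exact h3)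
    · exact heq
    · exact absurd (h1 n' hlt).1 (by rw [h2']; exact h3')
  subst hn
  rw [h2] at h2'
  exact ⟨congrArg Prod.fst h2', congrArg Prod.snd h2'⟩

lemma Run_det {ξ : V → ℕ → E} {H : Set V} {r : ℕ} : ∀ (p p' : List (V × V)) (c c1 c2 : V → ℕ),
    Run g ξ H r p c c1 → Run g ξ H r p' c c2 → p.map Prod.fst = p'.map Prod.fst →
    p = p' ∧ c1 = c2 := by
  intro p
  induction p with
  | nil =>
    intro p' c c1 c2 h h' hm
    cases p' with
    | nil => exact ⟨rfl, by rw [Run] at h h'; rw [h, h']⟩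
    | cons q p' => simp at hm
  | cons q p ih =>
    intro p' c c1 c2 h h' hm
    cases p' with
    | nil => simp at hm
    | cons q' p' =>
      simp only [List.map_cons, List.cons.injEq] at hm
      obtain ⟨n, d, hE, hR⟩ := h
      obtain ⟨n', d', hE', hR'⟩ := h'
      rw [← hm.1] at hE'
      obtain ⟨e1, e2⟩ := Exc_det g hE hE'
      subst e2
      obtain ⟨e3, e4⟩ := ih p' d c1 c2 hR hR' hm.2
      refine ⟨?_, e4⟩
      rw [e3]
      congr 1
      exact Prod.ext hm.1 e1

lemma Run_append {ξ : V → ℕ → E} {H : Set V} {r : ℕ} : ∀ (p : List (V × V)) (q : V × V)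
    (c c1 c2 : V → ℕ) (n : ℕ), Run g ξ H r p c c1 → Exc g ξ H r q.1 c1 n q.2 c2 →
    Run g ξ H r (p ++ [q]) c c2 := by
  intro p
  induction p with
  | nil =>
    intro q c c1 c2 n h h'
    rw [Run] at h
    subst h
    exact ⟨n, c2, h', rfl⟩
  | cons a p ih =>
    intro q c c1 c2 n h h'
    obtain ⟨m, d, hE, hR⟩ := h
    exact ⟨m, d, hE, ih q d c1 c2 n hR h'⟩

/-! ### Following prescribed directions -/

/-- State after the directions `δ`. -/
def fs : List E → V × (V → ℕ) → V × (V → ℕ)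
  | [], s => s
  | e :: δ, s => fs δ (s.1 + g.u e, Function.update s.2 s.1 (s.2 s.1 + 1))

/-- The field `ξ` prescribes the directions `δ` from the state `s`. -/
def Fol (ξ : V → ℕ → E) : List E → V × (V → ℕ) → Prop
  | [], _ => True
  | e :: δ, s => ξ s.1 (s.2 s.1) = e ∧
      Fol ξ δ (s.1 + g.u e, Function.update s.2 s.1 (s.2 s.1 + 1))

lemma fs_fst : ∀ (δ : List E) (s : V × (V → ℕ)), (fs g δ s).1 = s.1 + (δ.map g.u).sum := by
  intro δ
  induction δ with
  | nil => intro s; simp [fs]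
  | cons e δ ih => intro s; rw [fs, ih]; simp [add_assoc]

lemma Fol_ev {ξ : V → ℕ → E} : ∀ (δ : List E) (s : V × (V → ℕ)), Fol g ξ δ s →
    ev g ξ s δ.length = fs g δ s ∧
      ∀ i ≤ δ.length, (ev g ξ s i).1 = s.1 + ((δ.take i).map g.u).sum := by
  intro δ
  induction δ with
  | nil =>
    intro s _
    refine ⟨rfl, fun i hi => ?_⟩
    have : i = 0 := by simpa using hi
    subst this; simp
  | cons e δ ih =>
    intro s h
    obtain ⟨h1, h2⟩ := h
    have hs : stp g ξ s = (s.1 + g.u e, Function.update s.2 s.1 (s.2 s.1 + 1)) := by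
      simp only [stp, h1]
    obtain ⟨h3, h4⟩ := ih _ h2
    refine ⟨?_, ?_⟩
    · rw [List.length_cons, ev_succ', hs, h3]; rfl
    · intro i hi
      cases i with
      | zero => simp
      | succ i =>
        rw [ev_succ', hs, h4 i (by simpa using hi)]
        simp [add_assoc]

lemma Fol_congr {ξ ξ' : V → ℕ → E} {S : Set V} (hξ : ∀ z ∈ S, ξ z = ξ' z) :
    ∀ (δ : List E) (x : V) (c c' : V → ℕ), (∀ z ∈ S, c z = c' z) →
    (∀ i < δ.length, x + ((δ.take i).map g.u).sum ∈ S) → Fol g ξ δ (x, c) →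
    Fol g ξ' δ (x, c') ∧ (∀ z ∈ S, (fs g δ (x, c)).2 z = (fs g δ (x, c')).2 z) ∧
      (∀ z ∉ S, (fs g δ (x, c')).2 z = c' z) := by
  intro δ
  induction δ with
  | nil => intro x c c' hc _ _; exact ⟨trivial, fun z hz => hc z hz, fun _ _ => rfl⟩
  | cons e δ ih =>
    intro x c c' hc hS h
    obtain ⟨h1, h2⟩ := h
    have hx : x ∈ S := by
      have := hS 0 (by simp)
      simpa using this
    have hc2 : ∀ z ∈ S, Function.update c x (c x + 1) z = Function.update c' x (c' x + 1) z := by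
      intro z hz
      by_cases hzx : z = x
      · subst hzx; simp [hc z hz]
      · simp [Function.update_of_ne hzx, hc z hz]
    obtain ⟨h3, h4, h5⟩ := ih (x + g.u e) _ _ hc2 (by
      intro i hi
      have := hS (i + 1) (by simpa using hi)
      simpa [add_assoc] using this) h2
    refine ⟨⟨?_, h3⟩, h4, ?_⟩
    · simp only at h1 ⊢
      rw [← hξ x hx, ← hc x hx]; exact h1
    · intro z hz
      have hzx : z ≠ x := fun h => hz (h ▸ hx)
      have := h5 z hz
      simp only [fs]
      rw [this, Function.update_of_ne hzx]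

lemma WO_Fol : ∀ (δ : List E) (s : V × (V → ℕ)), WO (fun ξ : V → ℕ → E => Fol g ξ δ s) := by
  intro δ
  induction δ with
  | nil => intro s; exact WO.const _
  | cons e δ ih =>
    intro s
    refine WO.and ?_ (ih _)
    intro ξ h
    exact ⟨{(s.1, s.2 s.1)}, fun ξ' h' => by
      have := h' (s.1, s.2 s.1) (by simp)
      simp only at this
      show ξ' s.1 (s.2 s.1) = e
      rw [this]; exact h⟩

/-- Several prescribed segments. -/
def FolAll (ξ : V → ℕ → E) : List (V × List E) → (V → ℕ) → Prop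
  | [], _ => True
  | q :: M, c => Fol g ξ q.2 (q.1, c) ∧ FolAll ξ M (fs g q.2 (q.1, c)).2

lemma WO_FolAll : ∀ (M : List (V × List E)) (c : V → ℕ),
    WO (fun ξ : V → ℕ → E => FolAll g ξ M c) := by
  intro M
  induction M with
  | nil => intro c; exact WO.const _
  | cons q M ih => intro c; exact (WO_Fol g _ _).and (ih _)

lemma FolAll_exists : ∀ (M : List (V × List E)) (c : V → ℕ) (η : V → ℕ → E),
    ∃ ξ : V → ℕ → E, (∀ z i, i < c z → ξ z i = η z i) ∧ FolAll g ξ M c := by
  intro M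
  induction M with
  | nil => intro c η; exact ⟨η, fun _ _ _ => rfl, trivial⟩
  | cons q M ihM =>
    obtain ⟨x, δ⟩ := q
    intro c η
    suffices H : ∀ (δ : List E) (s : V × (V → ℕ)) (η : V → ℕ → E),
        ∃ ξ : V → ℕ → E, (∀ z i, i < s.2 z → ξ z i = η z i) ∧ Fol g ξ δ s ∧
          FolAll g ξ M (fs g δ s).2 from H δ (x, c) η
    intro δ
    induction δ with
    | nil =>
      intro s η
      obtain ⟨ξ, h1, h2⟩ := ihM s.2 η
      exact ⟨ξ, h1, trivial, h2⟩
    | cons e δ ih =>
      intro s η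
      obtain ⟨ξ, h1, h2, h3⟩ := ih (s.1 + g.u e, Function.update s.2 s.1 (s.2 s.1 + 1))
        (Function.update η s.1 (Function.update (η s.1) (s.2 s.1) e))
      refine ⟨ξ, ?_, ⟨?_, h2⟩, h3⟩
      · intro z i hi
        by_cases hz : z = s.1
        · subst hz
          rw [h1 s.1 i (by simp; omega)]
          simp only [Function.update_self]
          rw [Function.update_of_ne (by omega)]
        · rw [h1 z i (by simp [Function.update_of_ne hz]; exact hi)]
          rw [Function.update_of_ne hz]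
      · rw [h1 s.1 (s.2 s.1) (by simp)]
        simp

lemma FolAll_congr {ξ ξ' : V → ℕ → E} {S : Set V} (hξ : ∀ z ∈ S, ξ z = ξ' z) :
    ∀ (M : List (V × List E)) (c : V → ℕ),
    (∀ q ∈ M, ∀ i < q.2.length, q.1 + ((q.2.take i).map g.u).sum ∈ S) → FolAll g ξ M c →
    FolAll g ξ' M c := by
  intro M
  induction M with
  | nil => intro c _ _; trivial
  | cons q M ih =>
    intro c hS h
    obtain ⟨h1, h2⟩ := h
    have := Fol_congr g hξ q.2 q.1 c c (fun _ _ => rfl) (hS q (by simp)) h1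
    exact ⟨this.1, ih _ (fun q' hq' => hS q' (by simp [hq'])) h2⟩

/-- A list of directions from `w` to `y`, all departure points being at level `-1`. -/
def IsTr (w y : V) (T : List E) : Prop :=
  w + (T.map g.u).sum = y ∧ ∀ i < T.length, g.L (w + ((T.take i).map g.u).sum) = -1

lemma L_sum_zero : ∀ (δ : List E), (∀ e ∈ δ, g.L (g.u e) = 0) → g.L ((δ.map g.u).sum) = 0 := by
  intro δ
  induction δ with
  | nil => intro _; simp
  | cons e δ ih =>
    intro h
    rw [List.map_cons, List.sum_cons, map_add, h e (by simp), ih (fun e he => h e (by simp [he]))]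
    simp

lemma exists_IsTr {w y : V} (hw : g.L w = -1) (hy : g.L y = 0) : ∃ T, IsTr g w y T := by
  obtain ⟨δ, h1, h2⟩ := g.travel (y - g.u g.up - w) (by
    rw [map_sub, map_sub, g.L_up, hy, hw]; norm_num)
  refine ⟨δ ++ [g.up], ?_, ?_⟩
  · rw [List.map_append, List.sum_append, h2]
    simp only [List.map_cons, List.map_nil, List.sum_cons, List.sum_nil, add_zero]
    abel
  · intro i hi
    have hi' : i ≤ δ.length := by simpa [Nat.lt_succ_iff] using hi
    rw [List.take_append_of_le_length hi', map_add, hw,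
      L_sum_zero g _ (fun e he => h1 e (List.mem_of_mem_take he))]
    norm_num

/-- the next starting point -/
def nextStart (p : List (V × V)) (y : V) : V := (p.map Prod.fst ++ [y]).headD 0

/-- `M` is a list of travel segments for the excursions `p` followed by `y`. -/
def Mtch (y : V) : List (V × V) → List (V × List E) → Prop
  | [], M => M = []
  | q :: p, M => ∃ T M', M = (q.2, T) :: M' ∧ IsTr g q.2 (nextStart p y) T ∧ Mtch y p M'

lemma exists_Mtch {y : V} (hy : g.L y = 0) : ∀ (p : List (V × V)),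
    (∀ q ∈ p, g.L q.1 = 0 ∧ g.L q.2 = -1) → ∃ M, Mtch g y p M := by
  intro p
  induction p with
  | nil => intro _; exact ⟨[], rfl⟩
  | cons q p ih =>
    intro h
    obtain ⟨M, hM⟩ := ih (fun q' hq' => h q' (by simp [hq']))
    have hn : g.L (nextStart p y) = 0 := by
      cases p with
      | nil => simpa [nextStart] using hy
      | cons q' p => simpa [nextStart] using (h q' (by simp)).1
    obtain ⟨T, hT⟩ := exists_IsTr g (h q (by simp)).2 hn
    exact ⟨_, T, M, rfl, hT, hM⟩

lemma Mtch_level {y : V} : ∀ (p : List (V × V)) (M : List (V × List E)), Mtch g y p M →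
    ∀ q ∈ M, ∀ i < q.2.length, g.L (q.1 + ((q.2.take i).map g.u).sum) = -1 := by
  intro p
  induction p with
  | nil => intro M hM; rw [Mtch] at hM; subst hM; simp
  | cons a p ih =>
    intro M hM
    obtain ⟨T, M', rfl, h1, h2⟩ := hM
    intro q hq
    rcases List.mem_cons.1 hq with rfl | hq
    · exact h1.2
    · exact ih M' h2 q hq

/-- the upper half-space -/
def Hf (k : ℤ) : Set V := {z | k ≤ g.L z}

lemma exc_exit {ξ : V → ℕ → E} {r : ℕ} {y : V} {c : V → ℕ} {n : ℕ} {w : V} {c1 : V → ℕ}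
    {k : ℤ} (hy : k ≤ g.L y) (h : Exc g ξ (Hf g k) r y c n w c1) : g.L w = k - 1 := by
  obtain ⟨h1, h2, h3⟩ := h
  cases n with
  | zero =>
    exfalso; apply h3
    have : y = w := congrArg Prod.fst h2
    rw [← this]; exact hy
  | succ n =>
    have h4 := (h1 n (by omega)).1
    have h5 := L_step_ev g ξ (y, c) n
    rw [h2] at h5
    have h6 : ¬ k ≤ g.L w := h3
    have h7 : k ≤ g.L (ev g ξ (y, c) n).1 := h4
    rw [abs_le] at h5
    simp only at h5
    omega

/-- never below level `-1` and unbounded -/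
def Good (ξ : V → ℕ → E) (s : V × (V → ℕ)) : Prop :=
  (∀ n, -1 ≤ g.L (ev g ξ s n).1) ∧ ∀ R, ∃ n, R ≤ g.N (ev g ξ s n).1

lemma Good.shift {ξ : V → ℕ → E} {s : V × (V → ℕ)} (m : ℕ)
    (h1 : ∀ i < m, -1 ≤ g.L (ev g ξ s i).1) (h2 : Good g ξ (ev g ξ s m)) : Good g ξ s := by
  refine ⟨fun n => ?_, fun R => ?_⟩
  · rcases Nat.lt_or_ge n m with h | h
    · exact h1 n h
    · have := h2.1 (n - m)
      rw [← ev_add] at this
      rwa [show m + (n - m) = n by omega] at this
  · obtain ⟨n, hn⟩ := h2.2 R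
    exact ⟨m + n, by rw [ev_add]; exact hn⟩

/-- merge counts in the upper half-space with counts outside -/
def mrg (c cO : V → ℕ) : V → ℕ := fun z => if 0 ≤ g.L z then c z else cO z

lemma Far_all {ξ : V → ℕ → E} {H : Set V} {y : V} {c : V → ℕ} (h : ∀ R, Far g ξ H R y c) :
    (∀ n, (ev g ξ (y, c) n).1 ∈ H) ∧ ∀ R, ∃ n, R ≤ g.N ((ev g ξ (y, c) n).1 - y) := by
  refine ⟨fun n => ?_, fun R => ?_⟩
  · obtain ⟨m, h1, h2⟩ := h (n + 1)
    have := N_ev_le g ξ y c m
    exact h1 n (by omega)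
  · obtain ⟨m, h1, h2⟩ := h R
    exact ⟨m, h2⟩

theorem surg_aux {ξ : V → ℕ → E} {r : ℕ} {y : V} : ∀ (p : List (V × V))
    (c c_end cO : V → ℕ) (M : List (V × List E)), (∀ q ∈ p, g.L q.1 = 0) →
    Run g ξ (Hf g 0) r p c c_end → (∀ R, Far g ξ (Hf g 0) R y c_end) → Mtch g y p M →
    FolAll g ξ M cO → Good g ξ (nextStart p y, mrg g c cO) := by
  intro p
  induction p with
  | nil =>
    intro c c_end cO M _ hR hF _ _
    rw [Run] at hR
    subst hR
    obtain ⟨h1, h2⟩ := Far_all g hF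
    have hloc := fun n => loc g (ξ := ξ) (ξ' := ξ) (S := Hf g 0) (fun _ _ => rfl) (y := y)
      (c := c_end) (c' := mrg g c_end cO) (by
        intro z hz
        have hz' : 0 ≤ g.L z := hz
        simp [mrg, hz']) n (fun i _ => h1 i) n le_rfl
    have hns : nextStart ([] : List (V × V)) y = y := rfl
    rw [hns]
    refine ⟨fun n => ?_, fun R => ?_⟩
    · rw [(hloc n).1]
      have : 0 ≤ g.L (ev g ξ (y, c_end) n).1 := h1 n
      omega
    · obtain ⟨n, hn⟩ := h2 (R + g.N y)
      refine ⟨n, ?_⟩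
      rw [(hloc n).1]
      have h3 := g.N_add (ev g ξ (y, c_end) n).1 (-y)
      rw [g.N_neg, ← sub_eq_add_neg] at h3
      omega
  | cons q p ih =>
    intro c c_end cO M hL hR hF hM hA
    obtain ⟨T, M', rfl, hT, hM'⟩ := hM
    obtain ⟨n, c1, hE, hR'⟩ := hR
    obtain ⟨hA1, hA2⟩ := hA
    have hq : g.L q.1 = 0 := hL q (by simp)
    have hw := exc_exit g (k := 0) (by rw [hq]) hE
    obtain ⟨hE1, hE2, hE3⟩ := hE
    have hns : nextStart (q :: p) y = q.1 := rfl
    rw [hns]
    -- the excursion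
    have hloc := loc g (ξ := ξ) (ξ' := ξ) (S := Hf g 0) (fun _ _ => rfl) (y := q.1)
      (c := c) (c' := mrg g c cO) (by
        intro z hz
        have hz' : 0 ≤ g.L z := hz
        simp [mrg, hz']) n (fun i hi => (hE1 i hi).1)
    have hst : ev g ξ (q.1, mrg g c cO) n = (q.2, mrg g c1 cO) := by
      obtain ⟨h1, h2, h3⟩ := hloc n le_rfl
      rw [hE2] at h1 h2
      refine Prod.ext h1 ?_
      funext z
      by_cases hz : 0 ≤ g.L z
      · rw [h2 z hz]; simp [mrg, hz]
      · rw [h3 z hz]; simp [mrg, hz]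
    refine Good.shift g n ?_ ?_
    · intro i hi
      rw [(hloc i hi.le).1]
      have : 0 ≤ g.L (ev g ξ (q.1, c) i).1 := (hE1 i hi).1
      omega
    rw [hst]
    -- the travel
    have hcong := Fol_congr g (ξ := ξ) (ξ' := ξ) (S := (Hf g 0)ᶜ) (fun _ _ => rfl) T q.2 cO
      (mrg g c1 cO) (by
        intro z hz
        have hz' : ¬ 0 ≤ g.L z := hz
        simp [mrg, hz']) (by
        intro i hi
        have := hT.2 i hi
        show ¬ (0 ≤ g.L _)
        rw [this]; norm_num) hA1
    obtain ⟨hf1, hf2, hf3⟩ := hcong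
    obtain ⟨he1, he2⟩ := Fol_ev g T _ hf1
    refine Good.shift g T.length ?_ ?_
    · intro i hi
      rw [he2 i hi.le, hT.2 i hi]
    rw [he1]
    have hfs : fs g T (q.2, mrg g c1 cO) = (nextStart p y, mrg g c1 (fs g T (q.2, cO)).2) := by
      refine Prod.ext ?_ ?_
      · rw [fs_fst]; exact hT.1
      · funext z
        by_cases hz : 0 ≤ g.L z
        · have : z ∉ (Hf g 0)ᶜ := fun h => h hz
          rw [hf3 z this]; simp [mrg, hz]
        · have : z ∈ (Hf g 0)ᶜ := hz
          rw [← hf2 z this]; simp [mrg, hz]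
    rw [hfs]
    exact ih c1 c_end _ M' (fun q' hq' => hL q' (by simp [hq'])) hR' hF hM' hA2

end Pool.H543.ERW
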