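import Mathlib
import Pool.Agent.H543R3.Surg

set_option autoImplicit false
set_option linter.unusedSectionVars false

/-!
If the walk a.s. does not stay above its starting level with unbounded range, the same holds for
the walk restarted from any finite list of points of the boundary of a half-space.
-/

namespace Pool.H543.ERW

open MeasureTheory ProbabilityTheory Set

variable {V E : Type} [AddCommGroup V] [DecidableEq V] (g : Geo V E)

lemma Exc_congr {ξ ξ' : V → ℕ → E} {H S : Set V} {r : ℕ} (hξ : ∀ z ∈ S, ξ z = ξ' z) {y : V}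
    {c c' : V → ℕ} {n : ℕ} {w : V} {c1 : V → ℕ} (hS : ∀ x ∈ H, g.N (x - y) < r → x ∈ S)
    (hc : ∀ z ∈ S, c z = c' z) (h : Exc g ξ H r y c n w c1) :
    ∃ c1', Exc g ξ' H r y c' n w c1' ∧ ∀ z ∈ S, c1 z = c1' z := by
  obtain ⟨h1, h2, h3⟩ := h
  have hl := loc g hξ hc n (fun i hi => hS _ (h1 i hi).1 (h1 i hi).2)
  refine ⟨(ev g ξ' (y, c') n).2, ⟨?_, ?_, h3⟩, ?_⟩
  · intro i hi
    rw [(hl i hi.le).1]; exact h1 i hi
  · have := (hl n le_rfl).1
    rw [h2] at this
    exact Prod.ext this rfl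
  · intro z hz
    have := (hl n le_rfl).2.1 z hz
    rw [h2] at this
    exact this.symm

lemma Exc_far {ξ : V → ℕ → E} {H S : Set V} {r : ℕ} {y : V}
    {c : V → ℕ} {n : ℕ} {w : V} {c1 : V → ℕ} (hS : ∀ x ∈ H, g.N (x - y) < r → x ∉ S)
    (h : Exc g ξ H r y c n w c1) : ∀ z ∈ S, c1 z = c z := by
  obtain ⟨h1, h2, h3⟩ := h
  intro z hz
  have := cnt_unvisited g ξ (y, c) n z (fun i hi heq => hS _ (h1 i hi).1 (h1 i hi).2 (heq ▸ hz))
  rw [h2] at this
  exact this

lemma Run_sub {ξ ξ' : V → ℕ → E} {H S : Set V} {r : ℕ} (hξ : ∀ z ∈ S, ξ z = ξ' z)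
    (P : V → Prop) [DecidablePred P] : ∀ (p : List (V × V)) (c c' c1 : V → ℕ),
    (∀ q ∈ p, P q.1 → ∀ x ∈ H, g.N (x - q.1) < r → x ∈ S) →
    (∀ q ∈ p, ¬ P q.1 → ∀ x ∈ H, g.N (x - q.1) < r → x ∉ S) →
    (∀ z ∈ S, c z = c' z) → Run g ξ H r p c c1 →
    ∃ c1', Run g ξ' H r (p.filter (fun q => P q.1)) c' c1' ∧ ∀ z ∈ S, c1 z = c1' z := by
  intro p
  induction p with
  | nil =>
    intro c c' c1 _ _ hc h
    rw [Run] at h
    subst h
    exact ⟨c', rfl, hc⟩
  | cons q p ih =>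
    intro c c' c1 hP hnP hc h
    obtain ⟨n, d, hE, hR⟩ := h
    by_cases hq : P q.1
    · obtain ⟨d', hE', hd⟩ := Exc_congr g hξ (hP q (by simp) hq) hc hE
      obtain ⟨c1', h1, h2⟩ := ih d d' c1 (fun q' hq' => hP q' (by simp [hq']))
        (fun q' hq' => hnP q' (by simp [hq'])) hd hR
      refine ⟨c1', ?_, h2⟩
      rw [List.filter_cons_of_pos (by simpa using hq)]
      exact ⟨n, d', hE', h1⟩
    · have hd := Exc_far g (hnP q (by simp) hq) hE
      obtain ⟨c1', h1, h2⟩ := ih d c' c1 (fun q' hq' => hP q' (by simp [hq']))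
        (fun q' hq' => hnP q' (by simp [hq'])) (fun z hz => (hd z hz).trans (hc z hz)) hR
      refine ⟨c1', ?_, h2⟩
      rw [List.filter_cons_of_neg (by simpa using hq)]
      exact h1

lemma Run_congr {ξ ξ' : V → ℕ → E} {H S : Set V} {r : ℕ} (hξ : ∀ z ∈ S, ξ z = ξ' z)
    {p : List (V × V)} {c c' c1 : V → ℕ}
    (hP : ∀ q ∈ p, ∀ x ∈ H, g.N (x - q.1) < r → x ∈ S)
    (hc : ∀ z ∈ S, c z = c' z) (h : Run g ξ H r p c c1) :
    ∃ c1', Run g ξ' H r p c' c1' ∧ ∀ z ∈ S, c1 z = c1' z := by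
  have := Run_sub g hξ (fun _ => True) p c c' c1 (fun q hq _ => hP q hq)
    (fun q hq h => absurd trivial h) hc h
  simpa using this

lemma Far_congr {ξ ξ' : V → ℕ → E} {H S : Set V} (hξ : ∀ z ∈ S, ξ z = ξ' z) {y : V}
    {c c' : V → ℕ} {R R' : ℕ} (hR : R ≤ R') (hS : ∀ x ∈ H, g.N (x - y) < R → x ∈ S)
    (hc : ∀ z ∈ S, c z = c' z) (h : Far g ξ H R' y c) : Far g ξ' H R y c' := by
  classical
  obtain ⟨n, h1, h2⟩ := h
  have hex : ∃ m, R ≤ g.N ((ev g ξ (y, c) m).1 - y) := ⟨n, hR.trans h2⟩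
  set m := Nat.find hex with hm
  have hm1 : R ≤ g.N ((ev g ξ (y, c) m).1 - y) := Nat.find_spec hex
  have hmn : m ≤ n := Nat.find_min' hex (hR.trans h2)
  have hl := loc g hξ hc m (fun i hi => hS _ (h1 i (by omega))
    (not_le.1 (Nat.find_min hex hi)))
  refine ⟨m, fun i hi => ?_, ?_⟩
  · rw [(hl i hi).1]; exact h1 i (by omega)
  · rw [(hl m le_rfl).1]; exact hm1

/-- The walk from the origin never goes below level `0` and is unbounded. -/
def Q0 : Set (V → ℕ → E) := {ξ | (∀ n, 0 ≤ g.L (W g ξ n)) ∧ ∀ R, ∃ n, R ≤ g.N (W g ξ n)}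

variable [Countable V] [Finite E] [MeasurableSpace E] [DiscreteMeasurableSpace E]

lemma meas_Q0 : MeasurableSet (Q0 g) := by
  have : Q0 g = (⋂ n, {ξ : V → ℕ → E | 0 ≤ g.L (W g ξ n)}) ∩
      ⋂ R : ℕ, ⋃ n, {ξ : V → ℕ → E | R ≤ g.N (W g ξ n)} := by
    ext ξ; simp [Q0]
  rw [this]
  refine (MeasurableSet.iInter fun n => ?_).inter (MeasurableSet.iInter fun R =>
    MeasurableSet.iUnion fun n => ?_)
  · exact (WO_ev g (0, 0) n (fun f => 0 ≤ g.L (f n).1) (by
      intro f f' hff h; rw [← hff n le_rfl]; exact h)).meas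
  · exact (WO_ev g (0, 0) n (fun f => R ≤ g.N (f n).1) (by
      intro f f' hff h; rw [← hff n le_rfl]; exact h)).meas

variable (ρ : Measure (ℕ → E)) [IsProbabilityMeasure ρ]

theorem lemZ (hρ : Full ρ) (hq : mu V ρ (Q0 g) = 0) (r : ℕ) {y : V} (hy : g.L y = 0)
    (l : List V) (hl : ∀ z ∈ l, g.L z = 0) :
    mu V ρ {ξ | ∃ p c, p.map Prod.fst = l ∧ Run g ξ (Hf g 0) r p 0 c ∧
      ∀ R, Far g ξ (Hf g 0) R y c} = 0 := by
  have hsub : {ξ : V → ℕ → E | ∃ p c, p.map Prod.fst = l ∧ Run g ξ (Hf g 0) r p 0 c ∧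
      ∀ R, Far g ξ (Hf g 0) R y c} ⊆
      ⋃ p : List (V × V), {ξ : V → ℕ → E | p.map Prod.fst = l ∧
        ∃ c, Run g ξ (Hf g 0) r p 0 c ∧ ∀ R, Far g ξ (Hf g 0) R y c} := by
    rintro ξ ⟨p, c, h1, h2, h3⟩
    exact mem_iUnion.2 ⟨p, h1, c, h2, h3⟩
  refine measure_mono_null hsub (measure_iUnion_null fun p => ?_)
  by_cases hp : p.map Prod.fst = l
  swap
  · have : {ξ : V → ℕ → E | p.map Prod.fst = l ∧
        ∃ c, Run g ξ (Hf g 0) r p 0 c ∧ ∀ R, Far g ξ (Hf g 0) R y c} = ∅ := by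
      ext ξ; simp [hp]
    rw [this]; simp
  have hpL : ∀ q ∈ p, g.L q.1 = 0 := fun q hq =>
    hl q.1 (by rw [← hp]; exact List.mem_map_of_mem hq)
  set Ev : Set (V → ℕ → E) := {ξ | ∃ c, Run g ξ (Hf g 0) r p 0 c ∧
    ∀ R, Far g ξ (Hf g 0) R y c} with hEv
  have hEv' : {ξ : V → ℕ → E | p.map Prod.fst = l ∧
        ∃ c, Run g ξ (Hf g 0) r p 0 c ∧ ∀ R, Far g ξ (Hf g 0) R y c} = Ev := by
    ext ξ; simp [hp, hEv]
  rw [hEv']
  by_contra hne
  -- measurability and dependence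
  have hEvm : MeasurableSet Ev := by
    have : Ev = ⋂ R, {ξ : V → ℕ → E | ∃ c, Run g ξ (Hf g 0) r p 0 c ∧
        Far g ξ (Hf g 0) R y c} := by
      ext ξ
      simp only [hEv, mem_setOf_eq, mem_iInter]
      constructor
      · rintro ⟨c, h1, h2⟩ R
        exact ⟨c, h1, h2 R⟩
      · intro h
        obtain ⟨c, h1, h2⟩ := h 0
        refine ⟨c, h1, fun R => ?_⟩
        obtain ⟨c', h1', h2'⟩ := h R
        rw [(Run_det g p p 0 c c' h1 h1' rfl).2]
        exact h2'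
    rw [this]
    exact MeasurableSet.iInter fun R =>
      (WO.ex fun c => (WO_Run g (Hf g 0) r p 0 c).and (WO_Far g (Hf g 0) R y c)).meas
  have hEvd : Dep Ev (Hf g 0) := by
    rintro ξ ξ' h ⟨c, h1, h2⟩
    obtain ⟨c', h3, h4⟩ := Run_congr g h (S := Hf g 0) (fun q _ x hx _ => hx)
      (fun _ _ => rfl) h1
    exact ⟨c', h3, fun R => Far_congr g h le_rfl (fun x hx _ => hx) h4 (h2 R)⟩
  obtain ⟨ξ₁, hξ₁⟩ : Ev.Nonempty := nonempty_of_measure_ne_zero hne
  have hexit : ∀ q ∈ p, g.L q.1 = 0 ∧ g.L q.2 = -1 := by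
    obtain ⟨c, h1, -⟩ := hξ₁
    clear hp hEv' hEvm hEvd hne hEv
    revert h1
    generalize (0 : V → ℕ) = c0
    intro h1
    clear Ev
    induction p generalizing c0 with
    | nil => simp
    | cons a p ih =>
      obtain ⟨n, c1, hE, hR⟩ := h1
      intro q hq
      rcases List.mem_cons.1 hq with rfl | hq
      · have := exc_exit g (k := 0) (by rw [hpL q (by simp)]) hE
        exact ⟨hpL q (by simp), by omega⟩
      · exact ih (fun q hq => hpL q (by simp [hq])) c1 hR q hq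
  obtain ⟨M, hM⟩ := exists_Mtch g hy p hexit
  have hns : g.L (nextStart p y) = 0 := by
    cases p with
    | nil => simpa [nextStart] using hy
    | cons q' p => simpa [nextStart] using hpL q' (by simp)
  set x' : V := nextStart p y - g.u g.up with hx'
  have hLx' : g.L x' = -1 := by rw [hx', map_sub, hns, g.L_up]; norm_num
  set D : Set (V → ℕ → E) := {ξ | FolAll g ξ ((x', [g.up]) :: M) 0} with hD
  have hDm : MeasurableSet D := (WO_FolAll g ((x', [g.up]) :: M) 0).meas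
  have hDd : Dep D (Hf g 0)ᶜ := by
    intro ξ ξ' h hξ
    refine FolAll_congr g h _ 0 ?_ hξ
    intro q hq i hi
    have : g.L (q.1 + ((q.2.take i).map g.u).sum) = -1 := by
      rcases List.mem_cons.1 hq with rfl | hq
      · have : i = 0 := by simpa using hi
        subst this; simpa using hLx'
      · exact Mtch_level g p M hM q hq i hi
    show ¬ (0 ≤ g.L _)
    rw [this]; norm_num
  have hDpos : 0 < mu V ρ D := by
    haveI : Nonempty (V → ℕ → E) := (mu V ρ).nonempty_of_neZero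
    obtain ⟨ξ₂, -, h2⟩ := FolAll_exists g ((x', [g.up]) :: M) 0 (Classical.arbitrary _)
    exact (WO_FolAll g ((x', [g.up]) :: M) 0).pos ρ hρ h2
  have hprod := indep_dep ρ hEvm hDm hEvd hDd disjoint_compl_right
  have hpos : mu V ρ (Ev ∩ D) ≠ 0 := by
    rw [hprod]; exact mul_ne_zero hne hDpos.ne'
  -- containment
  have hcont : Ev ∩ D ⊆ tr x' ⁻¹' (Q0 g) := by
    rintro ξ ⟨⟨c, h1, h2⟩, h3⟩
    obtain ⟨h4, h5⟩ := h3
    have hg := surg_aux g p 0 c _ M hpL h1 h2 hM h5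
    have hs : ev g ξ (x', 0) 1 = (nextStart p y, mrg g 0 (fs g [g.up] (x', 0)).2) := by
      have := (Fol_ev g [g.up] (x', 0) h4).1
      simp only [List.length_cons, List.length_nil, zero_add] at this
      rw [this]
      refine Prod.ext ?_ ?_
      · simp [fs, hx']
      · funext z
        by_cases hz : 0 ≤ g.L z
        · have hzx : z ≠ x' := by rintro rfl; rw [hLx'] at hz; norm_num at hz
          simp [mrg, hz, fs, Function.update_of_ne hzx]
        · simp [mrg, hz]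
    have hgood : Good g ξ (x', 0) := by
      refine Good.shift g 1 ?_ (by rw [hs]; exact hg)
      intro i hi
      have : i = 0 := by omega
      subst this
      simp [hLx']
    have htr := fun n => ev_tr g x' ξ 0 0 n
    have hW : ∀ n, W g (tr x' ξ) n = (ev g ξ (x', 0) n).1 - x' := by
      intro n
      have := congrArg Prod.fst (htr n)
      simp only [zero_add] at this
      exact this
    refine ⟨fun n => ?_, fun R => ?_⟩
    · rw [hW n, map_sub, hLx']
      have := hgood.1 n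
      omega
    · obtain ⟨n, hn⟩ := hgood.2 (R + g.N x')
      refine ⟨n, ?_⟩
      rw [hW n]
      have := g.N_add ((ev g ξ (x', 0) n).1 - x') x'
      rw [sub_add_cancel] at this
      omega
  apply hpos
  refine measure_mono_null hcont ?_
  rw [(mp_tr ρ x').measure_preimage (meas_Q0 g).nullMeasurableSet]
  exact hq

end Pool.H543.ERW
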