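import Mathlib
import Pool.Agent.H543R3.Zero

set_option autoImplicit false
set_option linter.unusedSectionVars false

/-!
Bad local configurations near a point of the boundary of a half-space.
-/

namespace Pool.H543.ERW

open MeasureTheory ProbabilityTheory Set Filter

variable {V E : Type} [AddCommGroup V] [DecidableEq V] (g : Geo V E)

/-- There are at most `K` successive excursions above the level of `y'`, confined to distance
`< r` and started within distance `D` of `y'`, after which the excursion from some further point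
within distance `D` of `y'` reaches distance `R`. -/
def Bad (ξ : V → ℕ → E) (K r R D : ℕ) (y' : V) : Prop :=
  ∃ (p : List (V × V)) (y : V) (c : V → ℕ), p.length ≤ K ∧
    (∀ q ∈ p, g.N (q.1 - y') ≤ D ∧ g.L q.1 = g.L y') ∧ g.N (y - y') ≤ D ∧ g.L y = g.L y' ∧
    Run g ξ (Hf g (g.L y')) r p 0 c ∧ Far g ξ (Hf g (g.L y')) R y c

lemma WO_Bad (K r R D : ℕ) (y' : V) : WO (fun ξ : V → ℕ → E => Bad g ξ K r R D y') := by
  refine WO.ex fun p => WO.ex fun y => WO.ex fun c => ?_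
  refine (WO.const _).and ((WO.const _).and ((WO.const _).and ((WO.const _).and ?_)))
  exact (WO_Run g _ r p 0 c).and (WO_Far g _ R y c)

lemma Dep_Bad {K r R D : ℕ} (hr : r ≤ R) (y' : V) :
    Dep {ξ : V → ℕ → E | Bad g ξ K r R D y'} {z | g.L y' ≤ g.L z ∧ g.N (z - y') ≤ D + R} := by
  rintro ξ ξ' h ⟨p, y, c, h1, h2, h3, h4, h5, h6⟩
  obtain ⟨c', h7, h8⟩ := Run_congr g h (c' := 0) (by
    intro q hq x hx hxr
    refine ⟨hx, ?_⟩
    have := N_tri g x q.1 y'
    have := (h2 q hq).1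
    omega) (fun _ _ => rfl) h5
  refine ⟨p, y, c', h1, h2, h3, h4, h7, ?_⟩
  refine Far_congr g h le_rfl ?_ h8 h6
  intro x hx hxr
  refine ⟨hx, ?_⟩
  have := N_tri g x y y'
  omega

lemma Exc_tr (v : V) {ξ : V → ℕ → E} {k : ℤ} {r : ℕ} {y : V} {c : V → ℕ} {n : ℕ} {w : V}
    {c1 : V → ℕ} (h : Exc g ξ (Hf g k) r y c n w c1) :
    Exc g (tr v ξ) (Hf g (k - g.L v)) r (y - v) (fun z => c (z + v)) n (w - v)
      (fun z => c1 (z + v)) := by
  obtain ⟨h1, h2, h3⟩ := h
  have ht : ∀ i, ev g (tr v ξ) (y - v, fun z => c (z + v)) i =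
      ((ev g ξ (y, c) i).1 - v, fun z => (ev g ξ (y, c) i).2 (z + v)) := by
    intro i
    have := ev_tr g v ξ (y - v) c i
    rwa [sub_add_cancel] at this
  refine ⟨fun i hi => ?_, ?_, ?_⟩
  · rw [ht i]
    obtain ⟨h4, h5⟩ := h1 i hi
    refine ⟨?_, ?_⟩
    · have h4' : k ≤ g.L (ev g ξ (y, c) i).1 := h4
      show k - g.L v ≤ g.L ((ev g ξ (y, c) i).1 - v)
      rw [map_sub]; omega
    · rwa [show (ev g ξ (y, c) i).1 - v - (y - v) = (ev g ξ (y, c) i).1 - y by abel]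
  · rw [ht n, h2]
  · intro h4
    apply h3
    have h4' : k - g.L v ≤ g.L (w - v) := h4
    rw [map_sub] at h4'
    show k ≤ g.L w
    omega

lemma Run_tr (v : V) {ξ : V → ℕ → E} {k : ℤ} {r : ℕ} : ∀ (p : List (V × V)) (c c1 : V → ℕ),
    Run g ξ (Hf g k) r p c c1 →
    Run g (tr v ξ) (Hf g (k - g.L v)) r (p.map fun q => (q.1 - v, q.2 - v))
      (fun z => c (z + v)) (fun z => c1 (z + v)) := by
  intro p
  induction p with
  | nil => intro c c1 h; rw [Run] at h; subst h; rfl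
  | cons q p ih =>
    intro c c1 h
    obtain ⟨n, d, hE, hR⟩ := h
    exact ⟨n, fun z => d (z + v), Exc_tr g v hE, ih d c1 hR⟩

lemma Far_tr (v : V) {ξ : V → ℕ → E} {k : ℤ} {R : ℕ} {y : V} {c : V → ℕ}
    (h : Far g ξ (Hf g k) R y c) :
    Far g (tr v ξ) (Hf g (k - g.L v)) R (y - v) (fun z => c (z + v)) := by
  obtain ⟨n, h1, h2⟩ := h
  have ht : ∀ i, ev g (tr v ξ) (y - v, fun z => c (z + v)) i =
      ((ev g ξ (y, c) i).1 - v, fun z => (ev g ξ (y, c) i).2 (z + v)) := by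
    intro i
    have := ev_tr g v ξ (y - v) c i
    rwa [sub_add_cancel] at this
  refine ⟨n, fun i hi => ?_, ?_⟩
  · rw [ht i]
    have h4' : k ≤ g.L (ev g ξ (y, c) i).1 := h1 i hi
    show k - g.L v ≤ g.L ((ev g ξ (y, c) i).1 - v)
    rw [map_sub]; omega
  · rw [ht n]
    rwa [show (ev g ξ (y, c) n).1 - v - (y - v) = (ev g ξ (y, c) n).1 - y by abel]

lemma Bad_tr {ξ : V → ℕ → E} {K r R D : ℕ} {y' : V} (h : Bad g ξ K r R D y') :
    Bad g (tr y' ξ) K r R D 0 := by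
  obtain ⟨p, y, c, h1, h2, h3, h4, h5, h6⟩ := h
  have h5' := Run_tr g y' p 0 c h5
  have h6' := Far_tr g y' h6
  rw [sub_self] at h5' h6'
  refine ⟨p.map fun q => (q.1 - y', q.2 - y'), y - y', fun z => c (z + y'), by simpa using h1,
    ?_, by simpa using h3, by simp [h4], ?_, ?_⟩
  · intro q hq
    rw [List.mem_map] at hq
    obtain ⟨q', hq', rfl⟩ := hq
    have := h2 q' hq'
    simp [this.1, this.2]
  · rw [map_zero]; exact h5'
  · rw [map_zero]; exact h6'

variable [Countable V] [Finite E] [MeasurableSpace E] [DiscreteMeasurableSpace E]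
variable (ρ : Measure (ℕ → E)) [IsProbabilityMeasure ρ]

lemma Bad_meas_le (K r R D : ℕ) (y' : V) :
    mu V ρ {ξ | Bad g ξ K r R D y'} ≤ mu V ρ {ξ | Bad g ξ K r R D 0} := by
  rw [← (mp_tr ρ y').measure_preimage (WO_Bad g K r R D 0).meas.nullMeasurableSet]
  exact measure_mono fun ξ h => Bad_tr g h

/-- The bad event for a given list of starting points. -/
def BadL (r R : ℕ) (l : List V) (y : V) : Set (V → ℕ → E) :=
  {ξ | ∃ p c, p.map Prod.fst = l ∧ Run g ξ (Hf g 0) r p 0 c ∧ Far g ξ (Hf g 0) R y c}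

lemma BadL_tendsto (hρ : Full ρ) (hq : mu V ρ (Q0 g) = 0) (r : ℕ) {y : V} (hy : g.L y = 0)
    (l : List V) (hl : ∀ z ∈ l, g.L z = 0) :
    Tendsto (fun R => mu V ρ (BadL g r R l y)) atTop (nhds 0) := by
  have h0 := lemZ g ρ hρ hq r hy l hl
  have hcap : (⋂ R, BadL g r R l y) = {ξ | ∃ p c, p.map Prod.fst = l ∧
      Run g ξ (Hf g 0) r p 0 c ∧ ∀ R, Far g ξ (Hf g 0) R y c} := by
    ext ξ
    simp only [BadL, mem_iInter]
    constructor
    · intro h
      obtain ⟨p, c, h1, h2, h3⟩ := h 0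
      refine ⟨p, c, h1, h2, fun R => ?_⟩
      obtain ⟨p', c', h1', h2', h3'⟩ := h R
      obtain ⟨e1, e2⟩ := Run_det g p p' 0 c c' h2 h2' (h1.trans h1'.symm)
      rw [e2]; exact h3'
    · rintro ⟨p, c, h1, h2, h3⟩ R
      exact ⟨p, c, h1, h2, h3 R⟩
  rw [← h0, ← hcap]
  refine tendsto_measure_iInter_atTop (fun R => ?_) ?_ ⟨0, measure_ne_top _ _⟩
  · refine MeasurableSet.nullMeasurableSet (WO.meas (P := fun ξ => ξ ∈ BadL g r R l y) ?_)
    exact WO.ex fun p => WO.ex fun c => (WO.const _).and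
      ((WO_Run g _ r p 0 c).and (WO_Far g _ R y c))
  · rintro R R' hRR ξ ⟨p, c, h1, h2, n, h3, h4⟩
    exact ⟨p, c, h1, h2, n, h3, le_trans (by exact_mod_cast hRR) h4⟩

lemma exists_Bad_le (hρ : Full ρ) (hq : mu V ρ (Q0 g) = 0) (K r D : ℕ) {ε : ENNReal}
    (hε : ε ≠ 0) : ∃ R, r ≤ R ∧ mu V ρ {ξ | Bad g ξ K r R D 0} ≤ ε := by
  classical
  set B : Finset V := (g.N_fin D).toFinset.filter (fun z => g.L z = 0) with hB
  have hfin : {l : List B | l.length ≤ K}.Finite := List.finite_length_le _ _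
  set T : Finset (List V × V) := (hfin.toFinset.image (fun l => l.map Subtype.val)) ×ˢ B with hT
  have hTlevel : ∀ t ∈ T, (∀ z ∈ t.1, g.L z = 0) ∧ g.L t.2 = 0 := by
    intro t ht
    rw [hT, Finset.mem_product, Finset.mem_image] at ht
    obtain ⟨⟨l, -, hl⟩, h2⟩ := ht
    refine ⟨?_, ?_⟩
    · intro z hz
      rw [← hl, List.mem_map] at hz
      obtain ⟨a, -, rfl⟩ := hz
      have hBz : ∀ z ∈ B, g.L z = 0 := by
        intro z hz
        rw [hB, Finset.mem_filter] at hz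
        exact hz.2
      exact hBz a.1 a.2
    · rw [hB, Finset.mem_filter] at h2
      exact h2.2
  have hev : ∀ᶠ R in atTop, ∀ t ∈ (T : Set (List V × V)),
      mu V ρ (BadL g r R t.1 t.2) ≤ ε / (T.card + 1 : ℕ) := by
    rw [Filter.eventually_all_finite T.finite_toSet]
    intro t ht
    obtain ⟨h1, h2⟩ := hTlevel t ht
    have := BadL_tendsto g ρ hρ hq r h2 t.1 h1
    refine this.eventually_le_const ?_
    exact ENNReal.div_pos hε (ENNReal.natCast_ne_top _)
  obtain ⟨R, hR1, hR2⟩ := (hev.and (eventually_ge_atTop r)).exists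
  refine ⟨R, hR2, ?_⟩
  have hsub : {ξ : V → ℕ → E | Bad g ξ K r R D 0} ⊆ ⋃ t ∈ T, BadL g r R t.1 t.2 := by
    rintro ξ ⟨p, y, c, h1, h2, h3, h4, h5, h6⟩
    rw [map_zero] at h5 h6
    simp only [mem_iUnion]
    have hmB : ∀ z : V, g.N (z - 0) ≤ D → g.L z = g.L 0 → z ∈ B := by
      intro z hz hz'
      rw [hB, Finset.mem_filter, Set.Finite.mem_toFinset]
      exact ⟨by simpa using hz, by rw [hz', map_zero]⟩
    have hall : ∀ z ∈ p.map Prod.fst, z ∈ B := by
      intro z hz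
      rw [List.mem_map] at hz
      obtain ⟨q, hq, rfl⟩ := hz
      exact hmB q.1 (h2 q hq).1 (h2 q hq).2
    refine ⟨(p.map Prod.fst, y), ?_, p, c, rfl, h5, h6⟩
    rw [hT, Finset.mem_product, Finset.mem_image]
    refine ⟨⟨(p.map Prod.fst).attach.map (fun z => ⟨z.1, hall z.1 z.2⟩), ?_, ?_⟩,
      hmB y h3 h4⟩
    · rw [Set.Finite.mem_toFinset]
      simpa using h1
    · simp [List.map_map, Function.comp_def]
  refine (measure_mono hsub).trans ((measure_biUnion_finset_le T _).trans ?_)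
  calc ∑ t ∈ T, mu V ρ (BadL g r R t.1 t.2) ≤ ∑ t ∈ T, ε / (T.card + 1 : ℕ) :=
        Finset.sum_le_sum fun t ht => hR1 t ht
    _ = T.card * (ε / (T.card + 1 : ℕ)) := by rw [Finset.sum_const, nsmul_eq_mul]
    _ ≤ (T.card + 1 : ℕ) * (ε / (T.card + 1 : ℕ)) := by gcongr; omega
    _ ≤ ε := ENNReal.mul_div_le

end Pool.H543.ERW
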