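import Mathlib
import Pool.Agent.H543R3.BadEv

set_option autoImplicit false
set_option linter.unusedSectionVars false

/-!
Entrance points of the walk into the half-space above level `k`.
-/

namespace Pool.H543.ERW

open MeasureTheory ProbabilityTheory Set Filter

variable {V E : Type} [AddCommGroup V] [DecidableEq V] (g : Geo V E)

/-- the list of entrance points into `Hf k` up to time `n` -/
def ents (ξ : V → ℕ → E) (k : ℤ) : ℕ → List V
  | 0 => []
  | n + 1 => if k ≤ g.L (W g ξ (n + 1)) ∧ ¬ k ≤ g.L (W g ξ n) then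
      ents ξ k n ++ [W g ξ (n + 1)] else ents ξ k n

/-- `n` is an entrance time -/
def Ent (ξ : V → ℕ → E) (k : ℤ) (n : ℕ) : Prop :=
  ∃ m, n = m + 1 ∧ k ≤ g.L (W g ξ (m + 1)) ∧ ¬ k ≤ g.L (W g ξ m)

lemma ents_congr {ξ ξ' : V → ℕ → E} {k : ℤ} {n : ℕ} (h : ∀ i ≤ n, W g ξ i = W g ξ' i) :
    ents g ξ k n = ents g ξ' k n := by
  induction n with
  | zero => rfl
  | succ n ih =>
    rw [ents, ents, ih (fun i hi => h i (by omega)), h (n + 1) le_rfl, h n (by omega)]

lemma Ent_congr {ξ ξ' : V → ℕ → E} {k : ℤ} {n : ℕ} (h : ∀ i ≤ n, W g ξ i = W g ξ' i)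
    (hE : Ent g ξ k n) : Ent g ξ' k n := by
  obtain ⟨m, rfl, h1, h2⟩ := hE
  exact ⟨m, rfl, by rw [← h (m + 1) le_rfl]; exact h1, by rw [← h m (by omega)]; exact h2⟩

lemma ents_prefix (ξ : V → ℕ → E) (k : ℤ) (j : ℕ) : ∀ i, ents g ξ k j <+: ents g ξ k (j + i) := by
  intro i
  induction i with
  | zero => exact List.prefix_rfl
  | succ i ih =>
    refine ih.trans ?_
    rw [show j + (i + 1) = (j + i) + 1 by omega, ents]
    split_ifs
    · exact List.prefix_append _ _
    · exact List.prefix_rfl

lemma ents_prefix' (ξ : V → ℕ → E) (k : ℤ) {j n : ℕ} (h : j ≤ n) :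
    ents g ξ k j <+: ents g ξ k n := by
  have := ents_prefix g ξ k j (n - j)
  rwa [show j + (n - j) = n by omega] at this

lemma Ent.ents_eq {ξ : V → ℕ → E} {k : ℤ} {n : ℕ} (h : Ent g ξ k n) :
    ents g ξ k n = ents g ξ k (n - 1) ++ [W g ξ n] := by
  obtain ⟨m, rfl, h1, h2⟩ := h
  rw [ents, if_pos ⟨h1, h2⟩]; rfl

lemma Ent.len_lt {ξ : V → ℕ → E} {k : ℤ} {n j : ℕ} (h : Ent g ξ k n) (hj : j < n) :
    (ents g ξ k j).length < (ents g ξ k n).length := by
  rw [Ent.ents_eq g h]
  have := (ents_prefix' g ξ k (j := j) (n := n - 1) (by omega)).length_le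
  simp; omega

lemma ents_level {ξ : V → ℕ → E} {k : ℤ} {n : ℕ} : ∀ z ∈ ents g ξ k n, g.L z = k := by
  induction n with
  | zero => intro z hz; simp [ents] at hz
  | succ n ih =>
    intro z hz
    rw [ents] at hz
    split_ifs at hz with h
    · rcases List.mem_append.1 hz with h1 | h1
      · exact ih z h1
      · rw [List.mem_singleton] at h1
        subst h1
        have := LW_step g ξ n
        rw [abs_le] at this
        omega
    · exact ih z hz

lemma ents_ne_nil {ξ : V → ℕ → E} {k : ℤ} (hk : 1 ≤ k) {n : ℕ} (h : k ≤ g.L (W g ξ n)) :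
    ents g ξ k n ≠ [] := by
  induction n with
  | zero => rw [W_zero, map_zero] at h; omega
  | succ n ih =>
    rw [ents]
    split_ifs with h1
    · simp
    · rw [not_and_or, not_not] at h1
      rcases h1 with h1 | h1
      · exact absurd h h1
      · exact ih h1

/-- the entrance time of the `i`-th entrance point -/
lemma exists_Ent {ξ : V → ℕ → E} {k : ℤ} : ∀ (n1 i : ℕ) (hi : i < (ents g ξ k n1).length),
    ∃ n ≤ n1, Ent g ξ k n ∧ (ents g ξ k n).length = i + 1 ∧ W g ξ n = (ents g ξ k n1)[i] := by
  intro n1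
  induction n1 with
  | zero => intro i hi; simp [ents] at hi
  | succ n ih =>
    intro i hi
    by_cases h : k ≤ g.L (W g ξ (n + 1)) ∧ ¬ k ≤ g.L (W g ξ n)
    · have he : ents g ξ k (n + 1) = ents g ξ k n ++ [W g ξ (n + 1)] := by rw [ents, if_pos h]
      by_cases hi2 : i < (ents g ξ k n).length
      · obtain ⟨m, hm1, hm2, hm3, hm4⟩ := ih i hi2
        refine ⟨m, by omega, hm2, hm3, ?_⟩
        rw [hm4]
        simp only [he]
        rw [List.getElem_append_left hi2]
      · have hlen : (ents g ξ k (n + 1)).length = (ents g ξ k n).length + 1 := by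
          rw [he]; simp
        have hi3 : i = (ents g ξ k n).length := by omega
        refine ⟨n + 1, le_rfl, ⟨n, rfl, h.1, h.2⟩, by omega, ?_⟩
        simp only [he, hi3]
        simp
    · have he : ents g ξ k (n + 1) = ents g ξ k n := by rw [ents, if_neg h]
      obtain ⟨m, hm1, hm2, hm3, hm4⟩ := ih i (by rw [he] at hi; exact hi)
      refine ⟨m, by omega, hm2, hm3, ?_⟩
      rw [hm4]
      simp only [he]

/-- The structure of the trace of the walk in the half-space. -/
theorem inv {ξ : V → ℕ → E} {k : ℤ} (hk : 1 ≤ k) {r : ℕ} (hr : 1 ≤ r) {K : ℕ} : ∀ (n : ℕ),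
    (∀ m ≤ n, k ≤ g.L (W g ξ m) → (ents g ξ k m).length ≤ K →
      g.N (W g ξ m - (ents g ξ k m).getLastD 0) < r) →
    (¬ k ≤ g.L (W g ξ n) → (ents g ξ k n).length ≤ K →
      ∃ p c, p.map Prod.fst = ents g ξ k n ∧ Run g ξ (Hf g k) r p 0 c ∧
        ∀ z ∈ Hf g k, C g ξ n z = c z) ∧
    (k ≤ g.L (W g ξ n) → (ents g ξ k n).length ≤ K + 1 →
      ∃ p y c m, ents g ξ k n = p.map Prod.fst ++ [y] ∧ Run g ξ (Hf g k) r p 0 c ∧
        (ev g ξ (y, c) m).1 = W g ξ n ∧ (∀ z ∈ Hf g k, (ev g ξ (y, c) m).2 z = C g ξ n z) ∧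
        (∀ i ≤ m, (ev g ξ (y, c) i).1 ∈ Hf g k) ∧
        ((ents g ξ k n).length ≤ K → ∀ i ≤ m, g.N ((ev g ξ (y, c) i).1 - y) < r)) := by
  intro n
  induction n with
  | zero =>
    intro _
    refine ⟨fun _ _ => ⟨[], 0, rfl, rfl, fun _ _ => rfl⟩, fun h => ?_⟩
    rw [W_zero, map_zero] at h; omega
  | succ n ih =>
    intro hNF
    obtain ⟨ih1, ih2⟩ := ih (fun m hm => hNF m (by omega))
    have hCn : ∀ z, z ≠ W g ξ n → C g ξ (n + 1) z = C g ξ n z := by
      intro z hz
      rw [C_succ, Function.update_of_ne hz]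
    constructor
    · intro hout hlen
      have he : ents g ξ k (n + 1) = ents g ξ k n := by
        rw [ents, if_neg]
        rintro ⟨h1, _⟩
        exact hout h1
      rw [he] at hlen ⊢
      by_cases hin : k ≤ g.L (W g ξ n)
      · obtain ⟨p, y, c, m, h1, h2, h3, h4, h5, h6⟩ := ih2 hin (by omega)
        have h7 := h6 hlen
        have hWin : W g ξ n ∈ Hf g k := hin
        have hstep : ev g ξ (y, c) (m + 1) = (W g ξ (n + 1), (ev g ξ (y, c) (m + 1)).2) := by
          refine Prod.ext ?_ rfl
          simp only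
          rw [ev_succ, W_succ]
          simp only [stp]
          rw [h3, h4 _ hWin]
        refine ⟨p ++ [(y, W g ξ (n + 1))], (ev g ξ (y, c) (m + 1)).2, ?_, ?_, ?_⟩
        · rw [h1]; simp
        · refine Run_append g p (y, W g ξ (n + 1)) 0 c _ (m + 1) h2 ⟨?_, hstep, hout⟩
          intro i hi
          exact ⟨h5 i (by omega), h7 i (by omega)⟩
        · intro z hz
          rw [ev_succ, C_succ]
          simp only [stp]
          rw [h3, h4 _ hWin]
          by_cases hzz : z = W g ξ n
          · subst hzz; simp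
          · rw [Function.update_of_ne hzz, Function.update_of_ne hzz, h4 z hz]
      · obtain ⟨p, c, h1, h2, h3⟩ := ih1 hin hlen
        refine ⟨p, c, h1, h2, fun z hz => ?_⟩
        rw [hCn z (by rintro rfl; exact hin hz)]
        exact h3 z hz
    · intro hin1 hlen
      by_cases hin : k ≤ g.L (W g ξ n)
      · have he : ents g ξ k (n + 1) = ents g ξ k n := by
          rw [ents, if_neg]
          rintro ⟨_, h1⟩
          exact h1 hin
        have hNFn := hNF (n + 1) le_rfl hin1
        rw [he] at hlen hNFn ⊢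
        obtain ⟨p, y, c, m, h1, h2, h3, h4, h5, h6⟩ := ih2 hin hlen
        have hWin : W g ξ n ∈ Hf g k := hin
        have hpos : (ev g ξ (y, c) (m + 1)).1 = W g ξ (n + 1) := by
          rw [ev_succ, W_succ]
          simp only [stp]
          rw [h3, h4 _ hWin]
        have hlast : (ents g ξ k n).getLastD 0 = y := by rw [h1]; simp
        refine ⟨p, y, c, m + 1, h1, h2, hpos, ?_, ?_, ?_⟩
        · intro z hz
          rw [ev_succ, C_succ]
          simp only [stp]
          rw [h3, h4 _ hWin]
          by_cases hzz : z = W g ξ n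
          · subst hzz; simp
          · rw [Function.update_of_ne hzz, Function.update_of_ne hzz, h4 z hz]
        · intro i hi
          rcases Nat.lt_or_ge i (m + 1) with h | h
          · exact h5 i (by omega)
          · have : i = m + 1 := by omega
            subst this
            rw [hpos]; exact hin1
        · intro hl i hi
          rcases Nat.lt_or_ge i (m + 1) with h | h
          · exact h6 hl i (by omega)
          · have : i = m + 1 := by omega
            subst this
            rw [hpos]
            have := hNFn hl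
            rwa [hlast] at this
      · have he : ents g ξ k (n + 1) = ents g ξ k n ++ [W g ξ (n + 1)] := by
          rw [ents, if_pos ⟨hin1, hin⟩]
        rw [he] at hlen ⊢
        have hlen' : (ents g ξ k n).length ≤ K := by simpa using hlen
        obtain ⟨p, c, h1, h2, h3⟩ := ih1 hin hlen'
        refine ⟨p, W g ξ (n + 1), c, 0, by rw [h1], h2, rfl, ?_, ?_, ?_⟩
        · intro z hz
          rw [hCn z (by rintro rfl; exact hin hz)]
          exact (h3 z hz).symm
        · intro i hi
          have : i = 0 := by omega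
          subst this
          exact hin1
        · intro _ i hi
          have : i = 0 := by omega
          subst this
          simp only [ev_zero, sub_self, g.N_zero]
          omega

end Pool.H543.ERW
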