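import Mathlib
import Pool.Agent.H543R3.Ents

set_option autoImplicit false
set_option linter.unusedSectionVars false

/-!
The multi-scale argument: uniformly over the past, none of the first `K` excursions above a fresh
level goes far.
-/

namespace Pool.H543.ERW

open MeasureTheory ProbabilityTheory Set Filter

variable {V E : Type} [AddCommGroup V] [DecidableEq V] (g : Geo V E)

/-- One of the first `K` excursions in `Hf k` reaches distance `r` from its starting point. -/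
def FarEv (k : ℤ) (r K : ℕ) : Set (V → ℕ → E) :=
  {ξ | ∃ n, k ≤ g.L (W g ξ n) ∧ (ents g ξ k n).length ≤ K ∧
    r ≤ g.N (W g ξ n - (ents g ξ k n).getLastD 0)}

/-- pigeonhole over the annuli -/
lemma annulus (R : ℕ → ℕ) (hR : Monotone R) (l : List V) (K : ℕ) (hl : l.length ≤ K) (y : V) :
    ∃ s ≤ K, ∀ z ∈ l, ¬ (R s < g.N (z - y) ∧ g.N (z - y) ≤ R (s + 1)) := by
  classical
  by_contra hcon
  push Not at hcon
  have hch : ∀ s : Fin (K + 1), ∃ z ∈ l, R s < g.N (z - y) ∧ g.N (z - y) ≤ R (s + 1) :=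
    fun s => hcon s (by omega)
  choose f hf1 hf2 hf3 using hch
  have hinj : Function.Injective f := by
    intro s t hst
    by_contra hne
    have h1 := hf2 s
    have h2 := hf3 s
    have h3 := hf2 t
    have h4 := hf3 t
    rw [hst] at h1 h2
    rcases lt_or_gt_of_ne (fun h => hne (Fin.ext h) : (s : ℕ) ≠ t) with h | h
    · have := hR (show (s : ℕ) + 1 ≤ t by omega)
      omega
    · have := hR (show (t : ℕ) + 1 ≤ s by omega)
      omega
  have hcard : (Finset.univ : Finset (Fin (K + 1))).card ≤ l.toFinset.card := by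
    refine Finset.card_le_card_of_injOn f (fun s _ => ?_) (hinj.injOn)
    simpa using hf1 s
  have h2 := l.toFinset_card_le
  simp at hcard
  omega

/-- the event that `n` is the entrance time number `i+1`, the walk being so far away from its
past in the half-space -/
def AA (ξ₀ : V → ℕ → E) (n0 : ℕ) (k : ℤ) (i D : ℕ) (n : ℕ) : Set (V → ℕ → E) :=
  {ξ | ξ ∈ Cy g ξ₀ n0 ∧ Ent g ξ k n ∧ (ents g ξ k n).length = i + 1 ∧
    ∀ j < n, k ≤ g.L (W g ξ j) → D < g.N (W g ξ j - W g ξ n)}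

lemma incl {k : ℤ} (hk : 1 ≤ k) {r1 K : ℕ} (hr1 : 1 ≤ r1) (Rs P : ℕ → ℕ) (hmono : Monotone Rs)
    (hP : ∀ s, r1 ≤ P s) (hRs : ∀ s, 3 * Rs s + r1 + P s + 1 ≤ Rs (s + 1)) {rnew : ℕ}
    (hrnew : ∀ s ≤ K, P s ≤ rnew) (hr1n : r1 ≤ rnew) (ξ₀ : V → ℕ → E) (n0 : ℕ) :
    FarEv g k rnew (K + 1) ∩ Cy g ξ₀ n0 ⊆ (FarEv g k r1 K ∩ Cy g ξ₀ n0) ∪
      ⋃ i ∈ Finset.range (K + 1), ⋃ s ∈ Finset.range (K + 1),
        ({ξ | ∃ n, ξ ∈ AA g ξ₀ n0 k i (2 * Rs s + P s) n ∧
          Bad g ξ K r1 (P s) (2 * Rs s) (W g ξ n)} ∩ ⋃ n, AA g ξ₀ n0 k i (2 * Rs s + P s) n) := by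
  classical
  rintro ξ ⟨hfar, hCy⟩
  by_cases hcase : ξ ∈ FarEv g k r1 K
  · exact Or.inl ⟨hcase, hCy⟩
  right
  have hNF : ∀ m, k ≤ g.L (W g ξ m) → (ents g ξ k m).length ≤ K →
      g.N (W g ξ m - (ents g ξ k m).getLastD 0) < r1 := by
    intro m h1 h2
    by_contra h3
    exact hcase ⟨m, h1, h2, not_lt.1 h3⟩
  obtain ⟨n1, hn1, hlen1, hd1⟩ := hfar
  have hlenK : (ents g ξ k n1).length = K + 1 := by
    by_contra hne
    have := hNF n1 hn1 (by omega)
    omega
  obtain ⟨-, hinv⟩ := inv g hk hr1 (K := K) (ξ := ξ) n1 (fun m _ => hNF m)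
  obtain ⟨p, y, c, m, h1, h2, h3, h4, h5, -⟩ := hinv hn1 hlen1
  have hlast : (ents g ξ k n1).getLastD 0 = y := by rw [h1]; simp
  rw [hlast] at hd1
  have hplen : p.length = K := by
    have := congrArg List.length h1
    simp at this
    omega
  have hFar : Far g ξ (Hf g k) rnew y c := ⟨m, h5, by rw [h3]; exact hd1⟩
  obtain ⟨s, hsK, hs⟩ := annulus g Rs hmono (p.map Prod.fst) K (by simp [hplen]) y
  -- the first close point
  have hex : ∃ i, ∃ hi : i < (ents g ξ k n1).length, g.N ((ents g ξ k n1)[i] - y) ≤ Rs s := by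
    refine ⟨K, by omega, ?_⟩
    have : (ents g ξ k n1)[K]'(by omega) = y := by
      simp only [h1]
      rw [List.getElem_append_right (by simp [hplen])]
      simp [hplen]
    rw [this, sub_self, g.N_zero]
    omega
  set i := Nat.find hex with hi_def
  obtain ⟨hi, hiP⟩ := Nat.find_spec hex
  have himin : ∀ j < i, ∀ hj : j < (ents g ξ k n1).length,
      ¬ g.N ((ents g ξ k n1)[j] - y) ≤ Rs s := by
    intro j hj hj2 h
    exact Nat.find_min hex hj ⟨hj2, h⟩
  have hiK : i < K + 1 := by rw [← hlenK]; exact hi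
  obtain ⟨n, hn, hEnt, hEl, hEW⟩ := exists_Ent g (ξ := ξ) (k := k) n1 i hi
  have hlev : ∀ z ∈ ents g ξ k n1, g.L z = k := ents_level g
  have hWn : g.N (W g ξ n - y) ≤ Rs s := by rw [hEW]; exact hiP
  have hLWn : g.L (W g ξ n) = k := by rw [hEW]; exact hlev _ (List.getElem_mem hi)
  have hAA : ξ ∈ AA g ξ₀ n0 k i (2 * Rs s + P s) n := by
    refine ⟨hCy, hEnt, hEl, ?_⟩
    intro j hj hjk
    have hne := ents_ne_nil g hk hjk
    have hlt := Ent.len_lt g hEnt hj
    have hlenj : (ents g ξ k j).length ≤ K := by omega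
    have hd := hNF j hjk hlenj
    have hpos : 0 < (ents g ξ k j).length := List.length_pos_iff.2 hne
    set t := (ents g ξ k j).length - 1 with ht
    have htlt : t < (ents g ξ k n1).length := by omega
    have hlastj : (ents g ξ k j).getLastD 0 = (ents g ξ k n1)[t] := by
      have hpre := ents_prefix' g ξ k (j := j) (n := n1) (by omega)
      have e1 : (ents g ξ k j).getLastD 0 = (ents g ξ k j)[t]'(by omega) := by
        rw [List.getLastD_eq_getLast?, List.getLast?_eq_getElem?]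
        rw [List.getElem?_eq_getElem (by omega)]
        simp [ht]
      rw [e1]
      exact hpre.getElem (by omega)
    rw [hlastj] at hd
    have hnP := himin t (by omega) htlt
    have hmem : (ents g ξ k n1)[t] ∈ p.map Prod.fst := by
      simp only [h1]
      rw [List.getElem_append_left (by simp [hplen]; omega)]
      exact List.getElem_mem _
    have hann := hs _ hmem
    have hbig : Rs (s + 1) < g.N ((ents g ξ k n1)[t] - y) := by
      by_contra h
      exact hann ⟨not_le.1 hnP, not_lt.1 h⟩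
    have t1 := N_tri g ((ents g ξ k n1)[t]) (W g ξ j) y
    have t2 := N_tri g (W g ξ j) (W g ξ n) y
    rw [N_sub_comm g ((ents g ξ k n1)[t]) (W g ξ j)] at t1
    have := hRs s
    omega
  -- the bad event
  have hlist : ∀ q ∈ p, q.1 ∈ p.map Prod.fst := fun q hq => List.mem_map_of_mem hq
  have hmemall : ∀ q ∈ p, g.L q.1 = k := fun q hq =>
    hlev q.1 (by rw [h1]; exact List.mem_append_left _ (hlist q hq))
  have hyk : g.L y = k := hlev y (by rw [h1]; simp)
  set S : Set V := {x | ∃ z, (z = y ∨ (z ∈ p.map Prod.fst ∧ g.N (z - y) ≤ Rs s)) ∧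
    g.N (x - z) < P s} with hS
  obtain ⟨c', hR', hc'⟩ := Run_sub g (ξ := ξ) (ξ' := ξ) (S := S) (H := Hf g k) (r := r1)
    (fun _ _ => rfl) (fun z => g.N (z - y) ≤ Rs s) p 0 0 c
    (by
      intro q hq hqP x _ hx
      have := hP s
      exact ⟨q.1, Or.inr ⟨hlist q hq, hqP⟩, by omega⟩)
    (by
      rintro q hq hqP x _ hx ⟨z, hz, hzx⟩
      have hzy : g.N (z - y) ≤ Rs s := by
        rcases hz with rfl | hz
        · rw [sub_self, g.N_zero]; omega
        · exact hz.2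
      have hann := hs q.1 (hlist q hq)
      have hbig : Rs (s + 1) < g.N (q.1 - y) := by
        by_contra h
        exact hann ⟨not_le.1 hqP, not_lt.1 h⟩
      have t1 := N_tri g q.1 x y
      have t2 := N_tri g x z y
      rw [N_sub_comm g q.1 x] at t1
      have := hRs s
      omega)
    (fun _ _ => rfl) h2
  have hFar' : Far g ξ (Hf g k) (P s) y c' := by
    refine Far_congr g (S := S) (fun _ _ => rfl) (hrnew s hsK) ?_ hc' hFar
    intro x _ hx
    exact ⟨y, Or.inl rfl, hx⟩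
  have hBad : Bad g ξ K r1 (P s) (2 * Rs s) (W g ξ n) := by
    refine ⟨p.filter (fun q => g.N (q.1 - y) ≤ Rs s), y, c', ?_, ?_, ?_, ?_, ?_, ?_⟩
    · exact (List.length_filter_le _ _).trans hplen.le
    · intro q hq
      rw [List.mem_filter] at hq
      obtain ⟨hq1, hq2⟩ := hq
      have hq2' : g.N (q.1 - y) ≤ Rs s := by simpa using hq2
      refine ⟨?_, by rw [hmemall q hq1, hLWn]⟩
      have t1 := N_tri g q.1 y (W g ξ n)
      rw [N_sub_comm g y (W g ξ n)] at t1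
      omega
    · rw [N_sub_comm g y (W g ξ n)]; omega
    · rw [hyk, hLWn]
    · rw [hLWn]; exact hR'
    · rw [hLWn]; exact hFar'
  simp only [mem_iUnion]
  refine ⟨i, Finset.mem_range.2 hiK, s, Finset.mem_range.2 (by omega), ?_, ?_⟩
  · exact ⟨n, hAA, hBad⟩
  · exact mem_iUnion.2 ⟨n, hAA⟩

variable [Countable V] [Finite E] [MeasurableSpace E] [DiscreteMeasurableSpace E]
variable (ρ : Measure (ℕ → E)) [IsProbabilityMeasure ρ]

lemma AA_step {ξ₀ : V → ℕ → E} {n0 : ℕ} {k : ℤ} (hfresh : ∀ i < n0, g.L (W g ξ₀ i) < k)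
    {K r1 R D i : ℕ} (hr : r1 ≤ R) {ε : ENNReal}
    (hbad : mu V ρ {ξ | Bad g ξ K r1 R D 0} ≤ ε) :
    mu V ρ ({ξ | ∃ n, ξ ∈ AA g ξ₀ n0 k i (D + R) n ∧ Bad g ξ K r1 R D (W g ξ n)} ∩
      ⋃ n, AA g ξ₀ n0 k i (D + R) n) ≤ ε * mu V ρ (Cy g ξ₀ n0) := by
  have hdisj : ∀ n n' (ξ : V → ℕ → E), ξ ∈ AA g ξ₀ n0 k i (D + R) n →
      ξ ∈ AA g ξ₀ n0 k i (D + R) n' → n = n' := by
    rintro n n' ξ ⟨-, h2, h3, -⟩ ⟨-, h2', h3', -⟩
    rcases lt_trichotomy n n' with h | h | h
    · have := Ent.len_lt g h2' h; omega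
    · exact h
    · have := Ent.len_lt g h2 h; omega
  have hAA : ∀ n, ∀ ξ₁ ∈ AA g ξ₀ n0 k i (D + R) n, Cy g ξ₁ n ⊆ AA g ξ₀ n0 k i (D + R) n := by
    rintro n ξ₁ ⟨h1, h2, h3, h4⟩ ξ hξ
    have hn : n0 ≤ n := by
      by_contra hlt
      obtain ⟨m, rfl, h5, -⟩ := h2
      have := hfresh (m + 1) (by omega)
      rw [← h1 (m + 1) (by omega)] at this
      omega
    have hW : ∀ i ≤ n, W g ξ₁ i = W g ξ i := fun i hi => (hξ i hi).symm
    refine ⟨fun j hj => ?_, Ent_congr g hW h2, ?_, ?_⟩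
    · rw [hξ j (by omega), h1 j hj]
    · rw [← ents_congr g hW]; exact h3
    · intro j hj
      rw [hξ j (by omega), hξ n le_rfl]
      exact h4 j hj
  refine (T1 g ρ (AA g ξ₀ n0 k i (D + R)) hAA ?_ _ ε ?_).trans ?_
  · intro n n' hne
    rw [Function.onFun, Set.disjoint_left]
    intro ξ h h'
    exact hne (hdisj n n' ξ h h')
  · intro n ξ₁ hξ₁
    obtain ⟨h1, h2, h3, h4⟩ := id hξ₁
    have hLW : k ≤ g.L (W g ξ₁ n) := by
      obtain ⟨m, rfl, h5, -⟩ := h2
      exact h5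
    have hLWk : g.L (W g ξ₁ n) = k := by
      have := ents_level g (ξ := ξ₁) (k := k) (n := n) (W g ξ₁ n)
        (by rw [Ent.ents_eq g h2]; simp)
      exact this
    have hsub : {ξ | ∃ n, ξ ∈ AA g ξ₀ n0 k i (D + R) n ∧ Bad g ξ K r1 R D (W g ξ n)} ∩
        Cy g ξ₁ n ⊆ Cy g ξ₁ n ∩ {ξ | Bad g ξ K r1 R D (W g ξ₁ n)} := by
      rintro ξ ⟨⟨n', h5, h6⟩, h7⟩
      have := hdisj n' n ξ h5 (hAA n ξ₁ hξ₁ h7)
      subst this
      refine ⟨h7, ?_⟩
      rw [h7 n' le_rfl] at h6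
      exact h6
    refine (measure_mono hsub).trans ?_
    rw [T2 g ρ ξ₁ n (WO_Bad g K r1 R D _).meas (Dep_Bad g hr (W g ξ₁ n)), mul_comm]
    · gcongr
      exact (Bad_meas_le g ρ K r1 R D (W g ξ₁ n)).trans hbad
    · rintro j hj ⟨h8, h9⟩
      rw [hLWk] at h8
      have := h4 j hj h8
      omega
  · gcongr
    exact iUnion_subset fun n ξ hξ => hξ.1

theorem CK (hρ : Full ρ) (hq : mu V ρ (Q0 g) = 0) (K : ℕ) : ∀ ε : ENNReal, ε ≠ 0 →
    ∃ r, 1 ≤ r ∧ ∀ (k : ℤ), 1 ≤ k → ∀ (n : ℕ) (ξ₀ : V → ℕ → E),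
      (∀ i < n, g.L (W g ξ₀ i) < k) →
      mu V ρ (FarEv g k r K ∩ Cy g ξ₀ n) ≤ ε * mu V ρ (Cy g ξ₀ n) := by
  induction K with
  | zero =>
    intro ε _
    refine ⟨1, le_rfl, fun k hk n ξ₀ _ => ?_⟩
    have : FarEv g k 1 0 = (∅ : Set (V → ℕ → E)) := by
      ext ξ
      simp only [FarEv, mem_empty_iff_false, iff_false]
      rintro ⟨m, h1, h2, -⟩
      exact ents_ne_nil g hk h1 (List.length_eq_zero_iff.1 (by omega))
    rw [this]; simp
  | succ K ih =>
    intro ε hε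
    obtain ⟨r1, hr1, hih⟩ := ih (ε / 2) (ENNReal.div_ne_zero.2 ⟨hε, by simp⟩)
    set ε'' : ENNReal := ε / 2 / ((K + 1) * (K + 1) : ℕ) with hε''
    have hε''0 : ε'' ≠ 0 := by
      rw [hε'']
      refine ENNReal.div_ne_zero.2 ⟨ENNReal.div_ne_zero.2 ⟨hε, by simp⟩, ?_⟩
      exact ENNReal.natCast_ne_top _
    have hex := fun D => exists_Bad_le g ρ hρ hq K r1 D hε''0
    choose f hf1 hf2 using hex
    set Rs : ℕ → ℕ := fun s => Nat.rec 0 (fun _ R => 3 * R + r1 + f (2 * R) + 1) s with hRs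
    have hRs1 : ∀ s, Rs (s + 1) = 3 * Rs s + r1 + f (2 * Rs s) + 1 := fun s => rfl
    have hmono : Monotone Rs := monotone_nat_of_le_succ fun s => by rw [hRs1]; omega
    set rnew := r1 + ∑ s ∈ Finset.range (K + 1), f (2 * Rs s) with hrn
    refine ⟨rnew, by omega, fun k hk n0 ξ₀ hfresh => ?_⟩
    have hincl := incl g hk hr1 (K := K) Rs (fun s => f (2 * Rs s)) hmono (fun s => hf1 _)
      (fun s => by rw [hRs1]) (rnew := rnew) (by
        intro s hs
        have := Finset.single_le_sum (f := fun s => f (2 * Rs s)) (fun i _ => Nat.zero_le _)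
          (Finset.mem_range.2 (show s < K + 1 by omega))
        omega) (by omega) ξ₀ n0
    refine (measure_mono hincl).trans ((measure_union_le _ _).trans ?_)
    have h1 := hih k hk n0 ξ₀ hfresh
    have h2 : mu V ρ (⋃ i ∈ Finset.range (K + 1), ⋃ s ∈ Finset.range (K + 1),
        ({ξ | ∃ n, ξ ∈ AA g ξ₀ n0 k i (2 * Rs s + f (2 * Rs s)) n ∧
          Bad g ξ K r1 (f (2 * Rs s)) (2 * Rs s) (W g ξ n)} ∩
            ⋃ n, AA g ξ₀ n0 k i (2 * Rs s + f (2 * Rs s)) n)) ≤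
        ε / 2 * mu V ρ (Cy g ξ₀ n0) := by
      refine (measure_biUnion_finset_le _ _).trans ?_
      calc _ ≤ ∑ i ∈ Finset.range (K + 1), ∑ s ∈ Finset.range (K + 1),
            ε'' * mu V ρ (Cy g ξ₀ n0) := by
            refine Finset.sum_le_sum fun i _ => (measure_biUnion_finset_le _ _).trans ?_
            refine Finset.sum_le_sum fun s _ => ?_
            exact AA_step g ρ hfresh (hf1 _) (hf2 _)
        _ = ((K + 1) * (K + 1) : ℕ) * ε'' * mu V ρ (Cy g ξ₀ n0) := by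
            simp only [Finset.sum_const, Finset.card_range, nsmul_eq_mul]
            push_cast
            ring
        _ ≤ ε / 2 * mu V ρ (Cy g ξ₀ n0) := by
            gcongr
            rw [hε'']
            exact ENNReal.mul_div_le
    calc _ ≤ ε / 2 * mu V ρ (Cy g ξ₀ n0) + ε / 2 * mu V ρ (Cy g ξ₀ n0) := add_le_add h1 h2
      _ = ε * mu V ρ (Cy g ξ₀ n0) := by rw [← add_mul, ENNReal.add_halves]

end Pool.H543.ERW
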