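import Mathlib
import Pool.Agent.H543R3.Cluster

set_option autoImplicit false
set_option linter.unusedSectionVars false

/-!
If the walk a.s. does not stay above its starting level with unbounded range, then it takes a
superlinear time to reach a high level.
-/

namespace Pool.H543.ERW

open MeasureTheory ProbabilityTheory Set Filter

variable {V E : Type} [AddCommGroup V] [DecidableEq V] (g : Geo V E)

/-- `n` is the first hitting time of level `k` -/
def FH (ξ : V → ℕ → E) (k : ℤ) (n : ℕ) : Prop :=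
  k ≤ g.L (W g ξ n) ∧ ∀ i < n, g.L (W g ξ i) < k

lemma exists_FH {ξ : V → ℕ → E} {k : ℤ} {n : ℕ} (h : k ≤ g.L (W g ξ n)) :
    ∃ n' ≤ n, FH g ξ k n' := by
  classical
  have hex : ∃ n, k ≤ g.L (W g ξ n) := ⟨n, h⟩
  exact ⟨Nat.find hex, Nat.find_min' hex h, Nat.find_spec hex,
    fun i hi => not_le.1 (Nat.find_min hex hi)⟩

lemma FH_unique {ξ : V → ℕ → E} {k : ℤ} {n n' : ℕ} (h : FH g ξ k n) (h' : FH g ξ k n') :
    n = n' := by
  rcases lt_trichotomy n n' with h1 | h1 | h1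
  · have := h'.2 n h1; have := h.1; omega
  · exact h1
  · have := h.2 n' h1; have := h'.1; omega

lemma FH_congr {ξ ξ' : V → ℕ → E} {k : ℤ} {n : ℕ} (h : ∀ i ≤ n, W g ξ i = W g ξ' i)
    (hF : FH g ξ k n) : FH g ξ' k n := by
  refine ⟨by rw [← h n le_rfl]; exact hF.1, fun i hi => ?_⟩
  rw [← h i hi.le]; exact hF.2 i hi

/-- At the first hitting time of `k + m` there were at most `K` entrances above level `k`. -/
def GB (m K : ℕ) (k : ℤ) : Set (V → ℕ → E) :=
  {ξ | ∃ n, FH g ξ (k + m) n ∧ (ents g ξ k n).length ≤ K}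

lemma GB_sub {m K : ℕ} {k : ℤ} (hk : 1 ≤ k) : GB g m K k ⊆ (FarEv g k m K : Set (V → ℕ → E)) := by
  rintro ξ ⟨n, h1, h2⟩
  have hkn : k ≤ g.L (W g ξ n) := by have := h1.1; omega
  refine ⟨n, hkn, h2, ?_⟩
  have hne := ents_ne_nil g hk hkn
  have hmem : (ents g ξ k n).getLastD 0 ∈ ents g ξ k n := by
    rw [List.getLastD_eq_getLast?, List.getLast?_eq_getLast_of_ne_nil hne]
    exact List.getLast_mem hne
  have hl := ents_level g _ hmem
  have h3 := g.L_le (W g ξ n - (ents g ξ k n).getLastD 0)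
  rw [map_sub, hl] at h3
  have h4 := le_abs_self (g.L (W g ξ n) - k)
  have := h1.1
  omega

lemma sum_ents (ξ : V → ℕ → E) (S : Finset ℤ) (n : ℕ) :
    ∑ k ∈ S, (ents g ξ k n).length ≤ n := by
  induction n with
  | zero => simp [ents]
  | succ n ih =>
    have h1 : ∀ k ∈ S, (ents g ξ k (n + 1)).length = (ents g ξ k n).length +
        (if k ≤ g.L (W g ξ (n + 1)) ∧ ¬ k ≤ g.L (W g ξ n) then 1 else 0) := by
      intro k _
      rw [ents]
      split_ifs <;> simp
    rw [Finset.sum_congr rfl h1, Finset.sum_add_distrib]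
    have h2 : ∑ k ∈ S, (if k ≤ g.L (W g ξ (n + 1)) ∧ ¬ k ≤ g.L (W g ξ n) then 1 else 0) ≤ 1 := by
      rw [Finset.sum_boole]
      simp only [Nat.cast_id]
      refine Finset.card_le_one.2 ?_
      intro a ha b hb
      rw [Finset.mem_filter] at ha hb
      have := LW_step g ξ n
      rw [abs_le] at this
      omega
    omega

variable [Countable V] [Finite E] [MeasurableSpace E] [DiscreteMeasurableSpace E]
variable (ρ : Measure (ℕ → E)) [IsProbabilityMeasure ρ]

lemma prod_GB {m K : ℕ} {ε : ENNReal}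
    (hε : ∀ (k : ℤ), 1 ≤ k → ∀ (n : ℕ) (ξ₀ : V → ℕ → E), (∀ i < n, g.L (W g ξ₀ i) < k) →
      mu V ρ (FarEv g k m K ∩ Cy g ξ₀ n) ≤ ε * mu V ρ (Cy g ξ₀ n)) (a : ℕ) (S : Finset ℕ) :
    mu V ρ (⋂ j ∈ S, GB g m K ((a + 1 + j * m : ℕ) : ℤ)) ≤ ε ^ S.card := by
  induction S using Finset.induction_on_max with
  | empty => simp
  | insert j S hmax ih =>
    have hj : j ∉ S := fun h => lt_irrefl _ (hmax j h)
    set B : Set (V → ℕ → E) := ⋂ j ∈ S, GB g m K ((a + 1 + j * m : ℕ) : ℤ) with hB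
    set k : ℤ := ((a + 1 + j * m : ℕ) : ℤ) with hk
    have hk1 : 1 ≤ k := by rw [hk]; omega
    rw [Finset.set_biInter_insert, Finset.card_insert_of_notMem hj]
    set A : ℕ → Set (V → ℕ → E) := fun n => {ξ | ξ ∈ B ∧ FH g ξ k n} with hA
    have hsub : GB g m K k ∩ B ⊆ GB g m K k ∩ ⋃ n, A n := by
      rintro ξ ⟨h1, h2⟩
      refine ⟨h1, ?_⟩
      obtain ⟨n, h3, h4⟩ := h1
      obtain ⟨n', -, h5⟩ := exists_FH g (ξ := ξ) (k := k) (n := n) (by have := h3.1; omega)
      exact mem_iUnion.2 ⟨n', h2, h5⟩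
    have hT := T1 g ρ A (by
      rintro n ξ₀ ⟨h1, h2⟩ ξ hξ
      have hW : ∀ i ≤ n, W g ξ₀ i = W g ξ i := fun i hi => (hξ i hi).symm
      refine ⟨?_, FH_congr g hW h2⟩
      rw [hB, mem_iInter₂] at h1 ⊢
      intro j' hj'
      obtain ⟨n', h3, h4⟩ := h1 j' hj'
      have hle : ((a + 1 + j' * m : ℕ) : ℤ) + m ≤ k := by
        have : j' + 1 ≤ j := hmax j' hj'
        have h5 : (j' + 1) * m ≤ j * m := Nat.mul_le_mul_right m this
        rw [add_mul, one_mul] at h5
        rw [hk]; omega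
      have hn' : n' ≤ n := by
        by_contra hlt
        have := h3.2 n (by omega)
        have := h2.1
        omega
      refine ⟨n', FH_congr g (fun i hi => hW i (by omega)) h3, ?_⟩
      rw [← ents_congr g (fun i hi => hW i (by omega))]
      exact h4) (by
      intro n n' hne
      rw [Function.onFun, Set.disjoint_left]
      rintro ξ ⟨-, h⟩ ⟨-, h'⟩
      exact hne (FH_unique g h h')) (GB g m K k) ε (by
      rintro n ξ₀ ⟨-, h2⟩
      refine (measure_mono (inter_subset_inter_left _ (GB_sub g hk1))).trans ?_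
      exact hε k hk1 n ξ₀ h2.2)
    calc mu V ρ (GB g m K k ∩ B) ≤ mu V ρ (GB g m K k ∩ ⋃ n, A n) := measure_mono hsub
      _ ≤ ε * mu V ρ (⋃ n, A n) := hT
      _ ≤ ε * mu V ρ B := by gcongr; exact iUnion_subset fun n ξ h => h.1
      _ ≤ ε * ε ^ S.card := by gcongr
      _ = ε ^ (S.card + 1) := by rw [pow_succ, mul_comm]

open Classical in
/-- more than half of the levels `a + 1 + j m`, `j < J`, are bad -/
noncomputable def CB (m K a J : ℕ) : Set (V → ℕ → E) :=
  {ξ | J < 2 * ((Finset.range J).filter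
    (fun j => ξ ∈ GB g m K ((a + 1 + j * m : ℕ) : ℤ))).card}

lemma CB_le {m K : ℕ}
    (hε : ∀ (k : ℤ), 1 ≤ k → ∀ (n : ℕ) (ξ₀ : V → ℕ → E), (∀ i < n, g.L (W g ξ₀ i) < k) →
      mu V ρ (FarEv g k m K ∩ Cy g ξ₀ n) ≤ (4⁻¹ ^ 2) * mu V ρ (Cy g ξ₀ n)) (a J : ℕ) :
    mu V ρ (CB g m K a J) ≤ 2⁻¹ ^ J := by
  classical
  have hsub : (CB g m K a J : Set (V → ℕ → E)) ⊆
      ⋃ S ∈ (Finset.range J).powerset.filter (fun S => J ≤ 2 * S.card),
      ⋂ j ∈ S, GB g m K ((a + 1 + j * m : ℕ) : ℤ) := by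
    intro ξ hξ
    simp only [mem_iUnion]
    have hξ' : J < 2 * ((Finset.range J).filter
      (fun j => ξ ∈ GB g m K ((a + 1 + j * m : ℕ) : ℤ))).card := by
      simpa only [CB, Set.mem_ofPred_eq] using hξ
    refine ⟨(Finset.range J).filter (fun j => ξ ∈ GB g m K ((a + 1 + j * m : ℕ) : ℤ)), ?_, ?_⟩
    · rw [Finset.mem_filter, Finset.mem_powerset]
      exact ⟨Finset.filter_subset _ _, hξ'.le⟩
    · rw [mem_iInter₂]
      intro j hj
      exact (Finset.mem_filter.1 hj).2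
  refine (measure_mono hsub).trans ((measure_biUnion_finset_le _ _).trans ?_)
  calc _ ≤ ∑ S ∈ (Finset.range J).powerset.filter (fun S => J ≤ 2 * S.card), (4⁻¹ : ENNReal) ^ J := by
        refine Finset.sum_le_sum fun S hS => ?_
        refine (prod_GB g ρ hε a S).trans ?_
        rw [← pow_mul]
        exact pow_le_pow_right_of_le_one' (by norm_num) (Finset.mem_filter.1 hS).2
    _ ≤ ∑ S ∈ (Finset.range J).powerset, (4⁻¹ : ENNReal) ^ J :=
        Finset.sum_le_sum_of_subset (Finset.filter_subset _ _)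
    _ = 2 ^ J * 4⁻¹ ^ J := by
        rw [Finset.sum_const, Finset.card_powerset, Finset.card_range, nsmul_eq_mul]
        push_cast; rfl
    _ = 2⁻¹ ^ J := by
        rw [← mul_pow]
        congr 1
        rw [show (4 : ENNReal) = 2 * 2 by norm_num, ENNReal.mul_inv (by norm_num) (by norm_num),
          ← mul_assoc, ENNReal.mul_inv_cancel (by norm_num) (by norm_num), one_mul]

lemma ae_CB {m K : ℕ}
    (hε : ∀ (k : ℤ), 1 ≤ k → ∀ (n : ℕ) (ξ₀ : V → ℕ → E), (∀ i < n, g.L (W g ξ₀ i) < k) →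
      mu V ρ (FarEv g k m K ∩ Cy g ξ₀ n) ≤ (4⁻¹ ^ 2) * mu V ρ (Cy g ξ₀ n)) (a : ℕ) :
    ∀ᵐ ξ ∂(mu V ρ), ∀ᶠ J in atTop, ξ ∉ CB g m K a J := by
  refine ae_eventually_notMem ?_
  refine ne_top_of_le_ne_top ?_ (ENNReal.tsum_le_tsum fun J => CB_le g ρ hε a J)
  rw [ENNReal.tsum_geometric]
  norm_num

/-- deterministic consequence -/
lemma slow_det {m K : ℕ} (hm : 1 ≤ m) {ξ : V → ℕ → E}
    (h : ∀ a : ℕ, ∀ᶠ J in atTop, ξ ∉ CB g m K a J) :
    ∃ c : ℕ, ∀ (n j : ℕ), (j : ℤ) ≤ g.L (W g ξ n) → (K + 1) * j ≤ 2 * n + c := by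
  classical
  have h' : ∀ᶠ J in atTop, ∀ a ∈ Finset.range m, ξ ∉ CB g m K a J := by
    rw [Filter.eventually_all_finset]
    intro a _
    exact h a
  obtain ⟨J0, hJ0⟩ := eventually_atTop.1 h'
  refine ⟨(K + 1) * (m * (J0 + 2)), fun n j hj => ?_⟩
  -- `J` with `m (J+1) ≤ j < m (J+2)`
  by_cases hsmall : j < m * (J0 + 2)
  · have : (K + 1) * j ≤ (K + 1) * (m * (J0 + 2)) := Nat.mul_le_mul_left _ hsmall.le
    omega
  set J := j / m - 1 with hJ
  have hdiv : J0 + 2 ≤ j / m := by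
    rw [Nat.le_div_iff_mul_le (by omega)]
    rw [mul_comm]; omega
  have hJm : m * (J + 1) ≤ j := by
    rw [hJ, show j / m - 1 + 1 = j / m by omega]
    exact Nat.mul_div_le j m
  have hJm2 : j < m * (J + 2) := by
    rw [hJ, show j / m - 1 + 2 = j / m + 1 by omega]
    exact Nat.lt_mul_div_succ j (by omega)
  have hJJ : J0 ≤ J := by omega
  have hCB := hJ0 J hJJ
  -- the good levels
  set G : Finset ℤ := ((Finset.range m ×ˢ Finset.range J).filter
    (fun p => ξ ∉ GB g m K ((p.1 + 1 + p.2 * m : ℕ) : ℤ))).image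
      (fun p => ((p.1 + 1 + p.2 * m : ℕ) : ℤ)) with hG
  have hGcard : m * J ≤ 2 * G.card := by
    rw [hG, Finset.card_image_of_injOn]
    · have h1 : ((Finset.range m ×ˢ Finset.range J).filter
          (fun p => ξ ∉ GB g m K ((p.1 + 1 + p.2 * m : ℕ) : ℤ))).card =
          ∑ a ∈ Finset.range m, ((Finset.range J).filter
            (fun j => ξ ∉ GB g m K ((a + 1 + j * m : ℕ) : ℤ))).card := by
        simp only [Finset.card_filter]
        rw [Finset.sum_product]
      rw [h1, Finset.mul_sum]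
      calc m * J = ∑ a ∈ Finset.range m, J := by simp
        _ ≤ _ := Finset.sum_le_sum fun a ha => ?_
      have h2 := hCB a ha
      simp only [CB, Set.mem_ofPred_eq, not_lt] at h2
      have h3 := Finset.card_filter_add_card_filter_not (s := Finset.range J)
        (fun j => ξ ∈ GB g m K ((a + 1 + j * m : ℕ) : ℤ))
      rw [Finset.card_range] at h3
      have h4 : 2 * ((Finset.range J).filter
        (fun j => ξ ∈ GB g m K ((a + 1 + j * m : ℕ) : ℤ))).card ≤ J := by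
        convert h2
      omega
    · rintro ⟨a, j1⟩ h1 ⟨b, j2⟩ h2 heq
      simp only [Finset.coe_filter, Finset.mem_product, Finset.mem_range] at h1 h2
      have ha : a < m := h1.1.1
      have hb : b < m := h2.1.1
      simp only [Nat.cast_inj] at heq
      have heq' : a + j1 * m = b + j2 * m := by omega
      have hmod : a = b := by
        have := congrArg (· % m) heq'
        simp only [Nat.add_mul_mod_self_right, Nat.mod_eq_of_lt ha, Nat.mod_eq_of_lt hb] at this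
        exact this
      subst hmod
      have : j1 * m = j2 * m := by omega
      have := Nat.eq_of_mul_eq_mul_right (by omega) this
      rw [this]
  have hGents : ∀ k ∈ G, K + 1 ≤ (ents g ξ k n).length := by
    intro k hk
    rw [hG, Finset.mem_image] at hk
    obtain ⟨⟨a, j'⟩, h1, rfl⟩ := hk
    rw [Finset.mem_filter, Finset.mem_product, Finset.mem_range, Finset.mem_range] at h1
    obtain ⟨⟨h2, h3⟩, h4⟩ := h1
    simp only at h2 h3 h4 ⊢
    have hle : (((a + 1 + j' * m : ℕ) : ℤ) + m) ≤ g.L (W g ξ n) := by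
      have h5 : (j' + 1) * m ≤ J * m := Nat.mul_le_mul_right m h3
      rw [add_mul, one_mul] at h5
      have h6 : m * (J + 1) = J * m + m := by ring
      omega
    obtain ⟨n', hn', hF⟩ := exists_FH g hle
    have h7 : ¬ (ents g ξ ((a + 1 + j' * m : ℕ) : ℤ) n').length ≤ K := fun h => h4 ⟨n', hF, h⟩
    have h8 := (ents_prefix' g ξ ((a + 1 + j' * m : ℕ) : ℤ) hn').length_le
    omega
  have hsum := sum_ents g ξ G n
  have h9 : (K + 1) * G.card ≤ n := by
    calc (K + 1) * G.card = ∑ k ∈ G, (K + 1) := by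
          rw [Finset.sum_const, smul_eq_mul, mul_comm]
      _ ≤ _ := Finset.sum_le_sum hGents
      _ ≤ n := hsum
  have h10 : (K + 1) * (m * J) ≤ 2 * n := by
    calc (K + 1) * (m * J) ≤ (K + 1) * (2 * G.card) := Nat.mul_le_mul_left _ hGcard
      _ = 2 * ((K + 1) * G.card) := by ring
      _ ≤ 2 * n := by omega
  calc (K + 1) * j ≤ (K + 1) * (m * (J + 2)) := Nat.mul_le_mul_left _ hJm2.le
    _ = (K + 1) * (m * J) + (K + 1) * (m * 2) := by ring
    _ ≤ 2 * n + (K + 1) * (m * (J0 + 2)) := by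
        refine add_le_add h10 (Nat.mul_le_mul_left _ (Nat.mul_le_mul_left _ (by omega)))

theorem partB (hρ : Full ρ) (hq : mu V ρ (Q0 g) = 0) :
    ∀ᵐ ξ ∂(mu V ρ), ∀ ε : ℝ, 0 < ε → ∀ᶠ n : ℕ in atTop, (g.L (W g ξ n) : ℝ) ≤ ε * n := by
  have h1 := fun K => CK g ρ hρ hq K (4⁻¹ ^ 2) (by
    exact pow_ne_zero _ (ENNReal.inv_ne_zero.2 (by norm_num)))
  choose r hr1 hr2 using h1
  have h2 : ∀ᵐ ξ ∂(mu V ρ), ∀ K a : ℕ, ∀ᶠ J in atTop, ξ ∉ CB g (r K) K a J := by
    rw [ae_all_iff]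
    intro K
    rw [ae_all_iff]
    intro a
    exact ae_CB g ρ (hr2 K) a
  filter_upwards [h2] with ξ hξ ε hε
  obtain ⟨K, hK⟩ := exists_nat_gt (4 / ε)
  obtain ⟨c, hc⟩ := slow_det g (hr1 K) (hξ K)
  have hKpos : (0 : ℝ) < K + 1 := by positivity
  obtain ⟨n0, hn0⟩ := exists_nat_gt (2 * c / ε)
  filter_upwards [eventually_ge_atTop n0, eventually_ge_atTop c] with n hn hnc
  by_cases hneg : g.L (W g ξ n) ≤ 0
  · have : (g.L (W g ξ n) : ℝ) ≤ 0 := by exact_mod_cast hneg
    have : (0 : ℝ) ≤ ε * n := by positivity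
    linarith
  · obtain ⟨j, hj⟩ := Int.eq_ofNat_of_zero_le (le_of_lt (not_le.1 hneg))
    have h3 := hc n j hj.ge
    have hjr : (g.L (W g ξ n) : ℝ) = (j : ℝ) := by rw [hj]; simp
    rw [hjr]
    have h4 : ((K : ℝ) + 1) * j ≤ 2 * n + c := by exact_mod_cast h3
    have h5 : (2 : ℝ) * c / ε < n := lt_of_lt_of_le hn0 (by exact_mod_cast hn)
    rw [div_lt_iff₀ hε] at h5
    rw [div_lt_iff₀ hε] at hK
    by_contra hcon
    push Not at hcon
    -- `(K+1) j > (K+1) ε n ≥ 4 n`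
    have h6 : ((K : ℝ) + 1) * (ε * n) < ((K : ℝ) + 1) * j := by
      exact mul_lt_mul_of_pos_left hcon hKpos
    have h7 : (4 : ℝ) * n ≤ ((K : ℝ) + 1) * (ε * n) := by
      have : (4 : ℝ) ≤ ((K : ℝ) + 1) * ε := by nlinarith
      calc (4 : ℝ) * n ≤ (((K : ℝ) + 1) * ε) * n := by
            exact mul_le_mul_of_nonneg_right this (by positivity)
        _ = _ := by ring
    have h8 : (c : ℝ) ≤ n := by exact_mod_cast hnc
    have h9 : (0:ℝ) ≤ n := by positivity
    linarith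

end Pool.H543.ERW
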