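import Mathlib
import Pool.Agent.H543R3.Slow

set_option autoImplicit false
set_option linter.unusedSectionVars false

/-!
If with positive probability the walk stays above its starting level with unbounded range, then
a.s. it is bounded above or tends to infinity in the direction `L`.
-/

namespace Pool.H543.ERW

open MeasureTheory ProbabilityTheory Set Filter

variable {V E : Type} [AddCommGroup V] [DecidableEq V] (g : Geo V E)

/-- from `x`, with a fresh environment, the walk stays at or above the level of `x` and is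
unbounded -/
def StayU (x : V) : Set (V → ℕ → E) :=
  {ξ | (∀ n, g.L x ≤ g.L (ev g ξ (x, 0) n).1) ∧ ∀ R, ∃ n, R ≤ g.N ((ev g ξ (x, 0) n).1 - x)}

lemma StayU_eq (x : V) : (StayU g x : Set (V → ℕ → E)) = tr x ⁻¹' (Q0 g) := by
  ext ξ
  have htr := fun n => ev_tr g x ξ 0 0 n
  have hW : ∀ n, W g (tr x ξ) n = (ev g ξ (x, 0) n).1 - x := by
    intro n
    have := congrArg Prod.fst (htr n)
    simp only [zero_add] at this
    exact this
  simp only [StayU, Q0, mem_preimage, Set.mem_ofPred_eq]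
  simp only [hW, map_sub, sub_nonneg]

lemma Dep_StayU (x : V) : Dep (StayU g x : Set (V → ℕ → E)) (Hf g (g.L x)) := by
  rintro ξ ξ' h ⟨h1, h2⟩
  have hl := fun n => (loc g h (y := x) (c := 0) (c' := 0) (fun _ _ => rfl) n
    (fun i _ => h1 i) n le_rfl).1
  exact ⟨fun n => by rw [hl n]; exact h1 n, fun R => by
    obtain ⟨n, hn⟩ := h2 R
    exact ⟨n, by rw [hl n]; exact hn⟩⟩

/-- the walk at a first hitting time `n` of level `k` evolves as from a fresh environment in the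
half-space above level `k` -/
lemma fresh_ev {ξ : V → ℕ → E} {k : ℤ} {n : ℕ} (hF : FH g ξ k n)
    (hS : ξ ∈ (StayU g (W g ξ n) : Set (V → ℕ → E))) (hL : k ≤ g.L (W g ξ n)) :
    ∀ m, k ≤ g.L (W g ξ (n + m)) := by
  intro m
  have hc : ∀ z ∈ Hf g k, (0 : V → ℕ) z = C g ξ n z := by
    intro z hz
    have := cnt_unvisited g ξ (0, 0) n z (fun i hi heq => by
      have h1 : g.L (W g ξ i) < k := hF.2 i hi
      have h2 : k ≤ g.L z := hz
      rw [W, heq] at h1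
      omega)
    exact this.symm
  have hl := loc g (ξ := ξ) (ξ' := ξ) (S := Hf g k) (fun _ _ => rfl) (y := W g ξ n) (c := 0)
    (c' := C g ξ n) hc m (fun i _ => hL.trans (hS.1 i)) m le_rfl
  have : W g ξ (n + m) = (ev g ξ (W g ξ n, C g ξ n) m).1 := by
    rw [W, ev_add, ev_WC]
  rw [this, hl.1]
  exact hL.trans (hS.1 m)

variable [Countable V] [Finite E] [MeasurableSpace E] [DiscreteMeasurableSpace E]

lemma meas_StayU (x : V) : MeasurableSet (StayU g x : Set (V → ℕ → E)) := by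
  rw [StayU_eq]
  refine (?_ : Measurable (tr (E := E) x)) (meas_Q0 g)
  refine measurable_pi_lambda _ fun z => ?_
  exact measurable_pi_apply (z + x)

variable (ρ : Measure (ℕ → E)) [IsProbabilityMeasure ρ]

lemma mu_StayU (x : V) : mu V ρ (StayU g x) = mu V ρ (Q0 g) := by
  rw [StayU_eq, (mp_tr ρ x).measure_preimage (meas_Q0 g).nullMeasurableSet]

/-- the bad event: unbounded above, and below level `b` infinitely often -/
def AB (b : ℤ) : Set (V → ℕ → E) :=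
  {ξ | (∀ k : ℤ, ∃ n, k ≤ g.L (W g ξ n)) ∧ ∀ n, ∃ m ≥ n, g.L (W g ξ m) < b}

lemma trial_step {b : ℤ} {t : ENNReal}
    (ht : ∀ (k : ℤ) (n : ℕ) (ξ₀ : V → ℕ → E), b ≤ k → FH g ξ₀ k n →
      mu V ρ (AB g b ∩ Cy g ξ₀ n) ≤ t * mu V ρ (Cy g ξ₀ n))
    (k : ℤ) (n : ℕ) (ξ₀ : V → ℕ → E) (hbk : b ≤ k) (hF : FH g ξ₀ k n) :
    mu V ρ (AB g b ∩ Cy g ξ₀ n) ≤ ((1 - mu V ρ (Q0 g)) * t) * mu V ρ (Cy g ξ₀ n) := by
  classical
  set y := W g ξ₀ n with hy
  -- pass to the exact level of `y`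
  set Pr : (V → ℕ → E) → ℕ → Prop := fun ξ m => (∃ n', n < n' ∧ n' < m ∧ g.L (W g ξ n') < k) ∧
    ∀ i < m, g.L (W g ξ i) < g.L (W g ξ m) with hPr
  set A : ℕ → Set (V → ℕ → E) := fun m => {ξ | ξ ∈ Cy g ξ₀ n ∧ Pr ξ m ∧ ∀ m' < m, ¬ Pr ξ m'}
    with hA
  have hky : k ≤ g.L y := hF.1
  have hfail : (⋃ m, A m) ⊆ Cy g ξ₀ n ∩ (StayU g y)ᶜ := by
    intro ξ hξ
    obtain ⟨m, h1, ⟨⟨n', h2, -, h3⟩, -⟩, -⟩ := mem_iUnion.1 hξ
    refine ⟨h1, fun hS => ?_⟩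
    have hW : ∀ i ≤ n, W g ξ₀ i = W g ξ i := fun i hi => (h1 i hi).symm
    have hF' := FH_congr g hW hF
    have h4 := fresh_ev g hF' (by rw [h1 n le_rfl]; exact hS) hF'.1 (n' - n)
    rw [show n + (n' - n) = n' by omega] at h4
    omega
  have hcover : AB g b ∩ Cy g ξ₀ n ⊆ AB g b ∩ ⋃ m, A m := by
    rintro ξ ⟨⟨h1, h2⟩, h3⟩
    refine ⟨⟨h1, h2⟩, ?_⟩
    have hex : ∃ m, Pr ξ m := by
      obtain ⟨n', hn', hlt⟩ := h2 (n + 1)
      -- the max up to `n'`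
      obtain ⟨B, hB⟩ : ∃ B : ℤ, ∀ i ≤ n', g.L (W g ξ i) < B := by
        refine ⟨(Finset.range (n' + 1)).sup' ⟨0, by simp⟩ (fun i => g.L (W g ξ i)) + 1, ?_⟩
        intro i hi
        have := Finset.le_sup' (fun i => g.L (W g ξ i)) (Finset.mem_range.2 (show i < n' + 1 by omega))
        omega
      obtain ⟨m1, hm1⟩ := h1 B
      obtain ⟨m, -, hm⟩ := exists_FH g hm1
      refine ⟨m, ⟨n', by omega, ?_, by omega⟩, fun i hi => ?_⟩
      · by_contra hle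
        have := hB m (by omega)
        have := hm.1
        omega
      · have := hm.2 i hi
        have := hm.1
        omega
    exact mem_iUnion.2 ⟨Nat.find hex, h3, Nat.find_spec hex, fun m' hm' => Nat.find_min hex hm'⟩
  have hT := T1 g ρ A (by
    rintro m ξ₁ ⟨h1, h2, h3⟩ ξ hξ
    obtain ⟨⟨n', h4, h5, h6⟩, h7⟩ := id h2
    have hPrc : ∀ m' ≤ m, Pr ξ m' → Pr ξ₁ m' := by
      rintro m' hm' ⟨⟨n'', a1, a2, a3⟩, a4⟩
      refine ⟨⟨n'', a1, a2, ?_⟩, fun i hi => ?_⟩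
      · rw [← hξ n'' (by omega)]; exact a3
      · rw [← hξ i (by omega), ← hξ m' hm']; exact a4 i hi
    refine ⟨fun i hi => ?_, ⟨⟨n', h4, h5, ?_⟩, fun i hi => ?_⟩, fun m' hm' h => ?_⟩
    · rw [hξ i (by omega)]; exact h1 i hi
    · rw [hξ n' (by omega)]; exact h6
    · rw [hξ i (by omega), hξ m le_rfl]; exact h7 i hi
    · exact h3 m' hm' (hPrc m' hm'.le h)) (by
    intro m m' hne
    rw [Function.onFun, Set.disjoint_left]
    rintro ξ ⟨-, h1, h2⟩ ⟨-, h1', h2'⟩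
    rcases lt_trichotomy m m' with h | h | h
    · exact h2' m h h1
    · exact hne h
    · exact h2 m' h h1') (AB g b) t (by
    rintro m ξ₁ ⟨h1, ⟨⟨n', h4, h5, h6⟩, h7⟩, -⟩
    refine ht (g.L (W g ξ₁ m)) m ξ₁ ?_ ⟨le_rfl, h7⟩
    have := h7 n (by omega)
    rw [h1 n le_rfl] at this
    have hky' : k ≤ g.L (W g ξ₀ n) := hF.1
    omega)
  have hfreshW : ∀ i < n, W g ξ₀ i ∉ Hf g (g.L y) := by
    intro i hi h
    have h1 := hF.2 i hi
    have h2 : g.L y ≤ g.L (W g ξ₀ i) := h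
    omega
  have hdepC : Dep (StayU g y : Set (V → ℕ → E))ᶜ (Hf g (g.L y)) := by
    intro ξ ξ' h h1 h2
    exact h1 (Dep_StayU g y ξ' ξ (fun z hz => (h z hz).symm) h2)
  calc mu V ρ (AB g b ∩ Cy g ξ₀ n) ≤ mu V ρ (AB g b ∩ ⋃ m, A m) := measure_mono hcover
    _ ≤ t * mu V ρ (⋃ m, A m) := hT
    _ ≤ t * mu V ρ (Cy g ξ₀ n ∩ (StayU g y)ᶜ) := by gcongr
    _ = t * (mu V ρ (Cy g ξ₀ n) * (1 - mu V ρ (Q0 g))) := by
        rw [T2 g ρ ξ₀ n (meas_StayU g y).compl hdepC hfreshW, prob_compl_eq_one_sub (meas_StayU g y),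
          mu_StayU]
    _ = _ := by ring

theorem partA_AB (hq : mu V ρ (Q0 g) ≠ 0) (b : ℤ) : mu V ρ (AB g b) = 0 := by
  have hpow : ∀ j : ℕ, ∀ (k : ℤ) (n : ℕ) (ξ₀ : V → ℕ → E), b ≤ k → FH g ξ₀ k n →
      mu V ρ (AB g b ∩ Cy g ξ₀ n) ≤ ((1 - mu V ρ (Q0 g)) ^ j) * mu V ρ (Cy g ξ₀ n) := by
    intro j
    induction j with
    | zero =>
      intro k n ξ₀ _ _
      rw [pow_zero, one_mul]
      exact measure_mono inter_subset_right
    | succ j ih =>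
      intro k n ξ₀ hbk hF
      rw [pow_succ']
      exact trial_step g ρ ih k n ξ₀ hbk hF
  have hlt : 1 - mu V ρ (Q0 g) < 1 :=
    ENNReal.sub_lt_self ENNReal.one_ne_top one_ne_zero hq
  have hzero : ∀ (k : ℤ) (n : ℕ) (ξ₀ : V → ℕ → E), b ≤ k → FH g ξ₀ k n →
      mu V ρ (AB g b ∩ Cy g ξ₀ n) ≤ 0 := by
    intro k n ξ₀ hbk hF
    have h1 : Tendsto (fun j : ℕ => ((1 - mu V ρ (Q0 g)) ^ j) * mu V ρ (Cy g ξ₀ n)) atTop
        (nhds (0 * mu V ρ (Cy g ξ₀ n))) :=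
      ENNReal.Tendsto.mul_const (ENNReal.tendsto_pow_atTop_nhds_zero_of_lt_one hlt)
        (Or.inr (measure_ne_top _ _))
    rw [zero_mul] at h1
    exact ge_of_tendsto' h1 fun j => hpow j k n ξ₀ hbk hF
  have hT := T1 g ρ (fun n => {ξ | FH g ξ b n}) (by
    intro n ξ₀ h ξ hξ
    exact FH_congr g (fun i hi => (hξ i hi).symm) h) (by
    intro n n' hne
    rw [Function.onFun, Set.disjoint_left]
    intro ξ h h'
    exact hne (FH_unique g h h')) (AB g b) 0 (by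
    intro n ξ₀ h
    rw [zero_mul]
    exact hzero b n ξ₀ le_rfl h)
  rw [zero_mul] at hT
  refine le_antisymm ((measure_mono ?_).trans hT) zero_le
  rintro ξ ⟨h1, h2⟩
  refine ⟨⟨h1, h2⟩, ?_⟩
  obtain ⟨n, hn⟩ := h1 b
  obtain ⟨n', -, hF⟩ := exists_FH g hn
  exact mem_iUnion.2 ⟨n', hF⟩

theorem partA (hq : mu V ρ (Q0 g) ≠ 0) :
    ∀ᵐ ξ ∂(mu V ρ), (∀ k : ℤ, ∃ n, k ≤ g.L (W g ξ n)) →
      Tendsto (fun n => g.L (W g ξ n)) atTop atTop := by
  have h : ∀ᵐ ξ ∂(mu V ρ), ∀ b : ℤ, ξ ∉ AB g b := by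
    rw [ae_all_iff]
    intro b
    exact measure_eq_zero_iff_ae_notMem.1 (partA_AB g ρ hq b)
  filter_upwards [h] with ξ hξ hsup
  rw [tendsto_atTop]
  intro b
  by_contra hcon
  refine hξ b ⟨hsup, ?_⟩
  rw [eventually_atTop] at hcon
  push Not at hcon
  intro n
  obtain ⟨m, h1, h2⟩ := hcon n
  exact ⟨m, h1, h2⟩

/-- The main result for arrow fields. -/
theorem core (hρ : Full ρ) :
    ∀ᵐ ξ ∂(mu V ρ), ¬ Tendsto (fun n => g.L (W g ξ n)) atTop atTop →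
      ∀ ε : ℝ, 0 < ε → ∀ᶠ n : ℕ in atTop, (g.L (W g ξ n) : ℝ) ≤ ε * n := by
  by_cases hq : mu V ρ (Q0 g) = 0
  · filter_upwards [partB g ρ hρ hq] with ξ hξ _
    exact hξ
  · filter_upwards [partA g ρ hq] with ξ hξ hnot ε hε
    have hnsup : ¬ ∀ k : ℤ, ∃ n, k ≤ g.L (W g ξ n) := fun h => hnot (hξ h)
    push Not at hnsup
    obtain ⟨k, hk⟩ := hnsup
    obtain ⟨n0, hn0⟩ := exists_nat_gt ((k : ℝ) / ε)
    filter_upwards [eventually_ge_atTop n0] with n hn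
    have h1 : (g.L (W g ξ n) : ℝ) ≤ k := by exact_mod_cast (hk n).le
    have h2 : (k : ℝ) / ε < n := lt_of_lt_of_le hn0 (by exact_mod_cast hn)
    rw [div_lt_iff₀ hε] at h2
    linarith

end Pool.H543.ERW
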