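import Mathlib
import Pool.Agent.H543R3.Trial

set_option autoImplicit false
set_option linter.unusedSectionVars false

/-!
Probabilities of finite paths.
-/

namespace Pool.H543.ERW

open MeasureTheory ProbabilityTheory Set Filter

variable {V E : Type} [AddCommGroup V] [DecidableEq V] (g : Geo V E)

lemma C_card (ξ : V → ℕ → E) (n : ℕ) (z : V) :
    C g ξ n z = ((Finset.range n).filter (fun i => W g ξ i = z)).card := by
  induction n with
  | zero => simp [C_zero]
  | succ n ih =>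
    rw [C_succ, Finset.range_add_one, Finset.filter_insert]
    by_cases hz : z = W g ξ n
    · subst hz
      rw [Function.update_self, if_pos rfl, Finset.card_insert_of_notMem (by simp), ih]
    · rw [Function.update_of_ne hz, if_neg (fun h => hz h.symm), ih]

lemma Cy_eq (hu : Function.Injective g.u) (ξ₀ : V → ℕ → E) (s : Finset V) (n : ℕ)
    (hs : ∀ i < n, W g ξ₀ i ∈ s) :
    Cy g ξ₀ n = {ξ | ∀ z ∈ s, ∀ k < C g ξ₀ n z, ξ z k = ξ₀ z k} := by
  induction n with
  | zero =>
    ext ξ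
    simp only [Cy, C_zero]
    constructor
    · intro _ z _ k hk
      exact absurd hk (by simp)
    · intro _ i hi
      have : i = 0 := by omega
      subst this; rfl
  | succ n ih =>
    rw [Cy_succ, ih (fun i hi => hs i (by omega))]
    ext ξ
    have hstep : (W g ξ₀ n + g.u (ξ (W g ξ₀ n) (C g ξ₀ n (W g ξ₀ n))) = W g ξ₀ (n + 1)) ↔
        ξ (W g ξ₀ n) (C g ξ₀ n (W g ξ₀ n)) = ξ₀ (W g ξ₀ n) (C g ξ₀ n (W g ξ₀ n)) := by
      rw [W_succ, add_right_inj]
      exact hu.eq_iff
    constructor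
    · rintro ⟨h1, h2⟩ z hz k hk
      rw [C_succ] at hk
      by_cases hzW : z = W g ξ₀ n
      · subst hzW
        rw [Function.update_self] at hk
        rcases Nat.lt_or_ge k (C g ξ₀ n (W g ξ₀ n)) with h | h
        · exact h1 _ hz k h
        · have : k = C g ξ₀ n (W g ξ₀ n) := by omega
          rw [this]
          exact hstep.1 h2
      · rw [Function.update_of_ne hzW] at hk
        exact h1 z hz k hk
    · intro h
      have hC : ∀ z, C g ξ₀ n z ≤ C g ξ₀ (n + 1) z := by
        intro z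
        rw [C_succ]
        by_cases hzW : z = W g ξ₀ n
        · subst hzW; rw [Function.update_self]; omega
        · rw [Function.update_of_ne hzW]
      refine ⟨fun z hz k hk => h z hz k (lt_of_lt_of_le hk (hC z)), hstep.2 ?_⟩
      refine h _ (hs n (by omega)) _ ?_
      rw [C_succ, Function.update_self]; omega

lemma prod_path (F : V → E → ℕ → ENNReal) (ξ₀ : V → ℕ → E) (s : Finset V) (n : ℕ)
    (hs : ∀ i < n, W g ξ₀ i ∈ s) :
    ∏ j ∈ Finset.range n, F (W g ξ₀ j) (ξ₀ (W g ξ₀ j) (C g ξ₀ j (W g ξ₀ j)))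
      (C g ξ₀ j (W g ξ₀ j)) = ∏ z ∈ s, ∏ k ∈ Finset.range (C g ξ₀ n z), F z (ξ₀ z k) k := by
  induction n with
  | zero => simp [C_zero]
  | succ n ih =>
    rw [Finset.prod_range_succ, ih (fun i hi => hs i (by omega))]
    have hmem := hs n (by omega)
    rw [← Finset.mul_prod_erase s _ hmem, ← Finset.mul_prod_erase s (fun z =>
      ∏ k ∈ Finset.range (C g ξ₀ (n + 1) z), F z (ξ₀ z k) k) hmem]
    have h1 : ∏ z ∈ s.erase (W g ξ₀ n), ∏ k ∈ Finset.range (C g ξ₀ (n + 1) z), F z (ξ₀ z k) k =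
        ∏ z ∈ s.erase (W g ξ₀ n), ∏ k ∈ Finset.range (C g ξ₀ n z), F z (ξ₀ z k) k := by
      refine Finset.prod_congr rfl fun z hz => ?_
      rw [C_succ, Function.update_of_ne (Finset.ne_of_mem_erase hz)]
    rw [h1, C_succ, Function.update_self, Finset.prod_range_succ]
    ring

variable [Countable V] [Finite E] [MeasurableSpace E] [DiscreteMeasurableSpace E]
variable (ρ : Measure (ℕ → E)) [IsProbabilityMeasure ρ]

lemma meas_pre (w : ℕ → E) (m : ℕ) : MeasurableSet {a : ℕ → E | ∀ k < m, a k = w k} := by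
  have : {a : ℕ → E | ∀ i < m, a i = w i} = ⋂ i ∈ Finset.range m, (fun a => a i) ⁻¹' {w i} := by
    ext a; simp
  rw [this]
  exact Finset.measurableSet_biInter _ fun i _ =>
    (measurable_pi_apply i) (MeasurableSet.of_discrete)

lemma mu_Cy (hu : Function.Injective g.u) (ξ₀ : V → ℕ → E) (s : Finset V) (n : ℕ)
    (hs : ∀ i < n, W g ξ₀ i ∈ s) :
    mu V ρ (Cy g ξ₀ n) = ∏ z ∈ s, ρ {a | ∀ k < C g ξ₀ n z, a k = ξ₀ z k} := by
  rw [Cy_eq g hu ξ₀ s n hs]
  have : {ξ : V → ℕ → E | ∀ z ∈ s, ∀ k < C g ξ₀ n z, ξ z k = ξ₀ z k} =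
      Set.pi (s : Set V) (fun z => {a : ℕ → E | ∀ k < C g ξ₀ n z, a k = ξ₀ z k}) := by
    ext ξ; simp [Set.mem_pi]
  rw [this, mu, Measure.infinitePi_pi]
  intro z _
  exact meas_pre _ _

lemma meas_W (n : ℕ) [MeasurableSpace V] : Measurable (fun ξ : V → ℕ → E => W g ξ n) := by
  intro S _
  refine (WO_ev g (0, 0) n (fun f => (f n).1 ∈ S) ?_).meas
  intro f f' hff h
  rw [← hff n le_rfl]; exact h

/-- Two laws on trajectories agreeing on the cylinders of realisable histories agree. -/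
theorem law_eq [MeasurableSpace V] [DiscreteMeasurableSpace V] (m : Measure (ℕ → V))
    [IsProbabilityMeasure m]
    (h : ∀ (ξ₀ : V → ℕ → E) (n : ℕ), m {x | ∀ j ≤ n, x j = W g ξ₀ j} = mu V ρ (Cy g ξ₀ n)) :
    m = (mu V ρ).map (fun ξ n => W g ξ n) := by
  classical
  have hmW : Measurable (fun (ξ : V → ℕ → E) (n : ℕ) => W g ξ n) :=
    measurable_pi_lambda _ fun n => meas_W g n
  set m2 := (mu V ρ).map (fun (ξ : V → ℕ → E) (n : ℕ) => W g ξ n) with hm2
  haveI : IsProbabilityMeasure m2 := Measure.isProbabilityMeasure_map hmW.aemeasurable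
  have hcylm : ∀ (q : ℕ → V) (n : ℕ), MeasurableSet {x : ℕ → V | ∀ j ≤ n, x j = q j} := by
    intro q n
    have : {x : ℕ → V | ∀ j ≤ n, x j = q j} = ⋂ j ∈ Finset.range (n + 1), (fun x => x j) ⁻¹' {q j} := by
      ext x; simp [Nat.lt_succ_iff]
    rw [this]
    exact Finset.measurableSet_biInter _ fun i _ => (measurable_pi_apply i) (MeasurableSet.of_discrete)
  have hm2cyl : ∀ (ξ₀ : V → ℕ → E) (n : ℕ), m2 {x | ∀ j ≤ n, x j = W g ξ₀ j} =
      mu V ρ (Cy g ξ₀ n) := by
    intro ξ₀ n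
    rw [hm2, Measure.map_apply hmW (hcylm _ _)]
    rfl
  -- the realisable histories have full measure
  have hreal : ∀ n, m {x : ℕ → V | ∃ ξ₀ : V → ℕ → E, ∀ j ≤ n, x j = W g ξ₀ j} = 1 := by
    intro n
    set P : Set (Fin (n + 1) → V) := {p | ∃ ξ₀ : V → ℕ → E, ∀ j : Fin (n + 1), p j = W g ξ₀ j}
      with hP
    have hun : {x : ℕ → V | ∃ ξ₀ : V → ℕ → E, ∀ j ≤ n, x j = W g ξ₀ j} =
        ⋃ p : P, {x : ℕ → V | ∀ j : Fin (n + 1), x j = p.1 j} := by
      ext x
      simp only [mem_iUnion]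
      constructor
      · rintro ⟨ξ₀, h1⟩
        exact ⟨⟨fun j => x j, ξ₀, fun j => h1 j (by omega)⟩, fun j => rfl⟩
      · rintro ⟨⟨p, ξ₀, h1⟩, h2⟩
        refine ⟨ξ₀, fun j hj => ?_⟩
        rw [h2 ⟨j, by omega⟩]
        exact h1 ⟨j, by omega⟩
    have hpc : ∀ p : P, ∃ ξ₀ : V → ℕ → E, {x : ℕ → V | ∀ j : Fin (n + 1), x j = p.1 j} =
        {x | ∀ j ≤ n, x j = W g ξ₀ j} := by
      rintro ⟨p, ξ₀, h1⟩
      refine ⟨ξ₀, ?_⟩
      ext x
      constructor
      · intro h2 j hj
        rw [h2 ⟨j, by omega⟩]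
        exact h1 ⟨j, by omega⟩
      · intro h2 j
        rw [h2 j (by omega)]
        exact (h1 j).symm
    have hdisj : Pairwise (Function.onFun Disjoint
        fun p : P => {x : ℕ → V | ∀ j : Fin (n + 1), x j = p.1 j}) := by
      intro p p' hpp
      rw [Function.onFun, Set.disjoint_left]
      intro x h1 h2
      apply hpp
      apply Subtype.ext
      funext j
      rw [← h1 j, ← h2 j]
    have hmeas : ∀ p : P, MeasurableSet {x : ℕ → V | ∀ j : Fin (n + 1), x j = p.1 j} := by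
      intro p
      obtain ⟨ξ₀, h1⟩ := hpc p
      rw [h1]; exact hcylm _ _
    have e1 : m {x : ℕ → V | ∃ ξ₀ : V → ℕ → E, ∀ j ≤ n, x j = W g ξ₀ j} =
        m2 {x : ℕ → V | ∃ ξ₀ : V → ℕ → E, ∀ j ≤ n, x j = W g ξ₀ j} := by
      rw [hun, measure_iUnion hdisj hmeas, measure_iUnion hdisj hmeas]
      refine tsum_congr fun p => ?_
      obtain ⟨ξ₀, h1⟩ := hpc p
      rw [h1, h, hm2cyl]
    rw [e1, hm2, Measure.map_apply hmW]
    · have : (fun (ξ : V → ℕ → E) (n : ℕ) => W g ξ n) ⁻¹'
          {x : ℕ → V | ∃ ξ₀ : V → ℕ → E, ∀ j ≤ n, x j = W g ξ₀ j} = univ := by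
        ext ξ
        simp only [mem_preimage, mem_univ, iff_true]
        exact ⟨ξ, fun j _ => rfl⟩
      rw [this, measure_univ]
    · rw [hun]; exact MeasurableSet.iUnion hmeas
  set 𝒞 : Set (Set (ℕ → V)) := {S | S = ∅ ∨ ∃ (q : ℕ → V) (n : ℕ), S = {x | ∀ j ≤ n, x j = q j}}
    with h𝒞
  refine ext_of_generate_finite 𝒞 ?_ ?_ ?_ (by rw [measure_univ, measure_univ])
  · apply le_antisymm
    · refine iSup_le fun i => ?_
      rintro S ⟨B, -, rfl⟩
      have : (fun x : ℕ → V => x i) ⁻¹' B = ⋃ p : {p : Fin (i + 1) → V // p (Fin.last i) ∈ B},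
          {x | ∀ j ≤ i, x j = (fun j => if hj : j < i + 1 then p.1 ⟨j, hj⟩ else 0) j} := by
        ext x
        simp only [mem_preimage, mem_iUnion]
        constructor
        · intro hx
          refine ⟨⟨fun j => x j, hx⟩, fun j hj => ?_⟩
          have hj' : j < i + 1 := by omega
          simp [hj']
        · rintro ⟨⟨p, hp⟩, h1⟩
          have h2 := h1 i le_rfl
          have h3 : i < i + 1 := by omega
          simp only [h3, dif_pos] at h2
          rw [h2]; exact hp
      rw [this]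
      refine MeasurableSet.iUnion fun p => ?_
      exact MeasurableSpace.measurableSet_generateFrom (Or.inr ⟨_, i, rfl⟩)
    · refine MeasurableSpace.generateFrom_le ?_
      rintro S (rfl | ⟨q, n, rfl⟩)
      · exact MeasurableSet.empty
      · exact hcylm q n
  · rintro S (rfl | ⟨q, n, rfl⟩) T (rfl | ⟨q', n', rfl⟩) hne
    · exact Or.inl (by simp)
    · exact Or.inl (by simp)
    · exact Or.inl (by simp)
    · right
      obtain ⟨x, hx1, hx2⟩ := hne
      refine ⟨x, max n n', ?_⟩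
      ext y
      constructor
      · rintro ⟨h1, h2⟩ j hj
        rcases le_total n n' with hnn | hnn
        · rw [max_eq_right hnn] at hj
          rw [h2 j hj, hx2 j hj]
        · rw [max_eq_left hnn] at hj
          rw [h1 j hj, hx1 j hj]
      · intro h1
        refine ⟨fun j hj => ?_, fun j hj => ?_⟩
        · rw [h1 j (le_trans hj (le_max_left _ _)), hx1 j hj]
        · rw [h1 j (le_trans hj (le_max_right _ _)), hx2 j hj]
  · rintro S (rfl | ⟨q, n, rfl⟩)
    · simp
    · by_cases hq : ∃ ξ₀ : V → ℕ → E, ∀ j ≤ n, q j = W g ξ₀ j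
      · obtain ⟨ξ₀, h1⟩ := hq
        have : {x : ℕ → V | ∀ j ≤ n, x j = q j} = {x | ∀ j ≤ n, x j = W g ξ₀ j} := by
          ext x
          constructor
          · intro h2 j hj; rw [h2 j hj, h1 j hj]
          · intro h2 j hj; rw [h2 j hj, h1 j hj]
        rw [this, h, hm2cyl]
      · have hz2 : m2 {x : ℕ → V | ∀ j ≤ n, x j = q j} = 0 := by
          rw [hm2, Measure.map_apply hmW (hcylm _ _)]
          have : (fun (ξ : V → ℕ → E) (n : ℕ) => W g ξ n) ⁻¹' {x : ℕ → V | ∀ j ≤ n, x j = q j} = ∅ := by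
            ext ξ
            simp only [mem_preimage, mem_empty_iff_false, iff_false]
            intro h1
            exact hq ⟨ξ, fun j hj => (h1 j hj).symm⟩
          rw [this, measure_empty]
        have hz1 : m {x : ℕ → V | ∀ j ≤ n, x j = q j} = 0 := by
          have hsub : {x : ℕ → V | ∀ j ≤ n, x j = q j} ⊆
              {x : ℕ → V | ∃ ξ₀ : V → ℕ → E, ∀ j ≤ n, x j = W g ξ₀ j}ᶜ := by
            rintro x h1 ⟨ξ₀, h2⟩
            exact hq ⟨ξ₀, fun j hj => by rw [← h1 j hj]; exact h2 j hj⟩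
          refine measure_mono_null hsub ?_
          rw [prob_compl_eq_zero_iff₀]
          · exact hreal n
          · -- measurability
            have hun : {x : ℕ → V | ∃ ξ₀ : V → ℕ → E, ∀ j ≤ n, x j = W g ξ₀ j} =
                ⋃ p : {p : Fin (n + 1) → V // ∃ ξ₀ : V → ℕ → E, ∀ j : Fin (n + 1), p j = W g ξ₀ j},
                  {x : ℕ → V | ∀ j ≤ n, x j = (fun j => if hj : j < n + 1 then p.1 ⟨j, hj⟩ else 0) j} := by
              ext x
              simp only [mem_iUnion]
              constructor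
              · rintro ⟨ξ₀, h1⟩
                refine ⟨⟨fun j => x j, ξ₀, fun j => h1 j (by omega)⟩, fun j hj => ?_⟩
                have hj' : j < n + 1 := by omega
                simp [hj']
              · rintro ⟨⟨p, ξ₀, h1⟩, h2⟩
                refine ⟨ξ₀, fun j hj => ?_⟩
                have hj' : j < n + 1 := by omega
                rw [h2 j hj]
                simp only [hj', dif_pos]
                exact h1 ⟨j, hj'⟩
            rw [hun]
            exact (MeasurableSet.iUnion fun p => hcylm _ _).nullMeasurableSet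
        rw [hz1, hz2]

end Pool.H543.ERW
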