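import Mathlib
import Pool.Agent.H543R3.Cyl

set_option autoImplicit false
set_option linter.unusedSectionVars false

/-!
The law of the arrow stack of a random cookie stack.
-/

namespace Pool.H543.ERW

open MeasureTheory ProbabilityTheory Set Filter
open scoped unitInterval

variable {E : Type} [Fintype E] [DecidableEq E] [MeasurableSpace E] [DiscreteMeasurableSpace E]

/-- the probability measure on `E` with weights `p` -/
noncomputable def wt (p : E → ℝ) : Measure E := ∑ e, ENNReal.ofReal (p e) • Measure.dirac e

lemma wt_apply (p : E → ℝ) (s : Set E) :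
    wt p s = ∑ e, ENNReal.ofReal (p e) * (Measure.dirac e : Measure E) s := by
  simp [wt, Measure.finsetSum_apply]

lemma wt_singleton (p : E → ℝ) (e : E) : wt p {e} = ENNReal.ofReal (p e) := by
  classical
  rw [wt_apply, Finset.sum_eq_single e]
  · simp
  · intro b _ hb
    rw [Measure.dirac_apply' _ (MeasurableSet.of_discrete), Set.indicator_of_notMem]
    · simp
    · simpa using hb
  · intro h; exact absurd (Finset.mem_univ e) h

/-- `p` is a probability vector -/
def IsPV (p : E → ℝ) : Prop := (∀ e, 0 ≤ p e) ∧ ∑ e, p e = 1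

lemma meas_IsPV : MeasurableSet {p : E → ℝ | IsPV p} := by
  have : {p : E → ℝ | IsPV p} = (⋂ e, {p : E → ℝ | 0 ≤ p e}) ∩ {p | ∑ e, p e = 1} := by
    ext p; simp [IsPV]
  rw [this]
  refine (MeasurableSet.iInter fun e => measurableSet_le measurable_const (measurable_pi_apply e)).inter
    (measurableSet_eq_fun ?_ measurable_const)
  exact Finset.measurable_sum _ fun e _ => measurable_pi_apply e

open Classical in
/-- the kernel -/
noncomputable def ker (e0 : E) : Kernel (E → ℝ) E where
  toFun p := if IsPV p then wt p else Measure.dirac e0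
  measurable' := by
    refine Measurable.ite meas_IsPV ?_ measurable_const
    refine Measure.measurable_of_measurable_coe _ fun s _ => ?_
    simp only [wt_apply]
    refine Finset.measurable_sum _ fun e _ => ?_
    exact (ENNReal.measurable_ofReal.comp (measurable_pi_apply e)).mul_const _

lemma ker_apply {e0 : E} {p : E → ℝ} (hp : IsPV p) : ker e0 p = wt p := by
  classical
  show (if IsPV p then wt p else Measure.dirac e0) = wt p
  rw [if_pos hp]

instance (e0 : E) : IsMarkovKernel (ker e0) where
  isProbabilityMeasure p := by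
    by_cases hp : IsPV p
    · rw [ker_apply hp]
      constructor
      rw [wt_apply]
      simp only [measure_univ, mul_one]
      rw [← ENNReal.ofReal_sum_of_nonneg (fun e _ => hp.1 e), hp.2, ENNReal.ofReal_one]
    · have : ker e0 p = Measure.dirac e0 := by
        classical
        show (if IsPV p then wt p else Measure.dirac e0) = _
        rw [if_neg hp]
      rw [this]; infer_instance

theorem exists_rho [Nonempty E] {Ω : Type} [MeasurableSpace Ω] (μ : Measure Ω)
    [IsProbabilityMeasure μ] (S : Ω → E → ℕ → ℝ) (hS : Measurable S)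
    (hpv : ∀ᵐ a ∂μ, ∀ k, IsPV (fun e => S a e k)) :
    ∃ ρ : Measure (ℕ → E), IsProbabilityMeasure ρ ∧ ∀ (w : ℕ → E) (n : ℕ),
      ρ {a | ∀ k < n, a k = w k} =
        ∫⁻ a, ∏ k ∈ Finset.range n, ENNReal.ofReal (S a (w k) k) ∂μ := by
  classical
  obtain ⟨e0⟩ := ‹Nonempty E›
  haveI : Nonempty E := ⟨e0⟩
  letI : TopologicalSpace E := ⊥
  haveI : DiscreteTopology E := ⟨rfl⟩
  haveI : BorelSpace E := ⟨by
    apply le_antisymm
    · intro s _
      exact MeasurableSpace.measurableSet_generateFrom (isOpen_discrete s)
    · intro s _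
      exact MeasurableSet.of_discrete⟩
  obtain ⟨f, hf, hfκ⟩ := Kernel.exists_measurable_map_eq_unitInterval (ker e0)
  set ν : Measure (ℕ → I) := Measure.infinitePi (fun _ : ℕ => (volume : Measure I)) with hν
  set Arr : Ω × (ℕ → I) → (ℕ → E) := fun q k => f (fun e => S q.1 e k) (q.2 k) with hArr
  have hSk : ∀ k, Measurable (fun a => (fun e => S a e k)) := by
    intro k
    refine measurable_pi_lambda _ fun e => ?_
    exact (measurable_pi_apply k).comp ((measurable_pi_apply e).comp hS)
  have hArrm : Measurable Arr := by
    refine measurable_pi_lambda _ fun k => ?_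
    have : Measurable (fun q : Ω × (ℕ → I) => ((fun e => S q.1 e k), q.2 k)) :=
      ((hSk k).comp measurable_fst).prodMk ((measurable_pi_apply k).comp measurable_snd)
    exact hf.comp this
  refine ⟨(μ.prod ν).map Arr, Measure.isProbabilityMeasure_map hArrm.aemeasurable, ?_⟩
  intro w n
  rw [Measure.map_apply hArrm (meas_pre w n), Measure.prod_apply (hArrm (meas_pre w n))]
  refine lintegral_congr_ae ?_
  filter_upwards [hpv] with a ha
  have h1 : Prod.mk a ⁻¹' (Arr ⁻¹' {b : ℕ → E | ∀ k < n, b k = w k}) =
      Set.pi (Finset.range n : Set ℕ) (fun k => {t : I | f (fun e => S a e k) t = w k}) := by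
    ext v
    simp [hArr, Set.mem_pi]
  rw [h1, hν, Measure.infinitePi_pi]
  · refine Finset.prod_congr rfl fun k _ => ?_
    have h2 : {t : I | f (fun e => S a e k) t = w k} = f (fun e => S a e k) ⁻¹' {w k} := rfl
    have h3 : Measurable (f (fun e => S a e k)) := hf.of_uncurry_left
    rw [h2, ← Measure.map_apply h3 (MeasurableSet.of_discrete), hfκ, ker_apply (ha k),
      wt_singleton]
  · intro k _
    exact (hf.of_uncurry_left : Measurable (f (fun e => S a e k))) (MeasurableSet.of_discrete (s := {w k}))

end Pool.H543.ERW
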