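import Mathlib
import Pool.Agent.H543R3.StackLaw

set_option autoImplicit false
set_option linter.unusedSectionVars false

/-!
The geometric data of the integer lattice.
-/

namespace Pool.H543.ERW

open MeasureTheory ProbabilityTheory Set Filter

variable {d : ℕ}

/-- the unit vector in direction `e` -/
def uv (e : Fin d × Bool) : Fin d → ℤ := Pi.single e.1 (if e.2 then (1 : ℤ) else -1)

lemma uv_inj : Function.Injective (uv (d := d)) := by
  rintro ⟨i, b⟩ ⟨j, c⟩ h
  have h1 := congrFun h i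
  simp only [uv, Pi.single_eq_same] at h1
  by_cases hij : i = j
  · subst hij
    simp only [Pi.single_eq_same] at h1
    cases b <;> cases c <;> simp_all
  · rw [Pi.single_eq_of_ne hij] at h1
    cases b <;> simp_all

/-- the `ℓ¹` norm -/
def N1 (x : Fin d → ℤ) : ℕ := ∑ i, (x i).natAbs

lemma N1_uv (e : Fin d × Bool) : N1 (uv e) = 1 := by
  rw [N1, Finset.sum_eq_single e.1]
  · rw [uv, Pi.single_eq_same]; cases e.2 <;> rfl
  · intro j _ hj
    rw [uv, Pi.single_eq_of_ne hj]; rfl
  · intro h; exact absurd (Finset.mem_univ _) h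

lemma natAbs_le_N1 (x : Fin d → ℤ) (i : Fin d) : (x i).natAbs ≤ N1 x :=
  Finset.single_le_sum (f := fun i => (x i).natAbs) (fun _ _ => Nat.zero_le _) (Finset.mem_univ i)

/-- signed coordinate -/
def lev (i0 : Fin d) (b : Bool) : (Fin d → ℤ) →+ ℤ :=
  if b then Pi.evalAddMonoidHom (fun _ => ℤ) i0 else -(Pi.evalAddMonoidHom (fun _ => ℤ) i0)

lemma lev_true (i0 : Fin d) (x : Fin d → ℤ) : lev i0 true x = x i0 := rfl
lemma lev_false (i0 : Fin d) (x : Fin d → ℤ) : lev i0 false x = - x i0 := rfl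

lemma lev_abs (i0 : Fin d) (b : Bool) (x : Fin d → ℤ) : |lev i0 b x| = ((x i0).natAbs : ℤ) := by
  cases b
  · rw [lev_false, abs_neg, Int.abs_eq_natAbs]
  · rw [lev_true, Int.abs_eq_natAbs]

lemma lev_eq_zero (i0 : Fin d) (b : Bool) (x : Fin d → ℤ) : lev i0 b x = 0 ↔ x i0 = 0 := by
  cases b
  · rw [lev_false, neg_eq_zero]
  · rw [lev_true]

/-- the vectors reachable by steps preserving the level -/
def Rch (i0 : Fin d) (b : Bool) (v : Fin d → ℤ) : Prop :=
  ∃ δ : List (Fin d × Bool), (∀ e ∈ δ, lev i0 b (uv e) = 0) ∧ (δ.map uv).sum = v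

lemma Rch_zero (i0 : Fin d) (b : Bool) : Rch i0 b 0 := ⟨[], by simp, by simp⟩

lemma Rch_add (i0 : Fin d) (b : Bool) (v w : Fin d → ℤ) (hv : Rch i0 b v) (hw : Rch i0 b w) :
    Rch i0 b (v + w) := by
  obtain ⟨δ, h1, h2⟩ := hv
  obtain ⟨δ', h1', h2'⟩ := hw
  refine ⟨δ ++ δ', ?_, ?_⟩
  · intro e he
    rcases List.mem_append.1 he with h | h
    · exact h1 e h
    · exact h1' e h
  · rw [List.map_append, List.sum_append, h2, h2']

lemma Rch_single (i0 : Fin d) (b : Bool) (i : Fin d) (hi : i ≠ i0) (m : ℤ) :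
    Rch i0 b (Pi.single i m) := by
  have h0 : ∀ c : Bool, lev i0 b (uv (i, c)) = 0 := by
    intro c
    rw [lev_eq_zero, uv, Pi.single_eq_of_ne hi.symm]
  have key : ∀ (c : Bool) (n : ℕ), Rch i0 b (Pi.single i ((n : ℤ) * (if c then 1 else -1))) := by
    intro c n
    refine ⟨List.replicate n (i, c), ?_, ?_⟩
    · intro e he
      rw [List.eq_of_mem_replicate he]; exact h0 c
    · rw [List.map_replicate, List.sum_replicate, uv, ← Pi.single_smul]
      simp [nsmul_eq_mul]
  rcases le_total 0 m with h | h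
  · have := key true m.natAbs
    have e : ((m.natAbs : ℤ) * (if true then 1 else -1)) = m := by
      simp [abs_of_nonneg h]
    rwa [e] at this
  · have := key false m.natAbs
    have e : ((m.natAbs : ℤ) * (if false then 1 else -1)) = m := by
      simp [abs_of_nonpos h]
    rwa [e] at this

lemma Rch_all (i0 : Fin d) (b : Bool) (v : Fin d → ℤ) (hv : lev i0 b v = 0) : Rch i0 b v := by
  rw [lev_eq_zero] at hv
  have h : v = ∑ i, Pi.single i (v i) := (Finset.univ_sum_single v).symm
  rw [h]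
  refine Finset.sum_induction _ (Rch i0 b) (Rch_add i0 b) (Rch_zero i0 b) ?_
  intro i _
  by_cases hi : i = i0
  · subst hi; rw [hv, Pi.single_zero]; exact Rch_zero _ _
  · exact Rch_single i0 b i hi _

/-- the geometric data in direction `± e_{i0}` -/
def geo (i0 : Fin d) (b : Bool) : Geo (Fin d → ℤ) (Fin d × Bool) where
  u := uv
  N := N1
  N_zero := by simp [N1]
  N_neg x := by simp [N1]
  N_add x y := by
    rw [N1, N1, N1, ← Finset.sum_add_distrib]
    exact Finset.sum_le_sum fun i _ => Int.natAbs_add_le _ _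
  N_fin R := by
    refine (Set.finite_Icc (fun _ : Fin d => -(R : ℤ)) (fun _ => (R : ℤ))).subset ?_
    intro x hx
    have hx' : N1 x ≤ R := hx
    have h1 : ∀ i, (x i).natAbs ≤ R := fun i => (natAbs_le_N1 x i).trans hx'
    constructor
    · intro i
      have := h1 i
      show -(R : ℤ) ≤ x i
      omega
    · intro i
      have := h1 i
      show x i ≤ (R : ℤ)
      omega
  N_u e := (N1_uv e).le
  L := lev i0 b
  L_le x := by
    rw [lev_abs]
    exact_mod_cast natAbs_le_N1 x i0
  up := (i0, b)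
  L_up := by
    cases b
    · rw [lev_false, uv]; simp
    · rw [lev_true, uv]; simp
  travel v hv := Rch_all i0 b v hv

lemma W_geo (i0 : Fin d) (b : Bool) (i1 : Fin d) (b1 : Bool) (ξ : (Fin d → ℤ) → ℕ → Fin d × Bool)
    (n : ℕ) : W (geo i0 b) ξ n = W (geo i1 b1) ξ n := rfl

end Pool.H543.ERW
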