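import Mathlib
import Pool.Agent.H543R3.Lattice

set_option autoImplicit false
set_option linter.unusedSectionVars false

/-!
From the arrow stacks to the excited random walk.
-/

namespace Pool.H543.ERW

open MeasureTheory ProbabilityTheory Set Filter

/-- the space of cookie environments -/
abbrev Env (d : ℕ) : Type := (Fin d → ℤ) → (Fin d × Bool) → ℕ → ℝ

variable {d : ℕ}

lemma meas_coord (z : Fin d → ℤ) (e : Fin d × Bool) (k : ℕ) :
    Measurable (fun ω : Env d => ω z e k) :=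
  (measurable_pi_apply k).comp ((measurable_pi_apply e).comp (measurable_pi_apply z))

/-- the weight of the first `n` steps of the walk `W g ξ₀` in the environment `ω` -/
noncomputable def Wgt (g : Geo (Fin d → ℤ) (Fin d × Bool)) (ξ₀ : (Fin d → ℤ) → ℕ → Fin d × Bool)
    (n : ℕ) (ω : Env d) : ENNReal :=
  ∏ j ∈ Finset.range n, ENNReal.ofReal (ω (W g ξ₀ j) (ξ₀ (W g ξ₀ j) (C g ξ₀ j (W g ξ₀ j)))
    (C g ξ₀ j (W g ξ₀ j)))

lemma meas_Wgt (g : Geo (Fin d → ℤ) (Fin d × Bool)) (ξ₀ : (Fin d → ℤ) → ℕ → Fin d × Bool)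
    (n : ℕ) : Measurable (Wgt g ξ₀ n) := by
  refine Finset.measurable_prod _ fun j _ => ?_
  exact ENNReal.measurable_ofReal.comp (meas_coord _ _ _)

theorem path_law (g : Geo (Fin d → ℤ) (Fin d × Bool)) (hg : g.u = uv) {Ω : Type} [MeasurableSpace Ω]
    (μ : Measure Ω) [IsProbabilityMeasure μ] (env : Ω → Env d) (X : ℕ → Ω → (Fin d → ℤ))
    (hme : Measurable env) (hmX : ∀ n, Measurable (X n))
    (hnn : ∀ᵐ a ∂μ, ∀ z e k, 0 ≤ env a z e k)
    (hs1 : ∀ᵐ a ∂μ, ∀ z k, ∑ e, env a z e k = 1)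
    (h0 : ∀ᵐ a ∂μ, X 0 a = 0)
    (hst : ∀ (n : ℕ) (x : ℕ → (Fin d → ℤ)) (e : Fin d × Bool) (A : Set (Env d)), MeasurableSet A →
      μ.real {a | env a ∈ A ∧ (∀ m ≤ n, X m a = x m) ∧ X (n + 1) a = x n + uv e} =
        ∫ a in {a | env a ∈ A ∧ ∀ m ≤ n, X m a = x m},
          env a (x n) e ((Finset.range n).filter (fun m => x m = x n)).card ∂μ)
    (ξ₀ : (Fin d → ℤ) → ℕ → Fin d × Bool) (n : ℕ) :
    ∀ (A : Set (Env d)), MeasurableSet A →
      μ {a | env a ∈ A ∧ ∀ j ≤ n, X j a = W g ξ₀ j} = ∫⁻ a in env ⁻¹' A, Wgt g ξ₀ n (env a) ∂μ := by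
  induction n with
  | zero =>
    intro A hA
    have : μ {a | env a ∈ A ∧ ∀ j ≤ 0, X j a = W g ξ₀ j} = μ (env ⁻¹' A) := by
      refine measure_congr ?_
      filter_upwards [h0] with a ha
      refine propext ⟨fun h => h.1, fun h => ⟨h, fun j hj => ?_⟩⟩
      have : j = 0 := by omega
      subst this
      rw [ha, W_zero]
    rw [this]
    simp [Wgt]
  | succ n ih =>
    intro A hA
    set e := ξ₀ (W g ξ₀ n) (C g ξ₀ n (W g ξ₀ n)) with he
    set k := C g ξ₀ n (W g ξ₀ n) with hk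
    have hPm : MeasurableSet {a | ∀ j ≤ n, X j a = W g ξ₀ j} := by
      have : {a | ∀ j ≤ n, X j a = W g ξ₀ j} = ⋂ j ∈ Finset.range (n + 1), X j ⁻¹' {W g ξ₀ j} := by
        ext a; simp [Nat.lt_succ_iff]
      rw [this]
      exact Finset.measurableSet_biInter _ fun i _ => hmX i (measurableSet_singleton _)
    have hset : {a | env a ∈ A ∧ ∀ j ≤ n + 1, X j a = W g ξ₀ j} =
        {a | env a ∈ A ∧ (∀ m ≤ n, X m a = W g ξ₀ m) ∧ X (n + 1) a = W g ξ₀ n + uv e} := by
      ext a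
      have hW : W g ξ₀ (n + 1) = W g ξ₀ n + uv e := by rw [W_succ, hg]
      constructor
      · rintro ⟨h1, h2⟩
        exact ⟨h1, fun m hm => h2 m (by omega), by rw [h2 (n + 1) le_rfl, hW]⟩
      · rintro ⟨h1, h2, h3⟩
        refine ⟨h1, fun j hj => ?_⟩
        rcases Nat.lt_or_ge n j with h | h
        · have : j = n + 1 := by omega
          rw [this, h3, hW]
        · exact h2 j h
    have hcard : ((Finset.range n).filter (fun m => W g ξ₀ m = W g ξ₀ n)).card = k := by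
      rw [hk, C_card]
    have hstep := hst n (fun m => W g ξ₀ m) e A hA
    simp only [hcard] at hstep
    rw [hset]
    have hfin : μ {a | env a ∈ A ∧ (∀ m ≤ n, X m a = W g ξ₀ m) ∧
        X (n + 1) a = W g ξ₀ n + uv e} = ENNReal.ofReal (∫ a in {a | env a ∈ A ∧ ∀ m ≤ n,
          X m a = W g ξ₀ m}, env a (W g ξ₀ n) e k ∂μ) := by
      rw [← hstep, Measure.real, ENNReal.ofReal_toReal (measure_ne_top _ _)]
    rw [hfin]
    have hmf : Measurable (fun ω : Env d => ω (W g ξ₀ n) e k) := meas_coord _ _ _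
    have hle1 : ∀ᵐ a ∂μ, ‖env a (W g ξ₀ n) e k‖ ≤ 1 := by
      filter_upwards [hnn, hs1] with a h1 h2
      rw [Real.norm_eq_abs, abs_of_nonneg (h1 _ _ _), ← h2 (W g ξ₀ n) k]
      exact Finset.single_le_sum (f := fun e => env a (W g ξ₀ n) e k) (fun i _ => h1 _ _ _)
        (Finset.mem_univ e)
    have hint : Integrable (fun a => env a (W g ξ₀ n) e k)
        (μ.restrict {a | env a ∈ A ∧ ∀ m ≤ n, X m a = W g ξ₀ m}) := by
      refine Integrable.of_bound (hmf.comp hme).aestronglyMeasurable 1 (ae_restrict_of_ae hle1)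
    have hnn' : 0 ≤ᵐ[μ.restrict {a | env a ∈ A ∧ ∀ m ≤ n, X m a = W g ξ₀ m}]
        (fun a => env a (W g ξ₀ n) e k) := by
      refine ae_restrict_of_ae ?_
      filter_upwards [hnn] with a h1
      exact h1 _ _ _
    rw [ofReal_integral_eq_lintegral_ofReal hint hnn']
    have hmF : Measurable (fun ω : Env d => ENNReal.ofReal (ω (W g ξ₀ n) e k)) :=
      ENNReal.measurable_ofReal.comp hmf
    -- the two measures
    have hmeq : (μ.restrict {a | ∀ j ≤ n, X j a = W g ξ₀ j}).map env =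
        (μ.map env).withDensity (Wgt g ξ₀ n) := by
      ext B hB
      rw [Measure.map_apply hme hB, Measure.restrict_apply (hme hB), withDensity_apply _ hB,
        setLIntegral_map hB (meas_Wgt g ξ₀ n) hme, ← ih B hB]
      rfl
    have e1 : ∫⁻ a in {a | env a ∈ A ∧ ∀ m ≤ n, X m a = W g ξ₀ m},
        ENNReal.ofReal (env a (W g ξ₀ n) e k) ∂μ =
        ∫⁻ ω in A, ENNReal.ofReal (ω (W g ξ₀ n) e k)
          ∂((μ.restrict {a | ∀ j ≤ n, X j a = W g ξ₀ j}).map env) := by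
      rw [setLIntegral_map hA hmF hme, Measure.restrict_restrict (hme hA)]
      rfl
    rw [e1, hmeq, setLIntegral_withDensity_eq_setLIntegral_mul _ (meas_Wgt g ξ₀ n) hmF hA,
      setLIntegral_map hA ((meas_Wgt g ξ₀ n).mul hmF) hme]
    refine lintegral_congr fun a => ?_
    rw [Pi.mul_apply, Wgt, Wgt, Finset.prod_range_succ]

theorem exists_stack (i0 : Fin d) {Ω : Type} [MeasurableSpace Ω]
    (μ : Measure Ω) [IsProbabilityMeasure μ] (env : Ω → Env d) (X : ℕ → Ω → (Fin d → ℤ))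
    (hme : Measurable env) (hmX : ∀ n, Measurable (X n))
    (hnn : ∀ᵐ a ∂μ, ∀ z e k, 0 ≤ env a z e k)
    (hs1 : ∀ᵐ a ∂μ, ∀ z k, ∑ e, env a z e k = 1)
    (h0 : ∀ᵐ a ∂μ, X 0 a = 0)
    (hst : ∀ (n : ℕ) (x : ℕ → (Fin d → ℤ)) (e : Fin d × Bool) (A : Set (Env d)), MeasurableSet A →
      μ.real {a | env a ∈ A ∧ (∀ m ≤ n, X m a = x m) ∧ X (n + 1) a = x n + uv e} =
        ∫ a in {a | env a ∈ A ∧ ∀ m ≤ n, X m a = x m},
          env a (x n) e ((Finset.range n).filter (fun m => x m = x n)).card ∂μ)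
    (hind : iIndepFun (fun z a => env a z) μ)
    (hid : ∀ z, IdentDistrib (fun a => env a z) (fun a => env a 0) μ μ)
    (hel : ∀ z e k, ∀ᵐ a ∂μ, 0 < env a z e k) :
    ∃ ρ : Measure (ℕ → Fin d × Bool), ∃ _ : IsProbabilityMeasure ρ, Full ρ ∧
      μ.map (fun a n => X n a) =
        (mu (Fin d → ℤ) ρ).map (fun ξ n => W (geo i0 true) ξ n) := by
  classical
  haveI : Nonempty (Fin d × Bool) := ⟨(i0, true)⟩
  have hmz : ∀ z, Measurable (fun a => env a z) := fun z => (measurable_pi_apply z).comp hme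
  obtain ⟨ρ, hρ, hρw⟩ := exists_rho μ (fun a => env a 0) (hmz 0) (by
    filter_upwards [hnn, hs1] with a h1 h2
    intro k
    exact ⟨fun e => h1 _ _ _, h2 _ _⟩)
  have hmprod : ∀ (w : ℕ → Fin d × Bool) (n : ℕ), Measurable
      (fun s : (Fin d × Bool) → ℕ → ℝ => ∏ k ∈ Finset.range n, ENNReal.ofReal (s (w k) k)) := by
    intro w n
    refine Finset.measurable_prod _ fun k _ => ?_
    exact ENNReal.measurable_ofReal.comp ((measurable_pi_apply k).comp (measurable_pi_apply (w k)))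
  refine ⟨ρ, hρ, ?_, ?_⟩
  · intro w n
    have h1 : (ρ {a | ∀ i < n, a i = w i}) ≠ 0 := by
      rw [hρw w n]
      intro h
      replace h := (lintegral_eq_zero_iff (μ := μ) ((hmprod w n).comp (hmz 0))).1 h
      have h2 : ∀ᵐ a ∂μ, ∀ k, 0 < env a 0 (w k) k := ae_all_iff.2 fun k => hel _ _ _
      have h3 : ∀ᵐ a ∂μ, False := by
        filter_upwards [h, h2] with a ha hb
        have : (∏ k ∈ Finset.range n, ENNReal.ofReal (env a 0 (w k) k)) = 0 := ha
        rw [Finset.prod_eq_zero_iff] at this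
        obtain ⟨k, _, hk⟩ := this
        rw [ENNReal.ofReal_eq_zero] at hk
        exact absurd (hb k) (not_lt.2 hk)
      rw [ae_iff] at h3
      simp at h3
    exact pos_iff_ne_zero.2 h1
  · have hmpath : Measurable (fun (a : Ω) (n : ℕ) => X n a) := measurable_pi_lambda _ hmX
    haveI : IsProbabilityMeasure (μ.map (fun a n => X n a)) :=
      Measure.isProbabilityMeasure_map hmpath.aemeasurable
    refine law_eq (geo i0 true) ρ _ ?_
    intro ξ₀ n
    set g := geo i0 true with hg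
    have hcyl : MeasurableSet {x : ℕ → (Fin d → ℤ) | ∀ j ≤ n, x j = W g ξ₀ j} := by
      have : {x : ℕ → (Fin d → ℤ) | ∀ j ≤ n, x j = W g ξ₀ j} =
          ⋂ j ∈ Finset.range (n + 1), (fun x => x j) ⁻¹' {W g ξ₀ j} := by
        ext x; simp [Nat.lt_succ_iff]
      rw [this]
      exact Finset.measurableSet_biInter _ fun i _ =>
        (measurable_pi_apply i) (measurableSet_singleton _)
    set s : Finset (Fin d → ℤ) := (Finset.range n).image (W g ξ₀) with hs
    have hsm : ∀ i < n, W g ξ₀ i ∈ s := fun i hi =>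
      Finset.mem_image_of_mem _ (Finset.mem_range.2 hi)
    rw [Measure.map_apply hmpath hcyl]
    have e1 := path_law g rfl μ env X hme hmX hnn hs1 h0 hst ξ₀ n univ MeasurableSet.univ
    have e2 : (fun (a : Ω) (n : ℕ) => X n a) ⁻¹' {x | ∀ j ≤ n, x j = W g ξ₀ j} =
        {a | env a ∈ (univ : Set (Env d)) ∧ ∀ j ≤ n, X j a = W g ξ₀ j} := by
      ext a; simp
    rw [e2, e1, preimage_univ, Measure.restrict_univ]
    have e3 : ∀ a, Wgt g ξ₀ n (env a) = ∏ z ∈ s, ∏ k ∈ Finset.range (C g ξ₀ n z),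
        ENNReal.ofReal (env a z (ξ₀ z k) k) := by
      intro a
      exact prod_path g (fun z e k => ENNReal.ofReal (env a z e k)) ξ₀ s n hsm
    simp only [e3]
    have hmf : ∀ z, Measurable (fun s : (Fin d × Bool) → ℕ → ℝ =>
        ∏ k ∈ Finset.range (C g ξ₀ n z), ENNReal.ofReal (s (ξ₀ z k) k)) := fun z =>
      hmprod (ξ₀ z) _
    have e4 : ∫⁻ a, ∏ z ∈ s, ∏ k ∈ Finset.range (C g ξ₀ n z),
        ENNReal.ofReal (env a z (ξ₀ z k) k) ∂μ = ∏ z ∈ s, ∫⁻ a, ∏ k ∈ Finset.range (C g ξ₀ n z),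
        ENNReal.ofReal (env a z (ξ₀ z k) k) ∂μ := by
      have h1 := hind.comp (fun z (s : (Fin d × Bool) → ℕ → ℝ) =>
        ∏ k ∈ Finset.range (C g ξ₀ n z), ENNReal.ofReal (s (ξ₀ z k) k)) hmf
      exact lintegral_prod_eq_prod_lintegral_of_indepFun s _ h1
        (fun z => (hmf z).comp (hmz z))
    rw [e4, mu_Cy g ρ uv_inj ξ₀ s n hsm]
    refine Finset.prod_congr rfl fun z _ => ?_
    rw [hρw]
    exact ((hid z).comp (hmf z)).lintegral_eq

/-- the event that a trajectory either goes up to infinity or has non-positive speed -/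
def Phi (i0 : Fin d) (b : Bool) (x : ℕ → (Fin d → ℤ)) : Prop :=
  Tendsto (fun n => lev i0 b (x n)) atTop atTop ∨
    ∀ k : ℕ, ∀ᶠ n : ℕ in atTop, ((k : ℤ) + 1) * lev i0 b (x n) ≤ n

lemma meas_Phi (i0 : Fin d) (b : Bool) : MeasurableSet {x : ℕ → (Fin d → ℤ) | Phi i0 b x} := by
  have hl : ∀ n, Measurable (fun x : ℕ → (Fin d → ℤ) => lev i0 b (x n)) := fun n =>
    (measurable_of_countable (lev i0 b)).comp (measurable_pi_apply n)
  have h1 : MeasurableSet {x : ℕ → (Fin d → ℤ) | Tendsto (fun n => lev i0 b (x n)) atTop atTop} :=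
    measurableSet_tendsto atTop hl
  have h2 : MeasurableSet {x : ℕ → (Fin d → ℤ) | ∀ k : ℕ, ∀ᶠ n : ℕ in atTop,
      ((k : ℤ) + 1) * lev i0 b (x n) ≤ n} := by
    simp only [eventually_atTop, ofPred_forall, ofPred_exists]
    refine MeasurableSet.iInter fun k => MeasurableSet.iUnion fun N => MeasurableSet.iInter fun n =>
      MeasurableSet.iInter fun _ => ?_
    exact measurableSet_le ((hl n).const_mul _) measurable_const
  exact h1.union h2

theorem Phi_ae (i0 i1 : Fin d) (b : Bool) (ρ : Measure (ℕ → Fin d × Bool))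
    [IsProbabilityMeasure ρ] (hρ : Full ρ) :
    ∀ᵐ ξ ∂(mu (Fin d → ℤ) ρ), Phi i0 b (fun n => W (geo i1 true) ξ n) := by
  filter_upwards [core (geo i0 b) ρ hρ] with ξ h
  by_cases ht : Tendsto (fun n => (geo i0 b).L (W (geo i0 b) ξ n)) atTop atTop
  · exact Or.inl ht
  · right
    intro k
    have hk : (0 : ℝ) < 1 / ((k : ℝ) + 1) := by positivity
    filter_upwards [h ht _ hk] with n hn
    have h1 : ((lev i0 b (W (geo i1 true) ξ n) : ℤ) : ℝ) ≤ 1 / ((k : ℝ) + 1) * n := hn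
    have h2 : ((k : ℝ) + 1) * ((lev i0 b (W (geo i1 true) ξ n) : ℤ) : ℝ) ≤ n := by
      have h3 := mul_le_mul_of_nonneg_left h1 (by positivity : (0 : ℝ) ≤ (k : ℝ) + 1)
      have h4 : ((k : ℝ) + 1) * (1 / ((k : ℝ) + 1) * n) = n := by field_simp
      linarith
    exact_mod_cast h2

lemma det_final (x : ℕ → Fin d → ℤ) (l : Fin d → ℝ)
    (h : ∀ i b, ∀ k : ℕ, ∀ᶠ n : ℕ in atTop, ((k : ℤ) + 1) * lev i b (x n) ≤ n) :
    Tendsto (fun n : ℕ => (∑ i, (x n i : ℝ) * l i) / n) atTop (nhds 0) := by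
  have hi : ∀ i, Tendsto (fun n : ℕ => (x n i : ℝ) / n) atTop (nhds 0) := by
    intro i
    rw [Metric.tendsto_atTop']
    intro ε hε
    obtain ⟨k, hk⟩ := exists_nat_one_div_lt hε
    have h1 := h i true k
    have h2 := h i false k
    obtain ⟨N, hN⟩ := eventually_atTop.1 (h1.and (h2.and (eventually_ge_atTop 1)))
    refine ⟨N, fun n hn => ?_⟩
    obtain ⟨h3, h4, h5⟩ := hN n hn.le
    rw [lev_true] at h3
    rw [lev_false] at h4
    have h3' : ((k : ℝ) + 1) * (x n i : ℝ) ≤ n := by exact_mod_cast h3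
    have h4' : ((k : ℝ) + 1) * (-(x n i : ℝ)) ≤ n := by exact_mod_cast h4
    have hn0 : (0 : ℝ) < n := by exact_mod_cast h5
    have hk0 : (0 : ℝ) < (k : ℝ) + 1 := by positivity
    rw [dist_zero_right, Real.norm_eq_abs, abs_div, abs_of_pos hn0, div_lt_iff₀ hn0]
    have h6 : |(x n i : ℝ)| * ((k : ℝ) + 1) ≤ n := by
      rcases abs_cases (x n i : ℝ) with ⟨h, _⟩ | ⟨h, _⟩ <;> rw [h] <;> nlinarith
    have h7 : |(x n i : ℝ)| ≤ 1 / ((k : ℝ) + 1) * n := by
      rw [div_mul_eq_mul_div, one_mul, le_div_iff₀ hk0]; exact h6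
    exact lt_of_le_of_lt h7 (mul_lt_mul_of_pos_right hk hn0)
  have h1 : (fun n : ℕ => (∑ i, (x n i : ℝ) * l i) / n) =
      fun n : ℕ => ∑ i, ((x n i : ℝ) / n) * l i := by
    funext n
    rw [Finset.sum_div]
    refine Finset.sum_congr rfl fun i _ => ?_
    ring
  rw [h1]
  have h2 : Tendsto (fun n : ℕ => ∑ i, ((x n i : ℝ) / n) * l i) atTop
      (nhds (∑ i : Fin d, 0 * l i)) :=
    tendsto_finsetSum _ fun i _ => (hi i).mul_const _
  simpa using h2

theorem main (d : ℕ) (hd : 1 ≤ d) {Ω : Type} [MeasurableSpace Ω]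
    (μ : Measure Ω) [IsProbabilityMeasure μ] (env : Ω → Env d) (X : ℕ → Ω → (Fin d → ℤ))
    (hme : Measurable env) (hmX : ∀ n, Measurable (X n))
    (hnn : ∀ᵐ a ∂μ, ∀ z e k, 0 ≤ env a z e k)
    (hs1 : ∀ᵐ a ∂μ, ∀ z k, ∑ e, env a z e k = 1)
    (h0 : ∀ᵐ a ∂μ, X 0 a = 0)
    (hst : ∀ (n : ℕ) (x : ℕ → (Fin d → ℤ)) (e : Fin d × Bool) (A : Set (Env d)), MeasurableSet A →
      μ.real {a | env a ∈ A ∧ (∀ m ≤ n, X m a = x m) ∧ X (n + 1) a = x n + uv e} =
        ∫ a in {a | env a ∈ A ∧ ∀ m ≤ n, X m a = x m},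
          env a (x n) e ((Finset.range n).filter (fun m => x m = x n)).card ∂μ)
    (hind : iIndepFun (fun z a => env a z) μ)
    (hid : ∀ z, IdentDistrib (fun a => env a z) (fun a => env a 0) μ μ)
    (hel : ∀ z e k, ∀ᵐ a ∂μ, 0 < env a z e k) (l : Fin d → ℝ) :
    ∀ᵐ a ∂μ, ¬ Tendsto (fun n => Real.sqrt (∑ i, (X n a i : ℝ) ^ 2)) atTop atTop →
      Tendsto (fun n : ℕ => (∑ i, (X n a i : ℝ) * l i) / n) atTop (nhds 0) := by
  have i0 : Fin d := ⟨0, hd⟩
  obtain ⟨ρ, hρ, hfull, hlaw⟩ := exists_stack i0 μ env X hme hmX hnn hs1 h0 hst hind hid hel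
  have hmpath : Measurable (fun (a : Ω) (n : ℕ) => X n a) := measurable_pi_lambda _ hmX
  have hmW : Measurable (fun (ξ : (Fin d → ℤ) → ℕ → Fin d × Bool) (n : ℕ) =>
      W (geo i0 true) ξ n) := measurable_pi_lambda _ fun n => meas_W _ n
  have key : ∀ (i : Fin d) (b : Bool), ∀ᵐ a ∂μ, Phi i b (fun n => X n a) := by
    intro i b
    have h1 : ∀ᵐ x ∂(μ.map (fun a n => X n a)), Phi i b x := by
      rw [hlaw, ae_map_iff hmW.aemeasurable (meas_Phi i b)]
      exact Phi_ae i i0 b ρ hfull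
    rwa [ae_map_iff hmpath.aemeasurable (meas_Phi i b)] at h1
  have key2 : ∀ᵐ a ∂μ, ∀ (i : Fin d) (b : Bool), Phi i b (fun n => X n a) :=
    ae_all_iff.2 fun i => ae_all_iff.2 fun b => key i b
  filter_upwards [key2] with a ha hne
  refine det_final (fun n => X n a) l fun i b => ?_
  rcases ha i b with h | h
  · exfalso
    apply hne
    refine tendsto_atTop_mono (f := fun n => ((lev i b (X n a) : ℤ) : ℝ)) ?_
      (tendsto_intCast_atTop_atTop.comp h)
    intro n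
    have h1 : ((lev i b (X n a) : ℤ) : ℝ) ≤ |(X n a i : ℝ)| := by
      have h2 : lev i b (X n a) ≤ |X n a i| := by
        refine (le_abs_self _).trans ?_
        rw [lev_abs, Int.abs_eq_natAbs]
      exact_mod_cast h2
    refine h1.trans ?_
    rw [← Real.sqrt_sq_eq_abs]
    refine Real.sqrt_le_sqrt ?_
    exact Finset.single_le_sum (f := fun i => (X n a i : ℝ) ^ 2) (fun i _ => sq_nonneg _)
      (Finset.mem_univ i)
  · exact h

end Pool.H543.ERW
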